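import Pool.Agent.H679R2.Oct.Inv

/-!
# The cyclic order of an alternating cycle
-/

namespace Pool.Agent.Run7.h13

open Pool.Agent.H679R2

variable {V : Type} {M S : V → V}

/-- the alternating sequence -/
def alt (M S : V → V) (a : V) : ℕ → V
  | 0 => a
  | n + 1 => if n % 2 = 0 then S (alt M S a n) else M (alt M S a n)

theorem alt_even {a : V} {n : ℕ} (h : n % 2 = 0) : alt M S a (n + 1) = S (alt M S a n) := by
  simp [alt, h]

theorem alt_odd {a : V} {n : ℕ} (h : n % 2 = 1) : alt M S a (n + 1) = M (alt M S a n) := by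
  simp [alt, h]

theorem alt_ne (hM : Function.Involutive M) (hM' : ∀ v, M v ≠ v) (hS : Function.Involutive S)
    (hS' : ∀ v, S v ≠ v) (a : V) (n : ℕ) : ∀ m, alt M S a m ≠ alt M S a (m + 2 * n + 1) := by
  induction n with
  | zero =>
    intro m h
    rcases Nat.mod_two_eq_zero_or_one m with h1 | h1
    · rw [mul_zero, add_zero, alt_even h1] at h
      exact hS' _ h.symm
    · rw [mul_zero, add_zero, alt_odd h1] at h
      exact hM' _ h.symm
  | succ n ih =>
    intro m h
    apply ih (m + 1)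
    have e1 : m + 1 + 2 * n + 1 = m + 2 * (n + 1) := by ring
    rw [e1]
    rcases Nat.mod_two_eq_zero_or_one m with h1 | h1
    · rw [alt_even h1, h, alt_even (by omega), hS]
    · rw [alt_odd h1, h, alt_odd (by omega), hM]

theorem alt_iterate (a : V) (i : ℕ) : alt M S a (2 * i) = (M ∘ S)^[i] a := by
  induction i with
  | zero => rfl
  | succ i ih =>
    rw [Function.iterate_succ_apply', ← ih]
    have : 2 * (i + 1) = 2 * i + 1 + 1 := by ring
    rw [this, alt_odd (by omega), alt_even (by omega)]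
    rfl

/-- The positions of the elements on the only alternating cycle. -/
theorem exists_rho [Finite V] (hM : Function.Involutive M) (hM' : ∀ v, M v ≠ v)
    (hS : Function.Involutive S) (hS' : ∀ v, S v ≠ v) (a : V) (hc : ∀ x y, Conn M S x y) :
    ∃ ρ : V → ℕ, Function.Injective ρ ∧ (∀ v, ρ v % 2 = 0 → ρ (S v) = ρ v + 1) ∧
      (∀ v, ρ v % 2 = 1 → ρ (S v) + 1 = ρ v) ∧
      ∀ v, v ≠ a → M v ≠ a → (ρ v % 2 = 0 → ρ (M v) + 1 = ρ v) ∧
        (ρ v % 2 = 1 → ρ (M v) = ρ v + 1) := by
  have hπ : Function.Injective (M ∘ S) := hM.injective.comp hS.injective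
  have hper : a ∈ Function.periodicPts (M ∘ S) := hπ.mem_periodicPts a
  set d := Function.minimalPeriod (M ∘ S) a with hd
  have hd0 : 0 < d := Function.minimalPeriod_pos_of_mem_periodicPts hper
  have h2d : alt M S a (2 * d) = a := by
    rw [alt_iterate]
    exact Function.iterate_minimalPeriod
  have h2d' : alt M S a (2 * d - 1) = M a := by
    obtain ⟨m, hm⟩ : ∃ m, 2 * d = m + 1 := ⟨2 * d - 1, by omega⟩
    rw [hm, alt_odd (by omega)] at h2d
    rw [hm, Nat.add_sub_cancel]
    exact hM.injective (by rw [h2d, hM])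
  have heven : ∀ i j, i < d → j < d → alt M S a (2 * i) = alt M S a (2 * j) → i = j := by
    intro i j hi hj h
    rw [alt_iterate, alt_iterate] at h
    exact Function.iterate_injOn_Iio_minimalPeriod hi hj h
  have hinj : ∀ m m', m < 2 * d → m' < 2 * d → alt M S a m = alt M S a m' → m = m' := by
    intro m m' hm hm' h
    rcases Nat.mod_two_eq_zero_or_one m with h1 | h1 <;>
      rcases Nat.mod_two_eq_zero_or_one m' with h2 | h2
    · obtain ⟨i, rfl⟩ : ∃ i, m = 2 * i := ⟨m / 2, by omega⟩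
      obtain ⟨j, rfl⟩ : ∃ j, m' = 2 * j := ⟨m' / 2, by omega⟩
      rw [heven i j (by omega) (by omega) h]
    · exfalso
      rcases Nat.lt_or_ge m m' with h3 | h3
      · obtain ⟨k, rfl⟩ : ∃ k, m' = m + 2 * k + 1 := ⟨(m' - m) / 2, by omega⟩
        exact alt_ne hM hM' hS hS' a k m h
      · obtain ⟨k, rfl⟩ : ∃ k, m = m' + 2 * k + 1 := ⟨(m - m') / 2, by omega⟩
        exact alt_ne hM hM' hS hS' a k m' h.symm
    · exfalso
      rcases Nat.lt_or_ge m m' with h3 | h3
      · obtain ⟨k, rfl⟩ : ∃ k, m' = m + 2 * k + 1 := ⟨(m' - m) / 2, by omega⟩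
        exact alt_ne hM hM' hS hS' a k m h
      · obtain ⟨k, rfl⟩ : ∃ k, m = m' + 2 * k + 1 := ⟨(m - m') / 2, by omega⟩
        exact alt_ne hM hM' hS hS' a k m' h.symm
    · obtain ⟨i, rfl⟩ : ∃ i, m = 2 * i + 1 := ⟨m / 2, by omega⟩
      obtain ⟨j, rfl⟩ : ∃ j, m' = 2 * j + 1 := ⟨m' / 2, by omega⟩
      rw [alt_even (by omega), alt_even (by omega)] at h
      rw [heven i j (by omega) (by omega) (hS.injective h)]
  -- closure
  have cS : ∀ m, m < 2 * d → (m % 2 = 0 → m + 1 < 2 * d ∧ alt M S a (m + 1) = S (alt M S a m)) ∧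
      (m % 2 = 1 → alt M S a (m - 1) = S (alt M S a m)) := by
    intro m hm
    constructor
    · intro h
      exact ⟨by omega, alt_even h⟩
    · intro h
      obtain ⟨k, rfl⟩ : ∃ k, m = k + 1 := ⟨m - 1, by omega⟩
      rw [Nat.add_sub_cancel, alt_even (by omega), hS]
  have cM : ∀ m, m < 2 * d → (m % 2 = 0 → m ≠ 0 → alt M S a (m - 1) = M (alt M S a m)) ∧
      (m % 2 = 1 → alt M S a (m + 1) = M (alt M S a m)) := by
    intro m hm
    constructor
    · intro h h0
      obtain ⟨k, rfl⟩ : ∃ k, m = k + 1 := ⟨m - 1, by omega⟩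
      rw [Nat.add_sub_cancel, alt_odd (by omega), hM]
    · intro h
      exact alt_odd h
  have hsurj : ∀ v, ∃ m, m < 2 * d ∧ alt M S a m = v := by
    intro v
    have h := Conn.closed hM hS (X := {v | ∃ m, m < 2 * d ∧ alt M S a m = v})
      (by
        rintro x ⟨m, hm, rfl⟩
        rcases Nat.mod_two_eq_zero_or_one m with h1 | h1
        · by_cases h0 : m = 0
          · subst h0
            exact ⟨2 * d - 1, by omega, h2d'⟩
          · exact ⟨m - 1, by omega, (cM m hm).1 h1 h0⟩
        · by_cases h2 : m + 1 = 2 * d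
          · refine ⟨0, by omega, ?_⟩
            rw [← (cM m hm).2 h1, h2, h2d]
            rfl
          · exact ⟨m + 1, by omega, (cM m hm).2 h1⟩)
      (by
        rintro x ⟨m, hm, rfl⟩
        rcases Nat.mod_two_eq_zero_or_one m with h1 | h1
        · exact ⟨m + 1, ((cS m hm).1 h1).1, ((cS m hm).1 h1).2⟩
        · exact ⟨m - 1, by omega, (cS m hm).2 h1⟩) (hc a v)
    exact h.1 ⟨0, by omega, rfl⟩
  choose ρ hρ hρ' using hsurj
  have hρi : Function.Injective ρ := fun v w h => by rw [← hρ' v, ← hρ' w, h]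
  have hρm : ∀ m, m < 2 * d → ρ (alt M S a m) = m := fun m hm =>
    hinj _ _ (hρ _) hm (hρ' _)
  refine ⟨ρ, hρi, ?_, ?_, ?_⟩
  · intro v hv
    have h1 := (cS (ρ v) (hρ v)).1 hv
    rw [hρ' v] at h1
    rw [← h1.2]
    exact hρm _ h1.1
  · intro v hv
    have h1 := (cS (ρ v) (hρ v)).2 hv
    rw [hρ' v] at h1
    rw [← h1, hρm _ (by have := hρ v; omega)]
    omega
  · intro v hva hMva
    constructor
    · intro hv
      have h0 : ρ v ≠ 0 := by
        intro h0
        apply hva
        rw [← hρ' v, h0]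
        rfl
      have h1 := (cM (ρ v) (hρ v)).1 hv h0
      rw [hρ' v] at h1
      rw [← h1, hρm _ (by have := hρ v; omega)]
      omega
    · intro hv
      have h1 := (cM (ρ v) (hρ v)).2 hv
      rw [hρ' v] at h1
      have h2 : ρ v + 1 ≠ 2 * d := by
        intro h2
        rw [h2, h2d] at h1
        exact hMva h1.symm
      rw [← h1]
      exact hρm _ (by have := hρ v; omega)

end Pool.Agent.Run7.h13
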