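import Pool.Agent.Run7.h13.Meet2

/-!
# Chords of the unit circle
-/

namespace Pool.Agent.Run7.h13

open Set Complex ComplexConjugate Metric

/-- The chord from `a` to `b`. -/
noncomputable def ch (a b : ℂ) (t : ℝ) : ℂ := a + (t : ℂ) * (b - a)

theorem ch_zero (a b : ℂ) : ch a b 0 = a := by simp [ch]

theorem ch_one (a b : ℂ) : ch a b 1 = b := by simp [ch]

theorem ch_re (a b : ℂ) (t : ℝ) : (ch a b t).re = a.re + t * (b.re - a.re) := by simp [ch]

theorem ch_im (a b : ℂ) (t : ℝ) : (ch a b t).im = a.im + t * (b.im - a.im) := by simp [ch]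

theorem ch_image (a b : ℂ) : ch a b '' Icc 0 1 = segment ℝ a b := by
  rw [segment_eq_image']
  apply Set.image_congr
  intro t _
  simp [ch]

theorem norm_eq_one_iff' {a : ℂ} : ‖a‖ = 1 ↔ a.re * a.re + a.im * a.im = 1 := by
  rw [← Complex.normSq_apply, Complex.normSq_eq_norm_sq]
  constructor
  · intro h
    rw [h]
    norm_num
  · intro h
    have := norm_nonneg a
    nlinarith

theorem norm_lt_one_iff' {a : ℂ} : ‖a‖ < 1 ↔ a.re * a.re + a.im * a.im < 1 := by
  rw [← Complex.normSq_apply, Complex.normSq_eq_norm_sq]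
  have := norm_nonneg a
  constructor
  · intro h
    nlinarith
  · intro h
    nlinarith

/-- squared length -/
def dsq (a b : ℂ) : ℝ := (b.re - a.re) ^ 2 + (b.im - a.im) ^ 2

theorem dsq_pos {a b : ℂ} (h : a ≠ b) : 0 < dsq a b := by
  unfold dsq
  by_contra hc
  have h1 : (b.re - a.re) ^ 2 = 0 := by
    have := sq_nonneg (b.re - a.re)
    have := sq_nonneg (b.im - a.im)
    linarith
  have h2 : (b.im - a.im) ^ 2 = 0 := by
    have := sq_nonneg (b.re - a.re)
    have := sq_nonneg (b.im - a.im)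
    linarith
  exact h (Complex.ext (by have := pow_eq_zero_iff (two_ne_zero) |>.1 h1; linarith)
    (by have := pow_eq_zero_iff (two_ne_zero) |>.1 h2; linarith))

theorem ch_normSq {a b : ℂ} (ha : ‖a‖ = 1) (hb : ‖b‖ = 1) (t : ℝ) :
    (ch a b t).re * (ch a b t).re + (ch a b t).im * (ch a b t).im = 1 - t * (1 - t) * dsq a b := by
  rw [norm_eq_one_iff'] at ha hb
  rw [ch_re, ch_im]
  unfold dsq
  linear_combination (1 - t) * ha + t * hb

theorem ch_norm_lt {a b : ℂ} (ha : ‖a‖ = 1) (hb : ‖b‖ = 1) (hab : a ≠ b) {t : ℝ}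
    (ht : t ∈ Ioo (0 : ℝ) 1) : ‖ch a b t‖ < 1 := by
  rw [norm_lt_one_iff', ch_normSq ha hb]
  have h1 := dsq_pos hab
  have h2 : 0 < t * (1 - t) := mul_pos ht.1 (by linarith [ht.2])
  have := mul_pos h2 h1
  linarith

theorem ch_of_norm_lt {a b : ℂ} (ha : ‖a‖ = 1) (hb : ‖b‖ = 1) (hab : a ≠ b) {t : ℝ}
    (h : ‖ch a b t‖ < 1) : t ∈ Ioo (0 : ℝ) 1 := by
  rw [norm_lt_one_iff', ch_normSq ha hb] at h
  have h1 := dsq_pos hab
  have h2 : 0 < t * (1 - t) := by
    by_contra hc
    have h3 : t * (1 - t) * dsq a b ≤ 0 := mul_nonpos_of_nonpos_of_nonneg (not_lt.1 hc) h1.le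
    linarith
  constructor <;> nlinarith

theorem ch_injective {a b : ℂ} (hab : a ≠ b) : Function.Injective (ch a b) := by
  intro s t h
  unfold ch at h
  have h1 : (s : ℂ) * (b - a) = t * (b - a) := add_left_cancel h
  have h2 := mul_right_cancel₀ (sub_ne_zero.2 hab.symm) h1
  exact_mod_cast h2

theorem ch_continuous (a b : ℂ) : Continuous (ch a b) := by
  unfold ch
  fun_prop

theorem dArc_ch {a b : ℂ} (ha : ‖a‖ = 1) (hb : ‖b‖ = 1) (hab : a ≠ b) : DArc (ch a b) where
  cont := (ch_continuous a b).continuousOn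
  inj := (ch_injective hab).injOn
  inner := fun _ ht => ch_norm_lt ha hb hab ht
  norm0 := by rw [ch_zero, ha]
  norm1 := by rw [ch_one, hb]

/-- The affine function vanishing on the line through `a` and `b`. -/
def lf (a b z : ℂ) : ℝ := (z.im - a.im) * (b.re - a.re) - (z.re - a.re) * (b.im - a.im)

theorem lf_ch (a b c d : ℂ) (t : ℝ) : lf c d (ch a b t) = (1 - t) * lf c d a + t * lf c d b := by
  unfold lf
  rw [ch_re, ch_im]
  ring

theorem lf_self_ch (a b : ℂ) (t : ℝ) : lf a b (ch a b t) = 0 := by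
  unfold lf
  rw [ch_re, ch_im]
  ring

theorem exists_ch_of_lf {a b z : ℂ} (hab : a ≠ b) (h : lf a b z = 0) : ∃ t : ℝ, z = ch a b t := by
  have h1 := dsq_pos hab
  refine ⟨((z.re - a.re) * (b.re - a.re) + (z.im - a.im) * (b.im - a.im)) / dsq a b, ?_⟩
  unfold lf at h
  apply Complex.ext
  · rw [ch_re]
    field_simp
    unfold dsq
    linear_combination (-(b.im - a.im)) * h
  · rw [ch_im]
    field_simp
    unfold dsq
    linear_combination (b.re - a.re) * h

theorem mem_seg_iff {a b z : ℂ} (ha : ‖a‖ = 1) (hb : ‖b‖ = 1) (hab : a ≠ b) (hz : ‖z‖ < 1) :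
    z ∈ segment ℝ a b ↔ lf a b z = 0 := by
  rw [← ch_image]
  constructor
  · rintro ⟨t, -, rfl⟩
    exact lf_self_ch a b t
  · intro h
    obtain ⟨t, rfl⟩ := exists_ch_of_lf hab h
    exact ⟨t, Ioo_subset_Icc_self (ch_of_norm_lt ha hb hab hz), rfl⟩

theorem on_circle {a b c : ℂ} (ha : ‖a‖ = 1) (hb : ‖b‖ = 1) (hab : a ≠ b) (hc : ‖c‖ = 1)
    (h : lf a b c = 0) : c = a ∨ c = b := by
  obtain ⟨t, rfl⟩ := exists_ch_of_lf hab h
  rw [norm_eq_one_iff', ch_normSq ha hb] at hc
  have h1 := dsq_pos hab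
  have h2 : t * (1 - t) = 0 := by
    have h3 : t * (1 - t) * dsq a b = 0 := by linarith
    exact (mul_eq_zero.1 h3).resolve_right h1.ne'
  rcases mul_eq_zero.1 h2 with h3 | h3
  · exact Or.inl (by rw [h3, ch_zero])
  · exact Or.inr (by rw [show t = 1 by linarith, ch_one])

/-- the determinant of the directions of two chords -/
def dt (a b c d : ℂ) : ℝ := (b.re - a.re) * (d.im - c.im) - (b.im - a.im) * (d.re - c.re)

theorem dt_ne_zero {a b c d p : ℂ} (ha : ‖a‖ = 1) (hb : ‖b‖ = 1) (hab : a ≠ b) (hc : ‖c‖ = 1)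
    (hd : ‖d‖ = 1) (hcd : c ≠ d) (h1 : lf a b p = 0) (h2 : lf c d p = 0)
    (hne : s(a, b) ≠ s(c, d)) : dt a b c d ≠ 0 := by
  intro h0
  have hD := dsq_pos hcd
  have hlc : lf a b c = 0 := by
    have h3 : lf a b c * dsq c d = 0 := by
      unfold lf dt dsq at *
      linear_combination ((d.re - c.re) ^ 2 + (d.im - c.im) ^ 2) * h1 +
        ((p.re - c.re) * (d.re - c.re) + (p.im - c.im) * (d.im - c.im)) * h0 * (-1) -
        ((b.re - a.re) * (d.re - c.re) + (b.im - a.im) * (d.im - c.im)) * h2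
    exact (mul_eq_zero.1 h3).resolve_right hD.ne'
  have hld : lf a b d = 0 := by
    have : lf a b d = lf a b c + dt a b c d := by
      unfold lf dt
      ring
    rw [this, hlc, h0, add_zero]
  rcases on_circle ha hb hab hc hlc with h3 | h3 <;> rcases on_circle ha hb hab hd hld with h4 | h4
  · exact hcd (h3.trans h4.symm)
  · exact hne (by rw [h3, h4])
  · exact hne (by rw [h3, h4]; exact Sym2.eq_swap)
  · exact hcd (h3.trans h4.symm)

/-- The plane in the coordinates given by two crossing chords. -/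
noncomputable def crossHomeo (a b c d p : ℂ) (h1 : lf a b p = 0) (h2 : lf c d p = 0)
    (hD : dt a b c d ≠ 0) : ℂ ≃ₜ ℂ where
  toFun z := ⟨lf c d z, lf a b z⟩
  invFun w := ⟨p.re - w.re / dt a b c d * (b.re - a.re) + w.im / dt a b c d * (d.re - c.re),
    p.im - w.re / dt a b c d * (b.im - a.im) + w.im / dt a b c d * (d.im - c.im)⟩
  left_inv z := by
    apply Complex.ext
    · simp only
      field_simp
      unfold lf dt at *
      linear_combination -(b.re - a.re) * h2 + (d.re - c.re) * h1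
    · simp only
      field_simp
      unfold lf dt at *
      linear_combination -(b.im - a.im) * h2 + (d.im - c.im) * h1
  right_inv w := by
    have e1 : lf c d ⟨p.re - w.re / dt a b c d * (b.re - a.re) + w.im / dt a b c d * (d.re - c.re),
        p.im - w.re / dt a b c d * (b.im - a.im) + w.im / dt a b c d * (d.im - c.im)⟩ =
        lf c d p + w.re / dt a b c d * dt a b c d := by
      unfold lf
      simp only
      generalize hx : w.re / dt a b c d = x
      generalize hy : w.im / dt a b c d = y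
      unfold dt
      ring
    have e2 : lf a b ⟨p.re - w.re / dt a b c d * (b.re - a.re) + w.im / dt a b c d * (d.re - c.re),
        p.im - w.re / dt a b c d * (b.im - a.im) + w.im / dt a b c d * (d.im - c.im)⟩ =
        lf a b p + w.im / dt a b c d * dt a b c d := by
      unfold lf
      simp only
      generalize hx : w.re / dt a b c d = x
      generalize hy : w.im / dt a b c d = y
      unfold dt
      ring
    apply Complex.ext
    · simp only
      rw [e1, h2, zero_add, div_mul_cancel₀ _ hD]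
    · simp only
      rw [e2, h1, zero_add, div_mul_cancel₀ _ hD]
  continuous_toFun := by
    have : (fun z : ℂ => (⟨lf c d z, lf a b z⟩ : ℂ)) =
        fun z => (lf c d z : ℂ) + (lf a b z : ℂ) * I := by
      funext z
      apply Complex.ext <;> simp
    rw [this]
    unfold lf
    fun_prop
  continuous_invFun := by
    have : (fun w : ℂ => (⟨p.re - w.re / dt a b c d * (b.re - a.re) +
          w.im / dt a b c d * (d.re - c.re),
        p.im - w.re / dt a b c d * (b.im - a.im) + w.im / dt a b c d * (d.im - c.im)⟩ : ℂ)) =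
        fun w => ((p.re - w.re / dt a b c d * (b.re - a.re) +
          w.im / dt a b c d * (d.re - c.re) : ℝ) : ℂ) +
        ((p.im - w.re / dt a b c d * (b.im - a.im) + w.im / dt a b c d * (d.im - c.im) : ℝ) : ℂ) * I
        := by
      funext z
      apply Complex.ext <;> simp
    rw [this]
    fun_prop

theorem proper_chords {a b c d p : ℂ} (ha : ‖a‖ = 1) (hb : ‖b‖ = 1) (hab : a ≠ b) (hc : ‖c‖ = 1)
    (hd : ‖d‖ = 1) (hcd : c ≠ d) (hne : s(a, b) ≠ s(c, d)) (hp : ‖p‖ < 1)
    (h1 : p ∈ segment ℝ a b) (h2 : p ∈ segment ℝ c d) :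
    ProperCrossing (segment ℝ a b) (segment ℝ c d) p := by
  rw [mem_seg_iff ha hb hab hp] at h1
  rw [mem_seg_iff hc hd hcd hp] at h2
  have hD := dt_ne_zero ha hb hab hc hd hcd h1 h2 hne
  refine ⟨(crossHomeo a b c d p h1 h2 hD).toOpenPartialHomeomorph.restrOpen (ball 0 1)
    isOpen_ball, ?_, ?_, ?_⟩
  · simpa using hp
  · change (⟨lf c d p, lf a b p⟩ : ℂ) = 0
    rw [h1, h2]
    rfl
  · intro z hz
    have hz' : ‖z‖ < 1 := by simpa using hz
    rw [mem_seg_iff ha hb hab hz', mem_seg_iff hc hd hcd hz']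
    exact ⟨Iff.rfl, Iff.rfl⟩

/-- Two chords have at most one common point inside the circle. -/
theorem chords_unique {a b c d p q : ℂ} (ha : ‖a‖ = 1) (hb : ‖b‖ = 1) (hab : a ≠ b) (hc : ‖c‖ = 1)
    (hd : ‖d‖ = 1) (hcd : c ≠ d) (hne : s(a, b) ≠ s(c, d)) (h1 : lf a b p = 0) (h2 : lf c d p = 0)
    (h3 : lf a b q = 0) (h4 : lf c d q = 0) : p = q := by
  have hD := dt_ne_zero ha hb hab hc hd hcd h1 h2 hne
  apply (crossHomeo a b c d p h1 h2 hD).injective
  change (⟨lf c d p, lf a b p⟩ : ℂ) = ⟨lf c d q, lf a b q⟩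
  rw [h1, h2, h3, h4]

end Pool.Agent.Run7.h13
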