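import Pool.Agent.Run7.h13.Chord

/-!
# When do two edges of a simple circular layout cross?
-/

namespace Pool.Agent.Run7.h13

open Set Complex ComplexConjugate Metric

theorem dif_outer_ne {γ δ : ℝ → ℂ} (hγ : DArc γ) (hδ : DArc δ)
    (n00 : γ 0 ≠ δ 0) (n01 : γ 0 ≠ δ 1) (n10 : γ 1 ≠ δ 0) (n11 : γ 1 ≠ δ 1) (θ : ℝ) :
    dif γ δ (cen + ex θ) ≠ 0 := by
  unfold dif
  rw [sub_ne_zero]
  rcases outer_cases θ with h | h | h | h
  · rw [clip_of_nonpos h]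
    exact (hδ.ne_of_norm (clip_mem _) hγ.norm0 n00.symm n01.symm).symm
  · rw [clip_of_one_le h]
    exact (hδ.ne_of_norm (clip_mem _) hγ.norm1 n10.symm n11.symm).symm
  · rw [clip_of_nonpos h]
    exact hγ.ne_of_norm (clip_mem _) hδ.norm0 n00 n10
  · rw [clip_of_one_le h]
    exact hγ.ne_of_norm (clip_mem _) hδ.norm1 n01 n11

open Classical in
theorem par_meet {γ δ : ℝ → ℂ} (hγ : DArc γ) (hδ : DArc δ)
    (n00 : γ 0 ≠ δ 0) (n01 : γ 0 ≠ δ 1) (n10 : γ 1 ≠ δ 0) (n11 : γ 1 ≠ δ 1)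
    (huniq : ∀ s ∈ Icc (0 : ℝ) 1, ∀ t ∈ Icc (0 : ℝ) 1, ∀ s' ∈ Icc (0 : ℝ) 1,
      ∀ t' ∈ Icc (0 : ℝ) 1, γ s = δ t → γ s' = δ t' → s' = s ∧ t' = t)
    (hp : ∀ s ∈ Icc (0 : ℝ) 1, ∀ t ∈ Icc (0 : ℝ) 1, γ s = δ t → ‖γ s‖ < 1 →
      ProperCrossing (γ '' Icc 0 1) (δ '' Icc 0 1) (γ s)) :
    Par (fun θ => dif γ δ (cen + ex θ))
      (decide (∃ s ∈ Icc (0 : ℝ) 1, ∃ t ∈ Icc (0 : ℝ) 1, γ s = δ t)) := by
  by_cases h : ∃ s ∈ Icc (0 : ℝ) 1, ∃ t ∈ Icc (0 : ℝ) 1, γ s = δ t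
  · rw [decide_eq_true h]
    obtain ⟨s, hs, t, ht, hst⟩ := h
    have hs' : s ∈ Ioo (0 : ℝ) 1 := by
      refine ⟨lt_of_le_of_ne hs.1 ?_, lt_of_le_of_ne hs.2 ?_⟩
      · rintro rfl
        exact hδ.ne_of_norm ht hγ.norm0 n00.symm n01.symm hst.symm
      · rintro rfl
        exact hδ.ne_of_norm ht hγ.norm1 n10.symm n11.symm hst.symm
    have ht' : t ∈ Ioo (0 : ℝ) 1 := by
      refine ⟨lt_of_le_of_ne ht.1 ?_, lt_of_le_of_ne ht.2 ?_⟩
      · rintro rfl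
        exact hγ.ne_of_norm hs hδ.norm0 n00 n10 hst
      · rintro rfl
        exact hγ.ne_of_norm hs hδ.norm1 n01 n11 hst
    exact par_crossing hγ hδ hs' ht' hst (fun s' hs' t' ht' h => huniq s hs t ht s' hs' t' ht' hst h)
      (hp s hs t ht hst (hγ.inner s hs'))
  · rw [decide_eq_false h]
    push Not at h
    exact par_disjoint hγ hδ h

/-- Arcs meet iff the corresponding chords meet. -/
theorem meet_iff_chords {γ δ : ℝ → ℂ} (hγ : DArc γ) (hδ : DArc δ)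
    (nγ : γ 0 ≠ γ 1) (nδ : δ 0 ≠ δ 1)
    (n00 : γ 0 ≠ δ 0) (n01 : γ 0 ≠ δ 1) (n10 : γ 1 ≠ δ 0) (n11 : γ 1 ≠ δ 1)
    (huniq : ∀ s ∈ Icc (0 : ℝ) 1, ∀ t ∈ Icc (0 : ℝ) 1, ∀ s' ∈ Icc (0 : ℝ) 1,
      ∀ t' ∈ Icc (0 : ℝ) 1, γ s = δ t → γ s' = δ t' → s' = s ∧ t' = t)
    (hp : ∀ s ∈ Icc (0 : ℝ) 1, ∀ t ∈ Icc (0 : ℝ) 1, γ s = δ t → ‖γ s‖ < 1 →
      ProperCrossing (γ '' Icc 0 1) (δ '' Icc 0 1) (γ s)) :
    (∃ s ∈ Icc (0 : ℝ) 1, ∃ t ∈ Icc (0 : ℝ) 1, γ s = δ t) ↔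
      ∃ s ∈ Icc (0 : ℝ) 1, ∃ t ∈ Icc (0 : ℝ) 1, ch (γ 0) (γ 1) s = ch (δ 0) (δ 1) t := by
  classical
  have hγ' := dArc_ch hγ.norm0 hγ.norm1 nγ
  have hδ' := dArc_ch hδ.norm0 hδ.norm1 nδ
  have hne : s(γ 0, γ 1) ≠ s(δ 0, δ 1) := by
    rw [Ne, Sym2.eq_iff]
    rintro (⟨h, -⟩ | ⟨h, -⟩)
    · exact n00 h
    · exact n01 h
  have h1 := par_meet hγ hδ n00 n01 n10 n11 huniq hp
  have h2 := par_meet hγ' hδ' (by rwa [ch_zero, ch_zero]) (by rwa [ch_zero, ch_one])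
    (by rwa [ch_one, ch_zero]) (by rwa [ch_one, ch_one]) (by
      intro s hs t ht s' hs' t' ht' h h'
      have hp := chords_unique hγ.norm0 hγ.norm1 nγ hδ.norm0 hδ.norm1 nδ hne
        (lf_self_ch _ _ s) (by rw [h]; exact lf_self_ch _ _ t) (lf_self_ch _ _ s')
        (by rw [h']; exact lf_self_ch _ _ t')
      refine ⟨(ch_injective nγ hp).symm, ?_⟩
      rw [h, h'] at hp
      exact (ch_injective nδ hp).symm) (by
      intro s hs t ht h hn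
      rw [ch_image, ch_image]
      refine proper_chords hγ.norm0 hγ.norm1 nγ hδ.norm0 hδ.norm1 nδ hne hn ?_ ?_
      · rw [← ch_image]; exact ⟨s, hs, rfl⟩
      · rw [← ch_image, h]; exact ⟨t, ht, rfl⟩)
  have h3 := par_outer hγ hγ' hδ hδ' (ch_zero _ _).symm (ch_one _ _).symm (ch_zero _ _).symm
    (ch_one _ _).symm n00 n01 n10 n11 h1
  have h4 := par_unique (dif_outer_ne hγ' hδ' (by rwa [ch_zero, ch_zero]) (by rwa [ch_zero, ch_one])
    (by rwa [ch_one, ch_zero]) (by rwa [ch_one, ch_one])) h3 h2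
  exact decide_eq_decide.1 h4

/-- The criterion for chords. -/
theorem chords_meet_iff {a b c d : ℂ} (ha : ‖a‖ = 1) (hb : ‖b‖ = 1) (hab : a ≠ b) (hc : ‖c‖ = 1)
    (hd : ‖d‖ = 1) (hcd : c ≠ d) (hac : a ≠ c) (had : a ≠ d) (hbc : b ≠ c) (hbd : b ≠ d) :
    (∃ s ∈ Icc (0 : ℝ) 1, ∃ t ∈ Icc (0 : ℝ) 1, ch a b s = ch c d t) ↔
      lf a b c * lf a b d < 0 := by
  have hc0 : lf a b c ≠ 0 := fun h => by
    rcases on_circle ha hb hab hc h with h1 | h1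
    · exact hac h1.symm
    · exact hbc h1.symm
  have hd0 : lf a b d ≠ 0 := fun h => by
    rcases on_circle ha hb hab hd h with h1 | h1
    · exact had h1.symm
    · exact hbd h1.symm
  constructor
  · rintro ⟨s, hs, t, ht, h⟩
    have h1 := lf_self_ch a b s
    rw [h, lf_ch] at h1
    have ht0 : 0 < t := by
      refine lt_of_le_of_ne ht.1 ?_
      rintro rfl
      apply hc0
      linarith
    have ht1 : t < 1 := by
      refine lt_of_le_of_ne ht.2 ?_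
      rintro rfl
      apply hd0
      linarith
    have h2 : lf a b c = -(t / (1 - t)) * lf a b d := by
      have : 1 - t ≠ 0 := by linarith
      field_simp
      linarith
    rw [h2]
    have h3 : 0 < t / (1 - t) := div_pos ht0 (by linarith)
    have h4 : 0 < lf a b d * lf a b d := mul_self_pos.2 hd0
    nlinarith [mul_pos h3 h4]
  · intro h
    set x := lf a b c with hx
    set y := lf a b d with hy
    have hxy : x - y ≠ 0 := by
      intro h1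
      have : x = y := by linarith
      rw [this] at h
      nlinarith [mul_self_nonneg y]
    have ht : x / (x - y) ∈ Ioo (0 : ℝ) 1 := by
      rcases lt_or_gt_of_ne hc0 with h1 | h1
      · have h2 : 0 < y := by
          by_contra hc
          nlinarith
        constructor
        · exact div_pos_of_neg_of_neg h1 (by linarith)
        · rw [div_lt_one_of_neg (by linarith)]
          linarith
      · have h2 : y < 0 := by
          by_contra hc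
          nlinarith
        constructor
        · exact div_pos h1 (by linarith)
        · rw [div_lt_one (by linarith)]
          linarith
    have hn := ch_norm_lt hc hd hcd ht
    have hl : lf a b (ch c d (x / (x - y))) = 0 := by
      rw [lf_ch, ← hx, ← hy]
      field_simp
      ring
    have hm := (mem_seg_iff ha hb hab hn).2 hl
    rw [← ch_image] at hm
    obtain ⟨s, hs, hs'⟩ := hm
    exact ⟨s, hs, _, Ioo_subset_Icc_self ht, hs'⟩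

/-- The real coordinate of the point `z` of the unit circle in which `ω` is the point at infinity. -/
noncomputable def key (ω z : ℂ) : ℝ :=
  (z.re * ω.im - z.im * ω.re) / (1 - (z.re * ω.re + z.im * ω.im))

theorem key_denom {ω z : ℂ} (hω : ‖ω‖ = 1) (hz : ‖z‖ = 1) (hne : z ≠ ω) :
    0 < 1 - (z.re * ω.re + z.im * ω.im) := by
  have := re_mul_conj_lt hz.le hω hne
  simp only [Complex.mul_re, Complex.conj_re, Complex.conj_im] at this
  linarith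

theorem lf_eq_key {ω x z : ℂ} (hω : ‖ω‖ = 1) (hx : ‖x‖ = 1) (hz : ‖z‖ = 1) (hxω : x ≠ ω)
    (hzω : z ≠ ω) : lf ω x z = (1 - (z.re * ω.re + z.im * ω.im)) *
      (1 - (x.re * ω.re + x.im * ω.im)) * (key ω z - key ω x) := by
  have h1 := (key_denom hω hz hzω).ne'
  have h2 := (key_denom hω hx hxω).ne'
  rw [norm_eq_one_iff'] at hω
  have h3 : (1 - (z.re * ω.re + z.im * ω.im)) * (1 - (x.re * ω.re + x.im * ω.im)) *
      (key ω z - key ω x) = (z.re * ω.im - z.im * ω.re) * (1 - (x.re * ω.re + x.im * ω.im)) -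
      (x.re * ω.im - x.im * ω.re) * (1 - (z.re * ω.re + z.im * ω.im)) := by
    have kz : (1 - (z.re * ω.re + z.im * ω.im)) * key ω z = z.re * ω.im - z.im * ω.re := by
      unfold key
      exact mul_div_cancel₀ _ h1
    have kx : (1 - (x.re * ω.re + x.im * ω.im)) * key ω x = x.re * ω.im - x.im * ω.re := by
      unfold key
      exact mul_div_cancel₀ _ h2
    linear_combination (1 - (x.re * ω.re + x.im * ω.im)) * kz -
      (1 - (z.re * ω.re + z.im * ω.im)) * kx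
  rw [h3]
  unfold lf
  linear_combination (z.re * x.im - z.im * x.re) * hω

theorem key_injOn {ω x z : ℂ} (hω : ‖ω‖ = 1) (hx : ‖x‖ = 1) (hz : ‖z‖ = 1) (hxω : x ≠ ω)
    (hzω : z ≠ ω) (h : key ω z = key ω x) : z = x := by
  have h1 := lf_eq_key hω hx hz hxω hzω
  rw [h, sub_self, mul_zero] at h1
  exact (on_circle hω hx hxω.symm hz h1).resolve_left hzω

variable {V : Type} {G : SimpleGraph V} (Γ : CircularLayout G)

/-- the parametrisation of an edge -/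
theorem CircularLayout.exists_dArc {u v : V} (h : G.Adj u v) : ∃ γ, DArc γ ∧ γ 0 = Γ.pos u ∧
    γ 1 = Γ.pos v ∧ γ '' Icc 0 1 = Γ.arc s(u, v) := by
  obtain ⟨γ, h1, h2, h3, h4, h5, h6⟩ := Γ.isDiskArc u v h
  exact ⟨γ, ⟨h1, h2, h5, by rw [h3, Γ.norm_pos], by rw [h4, Γ.norm_pos]⟩, h3, h4, h6⟩

/-- In a simple circular layout the edges `u x` and `a b` (with four different end points) meet iff
`x` lies between `a` and `b` in the linear order seen from `u`. -/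
theorem CircularLayout.meet_iff (hΓ : Γ.IsSimple) {u x a b : V} (hux : G.Adj u x) (hab : G.Adj a b)
    (hua : u ≠ a) (hub : u ≠ b) (hxa : x ≠ a) (hxb : x ≠ b) :
    (Γ.arc s(u, x) ∩ Γ.arc s(a, b)).Nonempty ↔
      (key (Γ.pos u) (Γ.pos a) - key (Γ.pos u) (Γ.pos x)) *
      (key (Γ.pos u) (Γ.pos b) - key (Γ.pos u) (Γ.pos x)) < 0 := by
  obtain ⟨γ, hγ, hγ0, hγ1, hγi⟩ := Γ.exists_dArc hux
  obtain ⟨δ, hδ, hδ0, hδ1, hδi⟩ := Γ.exists_dArc hab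
  have hpi := Γ.pos_injective
  have hne : s(u, x) ≠ s(a, b) := by
    rw [Ne, Sym2.eq_iff]
    rintro (⟨h, -⟩ | ⟨h, -⟩)
    · exact hua h
    · exact hub h
  have hsub := hΓ _ ((SimpleGraph.mem_edgeSet G).2 hux) _ ((SimpleGraph.mem_edgeSet G).2 hab) hne
  have h1 : (Γ.arc s(u, x) ∩ Γ.arc s(a, b)).Nonempty ↔
      ∃ s ∈ Icc (0 : ℝ) 1, ∃ t ∈ Icc (0 : ℝ) 1, γ s = δ t := by
    rw [← hγi, ← hδi]
    constructor
    · rintro ⟨p, ⟨s, hs, hs'⟩, t, ht, ht'⟩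
      exact ⟨s, hs, t, ht, hs'.trans ht'.symm⟩
    · rintro ⟨s, hs, t, ht, h⟩
      exact ⟨γ s, ⟨s, hs, rfl⟩, t, ht, h.symm⟩
  have hm1 : ∀ s ∈ Icc (0 : ℝ) 1, γ s ∈ Γ.arc s(u, x) := fun s hs => hγi ▸ ⟨s, hs, rfl⟩
  have hm2 : ∀ s ∈ Icc (0 : ℝ) 1, δ s ∈ Γ.arc s(a, b) := fun s hs => hδi ▸ ⟨s, hs, rfl⟩
  have n00 : Γ.pos u ≠ Γ.pos a := fun h => hua (hpi h)
  have n01 : Γ.pos u ≠ Γ.pos b := fun h => hub (hpi h)
  have n10 : Γ.pos x ≠ Γ.pos a := fun h => hxa (hpi h)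
  have n11 : Γ.pos x ≠ Γ.pos b := fun h => hxb (hpi h)
  have nγ : Γ.pos u ≠ Γ.pos x := fun h => hux.ne (hpi h)
  have nδ : Γ.pos a ≠ Γ.pos b := fun h => hab.ne (hpi h)
  have h2 := meet_iff_chords hγ hδ (by rwa [hγ0, hγ1]) (by rwa [hδ0, hδ1]) (by rwa [hγ0, hδ0])
    (by rwa [hγ0, hδ1]) (by rwa [hγ1, hδ0]) (by rwa [hγ1, hδ1]) (by
      intro s hs t ht s' hs' t' ht' h h'
      have e1 : γ s ∈ Γ.arc s(u, x) ∩ Γ.arc s(a, b) := ⟨hm1 s hs, h ▸ hm2 t ht⟩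
      have e2 : γ s' ∈ Γ.arc s(u, x) ∩ Γ.arc s(a, b) := ⟨hm1 s' hs', h' ▸ hm2 t' ht'⟩
      have e3 := hsub e1 e2
      refine ⟨hγ.inj hs' hs e3.symm, hδ.inj ht' ht ?_⟩
      rw [← h, ← h', e3]) (by
      intro s hs t ht h hn
      rw [hγi, hδi]
      exact Γ.proper _ ((SimpleGraph.mem_edgeSet G).2 hux) _ ((SimpleGraph.mem_edgeSet G).2 hab)
        hne _ ⟨hm1 s hs, h ▸ hm2 t ht⟩ hn)
  rw [h1, h2, hγ0, hγ1, hδ0, hδ1, chords_meet_iff (Γ.norm_pos u) (Γ.norm_pos x) nγ (Γ.norm_pos a)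
    (Γ.norm_pos b) nδ n00 n01 n10 n11,
    lf_eq_key (Γ.norm_pos u) (Γ.norm_pos x) (Γ.norm_pos a) nγ.symm n00.symm,
    lf_eq_key (Γ.norm_pos u) (Γ.norm_pos x) (Γ.norm_pos b) nγ.symm n01.symm]
  have k1 := key_denom (Γ.norm_pos u) (Γ.norm_pos a) n00.symm
  have k2 := key_denom (Γ.norm_pos u) (Γ.norm_pos b) n01.symm
  have k3 := key_denom (Γ.norm_pos u) (Γ.norm_pos x) nγ.symm
  generalize 1 - ((Γ.pos a).re * (Γ.pos u).re + (Γ.pos a).im * (Γ.pos u).im) = A at *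
  generalize 1 - ((Γ.pos b).re * (Γ.pos u).re + (Γ.pos b).im * (Γ.pos u).im) = B at *
  generalize 1 - ((Γ.pos x).re * (Γ.pos u).re + (Γ.pos x).im * (Γ.pos u).im) = X at *
  generalize key (Γ.pos u) (Γ.pos a) - key (Γ.pos u) (Γ.pos x) = p
  generalize key (Γ.pos u) (Γ.pos b) - key (Γ.pos u) (Γ.pos x) = q
  have h3 : A * X * p * (B * X * q) = (A * X * (B * X)) * (p * q) := by ring
  have h4 : 0 < A * X * (B * X) := by positivity
  rw [h3]
  constructor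
  · intro h5
    by_contra hc
    have := mul_nonneg h4.le (not_lt.1 hc)
    linarith
  · intro h5
    exact mul_neg_of_pos_of_neg h4 h5

/-- Inside the circle two edges with a common end point do not meet in a simple layout. -/
theorem CircularLayout.not_meet (hΓ : Γ.IsSimple) {u a b : V} (ha : G.Adj u a) (hb : G.Adj u b)
    (hab : a ≠ b) {p : ℂ} (hp : ‖p‖ < 1) : ¬ (p ∈ Γ.arc s(u, a) ∧ p ∈ Γ.arc s(u, b)) := by
  rintro ⟨h1, h2⟩
  have hne : s(u, a) ≠ s(u, b) := by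
    rw [Ne, Sym2.eq_iff]
    rintro (⟨-, h⟩ | ⟨h, h'⟩)
    · exact hab h
    · exact hab (h'.trans h)
  have hsub := hΓ _ ((SimpleGraph.mem_edgeSet G).2 ha) _ ((SimpleGraph.mem_edgeSet G).2 hb) hne
  obtain ⟨γ, hγ, hγ0, hγ1, hγi⟩ := Γ.exists_dArc ha
  obtain ⟨δ, hδ, hδ0, hδ1, hδi⟩ := Γ.exists_dArc hb
  have e1 : Γ.pos u ∈ Γ.arc s(u, a) ∩ Γ.arc s(u, b) :=
    ⟨hγi ▸ ⟨0, by simp, hγ0⟩, hδi ▸ ⟨0, by simp, hδ0⟩⟩
  have e2 := hsub e1 ⟨h1, h2⟩
  rw [← e2, Γ.norm_pos] at hp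
  exact lt_irrefl _ hp

end Pool.Agent.Run7.h13
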