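import Pool.Agent.NPC.Defs
import Pool.Agent.H679R2.Oct.Defs

/-!
# Circular layouts and the circular bundled crossing number

The circle `C` is the unit circle of the complex plane.
-/

namespace Pool.Agent.Run7.h13

open Set

/-- `A` is (the image of) a Jordan arc which joins the points `p` and `q` inside the closed unit
disk and meets the unit circle only at its end points. -/
def IsDiskArc (A : Set ℂ) (p q : ℂ) : Prop :=
  ∃ γ : ℝ → ℂ, ContinuousOn γ (Icc 0 1) ∧ InjOn γ (Icc 0 1) ∧ γ 0 = p ∧ γ 1 = q ∧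
    (∀ t ∈ Ioo (0 : ℝ) 1, ‖γ t‖ < 1) ∧ γ '' Icc 0 1 = A

/-- The sets `A` and `B` cross properly (transversally) at the point `p`: some homeomorphism from an
open neighbourhood of `p` onto an open set of the plane takes `p` to the origin, `A` to the
horizontal axis and `B` to the vertical axis. -/
def ProperCrossing (A B : Set ℂ) (p : ℂ) : Prop :=
  ∃ h : OpenPartialHomeomorph ℂ ℂ, p ∈ h.source ∧ h p = 0 ∧
    ∀ z ∈ h.source, (z ∈ A ↔ (h z).im = 0) ∧ (z ∈ B ↔ (h z).re = 0)

/-- A circular layout of the graph `G`: the vertices are distinct points of the unit circle, every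
edge is a Jordan arc which joins its end points inside the closed disk and meets the circle only
there; two edges meet in finitely many points, and every meeting point of two edges inside the
circle is a proper crossing of exactly two edges. -/
structure CircularLayout {V : Type} (G : SimpleGraph V) where
  /-- the points of the circle at which the vertices are placed -/
  pos : V → ℂ
  /-- the arcs by which the edges are drawn -/
  arc : Sym2 V → Set ℂ
  norm_pos : ∀ v, ‖pos v‖ = 1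
  pos_injective : Function.Injective pos
  isDiskArc : ∀ u v, G.Adj u v → IsDiskArc (arc s(u, v)) (pos u) (pos v)
  finite_inter : ∀ e ∈ G.edgeSet, ∀ f ∈ G.edgeSet, e ≠ f → (arc e ∩ arc f).Finite
  proper : ∀ e ∈ G.edgeSet, ∀ f ∈ G.edgeSet, e ≠ f → ∀ p ∈ arc e ∩ arc f, ‖p‖ < 1 →
    ProperCrossing (arc e) (arc f) p
  two : ∀ e ∈ G.edgeSet, ∀ f ∈ G.edgeSet, e ≠ f → ∀ p ∈ arc e ∩ arc f, ‖p‖ < 1 →
    ∀ g ∈ G.edgeSet, p ∈ arc g → g = e ∨ g = f

namespace CircularLayout

variable {V : Type} {G : SimpleGraph V} (Γ : CircularLayout G)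

/-- The layout is simple: no two edges intersect more than once (and no edge crosses itself,
the arcs being Jordan arcs). -/
def IsSimple : Prop :=
  ∀ e ∈ G.edgeSet, ∀ f ∈ G.edgeSet, e ≠ f → (Γ.arc e ∩ Γ.arc f).Subsingleton

/-- The crossings of the layout: the meeting points of two different edges inside the circle. -/
def crossings : Set ℂ :=
  {p | ‖p‖ < 1 ∧ ∃ e ∈ G.edgeSet, ∃ f ∈ G.edgeSet, e ≠ f ∧ p ∈ Γ.arc e ∧ p ∈ Γ.arc f}

/-- The set `X` is a bundled crossing of the layout: there is a closed topological disk inside the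
circle, the homeomorphic image under `ψ` of the unit square, in which the drawing consists of the
images of finitely many vertical segments `{s} × [0,1]`, `s ∈ S` (the sub-arcs `a_i`), and of
finitely many horizontal segments `[0,1] × {t}`, `t ∈ T` (the sub-arcs `b_j`), with at least one
segment of each kind, each of these sub-arcs being part of an edge, a sub-arc `a_i` and a sub-arc
`b_j` being parts of different edges; and `X` is the set of the crossings of the sub-arcs `a_i` with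
the sub-arcs `b_j`. -/
def IsBundledCrossing (X : Set ℂ) : Prop :=
  ∃ (S T : Finset ℝ) (ψ : ℝ × ℝ → ℂ) (a b : ℝ → Sym2 V),
    S.Nonempty ∧ T.Nonempty ∧ (∀ s ∈ S, s ∈ Ioo (0 : ℝ) 1) ∧ (∀ t ∈ T, t ∈ Ioo (0 : ℝ) 1) ∧
    ContinuousOn ψ (Icc 0 1 ×ˢ Icc 0 1) ∧ InjOn ψ (Icc 0 1 ×ˢ Icc 0 1) ∧
    (∀ x ∈ (Icc 0 1 ×ˢ Icc 0 1 : Set (ℝ × ℝ)), ‖ψ x‖ < 1) ∧
    (∀ s ∈ S, a s ∈ G.edgeSet ∧ ∀ y ∈ Icc (0 : ℝ) 1, ψ (s, y) ∈ Γ.arc (a s)) ∧
    (∀ t ∈ T, b t ∈ G.edgeSet ∧ ∀ x ∈ Icc (0 : ℝ) 1, ψ (x, t) ∈ Γ.arc (b t)) ∧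
    (∀ s ∈ S, ∀ t ∈ T, a s ≠ b t) ∧
    (∀ x ∈ (Icc 0 1 ×ˢ Icc 0 1 : Set (ℝ × ℝ)), (∃ e ∈ G.edgeSet, ψ x ∈ Γ.arc e) →
      x.1 ∈ S ∨ x.2 ∈ T) ∧
    X = ψ '' {x | x.1 ∈ S ∧ x.2 ∈ T}

/-- `P` is a bundling of the layout: a partition of the set of all crossings into bundled
crossings. -/
def IsBundling (P : Finset (Set ℂ)) : Prop :=
  (∀ X ∈ P, Γ.IsBundledCrossing X) ∧ (∀ X ∈ P, ∀ Y ∈ P, X ≠ Y → Disjoint X Y) ∧
    ⋃₀ (P : Set (Set ℂ)) = Γ.crossings

end CircularLayout

/-- The circular bundled crossing number `bc°(G)`: the minimum number of parts of a bundling, over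
all simple circular layouts of `G` and all their bundlings. -/
noncomputable def bundledCrossingNumber {V : Type} (G : SimpleGraph V) : ℕ∞ :=
  ⨅ (Γ : CircularLayout G) (P : Finset (Set ℂ)) (_ : Γ.IsSimple ∧ Γ.IsBundling P), (P.card : ℕ∞)

/-- **Problem BC**: given a graph `G` (presented by the list of its vertices and the list of its
edges) and a natural number `k`, is `bc°(G) ≤ k`? -/
def BC (x : (List ℕ × List (ℕ × ℕ)) × ℕ) : Prop :=
  bundledCrossingNumber (H679R2.toGraph x.1) ≤ x.2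

theorem bundledCrossingNumber_le_iff {V : Type} (G : SimpleGraph V) (k : ℕ) :
    bundledCrossingNumber G ≤ k ↔ ∃ (Γ : CircularLayout G) (P : Finset (Set ℂ)),
      Γ.IsSimple ∧ Γ.IsBundling P ∧ P.card ≤ k := by
  constructor
  · intro h
    by_contra hc
    push Not at hc
    have h1 : ((k + 1 : ℕ) : ℕ∞) ≤ bundledCrossingNumber G := by
      refine le_iInf fun Γ => le_iInf fun P => le_iInf fun hP => ?_
      exact_mod_cast hc Γ P hP.1 hP.2
    have h2 : ((k + 1 : ℕ) : ℕ∞) ≤ (k : ℕ∞) := h1.trans h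
    have h3 : k + 1 ≤ k := by exact_mod_cast h2
    omega
  · rintro ⟨Γ, P, h1, h2, h3⟩
    exact (iInf_le_of_le Γ (iInf_le_of_le P (iInf_le _ ⟨h1, h2⟩))).trans (by exact_mod_cast h3)

end Pool.Agent.Run7.h13
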