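import Pool.Agent.Run7.h13.Chord

/-!
# Projective coordinates of the disk

The open unit disk is described by coordinates `x`, `y` with `x ^ 2 < y`, in which the chords from
the point `-1` are the vertical lines, and the chord from `P a` to `P b` is the line
`y = (a + b) x - a b`.
-/

namespace Pool.Agent.Run7.h13

open Set Complex

/-- The point of the circle with parameter `x`. -/
noncomputable def P (x : ℝ) : ℂ := ⟨(1 - x ^ 2) / (1 + x ^ 2), 2 * x / (1 + x ^ 2)⟩

theorem norm_P (x : ℝ) : ‖P x‖ = 1 := by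
  rw [norm_eq_one_iff']
  have : (1 + x ^ 2) ≠ 0 := by positivity
  simp only [P]
  field_simp
  ring

theorem P_re_add (x : ℝ) : 1 + (P x).re = 2 / (1 + x ^ 2) := by
  have : (1 + x ^ 2) ≠ 0 := by positivity
  simp only [P]
  field_simp
  ring

theorem P_ne (x : ℝ) : P x ≠ -1 := by
  intro h
  have h1 := P_re_add x
  rw [h] at h1
  have h2 : 0 < 2 / (1 + x ^ 2) := by positivity
  rw [← h1] at h2
  simp at h2

theorem P_injective : Function.Injective P := by
  intro x y h
  have h1 := P_re_add x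
  have h2 := P_re_add y
  rw [h, h2] at h1
  have hx : 0 < 1 + x ^ 2 := by positivity
  have hy : 0 < 1 + y ^ 2 := by positivity
  have h3 : 1 + x ^ 2 = 1 + y ^ 2 := by
    rw [div_eq_div_iff hy.ne' hx.ne'] at h1
    linarith
  have h4 : (P x).im = (P y).im := by rw [h]
  simp only [P] at h4
  rw [h3, div_left_inj' hy.ne'] at h4
  linarith

/-- The point of the disk with the coordinates `x` and `y`. -/
noncomputable def Zc (x y : ℝ) : ℂ := ⟨(1 - y) / (1 + y), 2 * x / (1 + y)⟩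

theorem y_pos {x y : ℝ} (h : x ^ 2 < y) : 0 < 1 + y := by
  have := sq_nonneg x
  linarith

theorem norm_Zc {x y : ℝ} (h : x ^ 2 < y) : ‖Zc x y‖ < 1 := by
  have hy := y_pos h
  rw [norm_lt_one_iff']
  simp only [Zc]
  rw [div_mul_div_comm, div_mul_div_comm, ← add_div, div_lt_one (by positivity)]
  nlinarith

theorem Zc_re_add {x y : ℝ} (h : x ^ 2 < y) : 1 + (Zc x y).re = 2 / (1 + y) := by
  have := (y_pos h).ne'
  simp only [Zc]
  field_simp
  ring

theorem Zc_inj {x y x' y' : ℝ} (h : x ^ 2 < y) (h' : x' ^ 2 < y') (he : Zc x y = Zc x' y') :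
    x = x' ∧ y = y' := by
  have hy := y_pos h
  have hy' := y_pos h'
  have h1 := Zc_re_add h
  have h2 := Zc_re_add h'
  rw [he, h2] at h1
  have h3 : y = y' := by
    rw [div_eq_div_iff hy'.ne' hy.ne'] at h1
    linarith
  subst h3
  have h4 : (Zc x y).im = (Zc x' y).im := by rw [he]
  simp only [Zc] at h4
  rw [div_left_inj' hy.ne'] at h4
  exact ⟨by linarith, rfl⟩

theorem exists_Zc {z : ℂ} (hz : ‖z‖ < 1) : ∃ x y : ℝ, x ^ 2 < y ∧ z = Zc x y := by
  rw [norm_lt_one_iff'] at hz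
  have h1 : 0 < 1 + z.re := by nlinarith [mul_self_nonneg z.im]
  refine ⟨z.im / (1 + z.re), (1 - z.re) / (1 + z.re), ?_, ?_⟩
  · rw [div_pow, div_lt_div_iff₀ (by positivity) h1]
    nlinarith
  · have h2 : 1 + (1 - z.re) / (1 + z.re) = 2 / (1 + z.re) := by
      field_simp
      ring
    apply Complex.ext
    · simp only [Zc]
      rw [h2]
      field_simp
      ring
    · simp only [Zc]
      rw [h2]
      field_simp

theorem continuousOn_Zc : ContinuousOn (fun z : ℝ × ℝ => Zc z.1 z.2) {z | z.1 ^ 2 < z.2} := by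
  have : (fun z : ℝ × ℝ => Zc z.1 z.2) =
      fun z => (((1 - z.2) / (1 + z.2) : ℝ) : ℂ) + ((2 * z.1 / (1 + z.2) : ℝ) : ℂ) * I := by
    funext z
    apply Complex.ext
    · rw [Complex.add_re, Complex.re_ofReal_mul, Complex.ofReal_re, Complex.I_re, mul_zero, add_zero]
      rfl
    · rw [Complex.add_im, Complex.im_ofReal_mul, Complex.ofReal_im, Complex.I_im, mul_one, zero_add]
      rfl
  rw [this]
  refine ContinuousOn.add (Complex.continuous_ofReal.comp_continuousOn ?_)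
    (ContinuousOn.mul (Complex.continuous_ofReal.comp_continuousOn ?_) continuousOn_const)
  · refine ContinuousOn.div (by fun_prop) (by fun_prop) fun z hz => ?_
    exact (y_pos hz).ne'
  · refine ContinuousOn.div (by fun_prop) (by fun_prop) fun z hz => ?_
    exact (y_pos hz).ne'

theorem lf_P (a b x y : ℝ) (h : x ^ 2 < y) :
    lf (P a) (P b) (Zc x y) =
      4 * (b - a) / ((1 + a ^ 2) * (1 + b ^ 2) * (1 + y)) * (y - (a + b) * x + a * b) := by
  have hy := (y_pos h).ne'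
  have ha : (1 + a ^ 2) ≠ 0 := by positivity
  have hb : (1 + b ^ 2) ≠ 0 := by positivity
  simp only [lf, P, Zc]
  field_simp
  ring

theorem lf_one (m x y : ℝ) (h : x ^ 2 < y) :
    lf (-1) (P m) (Zc x y) = 4 / ((1 + m ^ 2) * (1 + y)) * (x - m) := by
  have hy := (y_pos h).ne'
  have ha : (1 + m ^ 2) ≠ 0 := by positivity
  simp only [lf, P, Zc, Complex.neg_re, Complex.neg_im, Complex.one_re, Complex.one_im]
  field_simp
  ring

theorem mem_chord_iff {a b x y : ℝ} (hab : a ≠ b) (h : x ^ 2 < y) :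
    Zc x y ∈ segment ℝ (P a) (P b) ↔ y = (a + b) * x - a * b := by
  have hy := y_pos h
  rw [mem_seg_iff (norm_P a) (norm_P b) (P_injective.ne hab) (norm_Zc h), lf_P a b x y h,
    mul_eq_zero]
  have h1 : 4 * (b - a) / ((1 + a ^ 2) * (1 + b ^ 2) * (1 + y)) ≠ 0 := by
    have : b - a ≠ 0 := sub_ne_zero.2 hab.symm
    positivity
  constructor
  · rintro (h2 | h2)
    · exact absurd h2 h1
    · linarith
  · intro h2
    right
    linarith

theorem mem_spoke_iff {m x y : ℝ} (h : x ^ 2 < y) :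
    Zc x y ∈ segment ℝ (-1) (P m) ↔ x = m := by
  have hy := y_pos h
  rw [mem_seg_iff (by simp) (norm_P m) (P_ne m).symm (norm_Zc h), lf_one m x y h,
    mul_eq_zero]
  have h1 : 4 / ((1 + m ^ 2) * (1 + y)) ≠ 0 := by
    positivity
  constructor
  · rintro (h2 | h2)
    · exact absurd h2 h1
    · linarith
  · intro h2
    right
    linarith

theorem four_pow_le {i k : ℕ} (h : i < k) : 4 * (4 : ℝ) ^ i ≤ 4 ^ k := by
  have h1 : (4 : ℝ) ^ (i + 1) ≤ 4 ^ k := pow_le_pow_right₀ (by norm_num) h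
  rw [pow_succ] at h1
  linarith

theorem four_pow_inj {i k : ℕ} (h : (4 : ℝ) ^ i = 4 ^ k) : i = k :=
  pow_right_injective₀ (by norm_num) (by norm_num) h

theorem four_pow_lt {i k : ℕ} (h : (4 : ℝ) ^ i < 4 ^ k) : i < k :=
  (pow_lt_pow_iff_right₀ (by norm_num)).1 h

theorem chord_bounds {i j : ℕ} (hij : i < j) {x y : ℝ} (h : x ^ 2 < y)
    (h1 : y = ((4 : ℝ) ^ i + 4 ^ j) * x - 4 ^ i * 4 ^ j) : (4 : ℝ) ^ i < x ∧ x < 4 ^ j := by
  have h2 := four_pow_le hij
  have h3 : (0 : ℝ) < 4 ^ i := by positivity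
  have h4 : 0 < (x - 4 ^ i) * (4 ^ j - x) := by nlinarith
  rcases pos_and_pos_or_neg_and_neg_of_mul_pos h4 with h5 | h5
  · exact ⟨by linarith [h5.1], by linarith [h5.2]⟩
  · exfalso
    linarith [h5.1, h5.2]

/-- Two crossing chords. -/
theorem chord_chord {i j k l : ℕ} (hij : i < j) (hkl : k < l) (hne : ¬ (i = k ∧ j = l))
    (hik : i ≤ k) {x y : ℝ} (h : x ^ 2 < y) (h1 : y = ((4 : ℝ) ^ i + 4 ^ j) * x - 4 ^ i * 4 ^ j)
    (h2 : y = ((4 : ℝ) ^ k + 4 ^ l) * x - 4 ^ k * 4 ^ l) :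
    i < k ∧ k < j ∧ j < l ∧ (4 : ℝ) ^ k < x ∧ 3 * x < 4 * 4 ^ k := by
  obtain ⟨h3, h4⟩ := chord_bounds hij h h1
  obtain ⟨h5, h6⟩ := chord_bounds hkl h h2
  have hi : (0 : ℝ) < 4 ^ i := by positivity
  have hk : (0 : ℝ) < 4 ^ k := by positivity
  have h7 : (x - 4 ^ i) * (4 ^ j - x) = (x - 4 ^ k) * (4 ^ l - x) := by linarith
  have hik' : i < k := by
    rcases hik.lt_or_eq with h8 | h8
    · exact h8
    · exfalso
      subst h8
      have h9 := mul_left_cancel₀ (by linarith : x - (4 : ℝ) ^ i ≠ 0) h7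
      exact hne ⟨rfl, four_pow_inj (by linarith)⟩
  have hik4 := four_pow_le hik'
  have hjl : j < l := by
    by_contra hc
    have h8 : (4 : ℝ) ^ l ≤ 4 ^ j := pow_le_pow_right₀ (by norm_num) (not_lt.1 hc)
    have h9 : (x - 4 ^ k) * (4 ^ l - x) < (x - 4 ^ i) * (4 ^ j - x) := by
      apply mul_lt_mul <;> linarith
    linarith
  have hjl4 := four_pow_le hjl
  refine ⟨hik', four_pow_lt (h5.trans h4), hjl, h5, ?_⟩
  have h8 : (x - 4 ^ i) * (4 ^ j - x) < x * ((4 ^ l - x) / 4) := by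
    apply mul_lt_mul'' <;> linarith
  rw [h7] at h8
  have h9 : (x - 4 ^ k) * (4 ^ l - x) < (x / 4) * (4 ^ l - x) := by linarith
  have h10 := lt_of_mul_lt_mul_right h9 (by linarith)
  linarith

/-- The abscissa of the crossing of two chords determines the larger left end. -/
theorem near_unique {k k' : ℕ} {x : ℝ} (h1 : (4 : ℝ) ^ k < x) (h2 : 3 * x < 4 * 4 ^ k)
    (h3 : (4 : ℝ) ^ k' < x) (h4 : 3 * x < 4 * 4 ^ k') : k = k' := by
  rcases lt_trichotomy k k' with h | h | h
  · have := four_pow_le h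
    have : (0 : ℝ) < 4 ^ k := by positivity
    linarith
  · exact h
  · have := four_pow_le h
    have : (0 : ℝ) < 4 ^ k' := by positivity
    linarith

theorem near_ne {k m : ℕ} {x : ℝ} (h1 : (4 : ℝ) ^ k < x) (h2 : 3 * x < 4 * 4 ^ k) :
    x ≠ 4 ^ m := by
  rintro rfl
  have h3 := four_pow_lt h1
  have h4 := four_pow_le h3
  have : (0 : ℝ) < 4 ^ k := by positivity
  linarith

end Pool.Agent.Run7.h13
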