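import Pool.Agent.Run7.h13.Perf
import Pool.Agent.H679R2.Oct.Sys

/-!
# The graph of a system of switches

Every terminal `v` is replaced by a triangle `(v,0), (v,1), (v,2)` with a pendant vertex `(v,3)` at
`(v,0)`.  The pendant vertices of `v` and `M v` are adjacent, but for one pair, and the ports
`(v,1)`, `(v,2)` join the triangles along the octagons and squares.
-/

namespace Pool.Agent.Run7.h13

open Pool.Agent.H679R2

variable {ι : Type}

/-- adjacency inside a gadget -/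
def loc (c c' : Fin 4) : Prop := c ≠ c' ∧ ((c ≠ 3 ∧ c' ≠ 3) ∨ (c = 0 ∧ c' = 3) ∨ (c = 3 ∧ c' = 0))

instance : DecidableRel loc := fun c c' => by unfold loc; infer_instance

theorem loc_symm : ∀ c c', loc c c' → loc c' c := by decide

theorem loc_irrefl : ∀ c, ¬ loc c c := by decide

theorem loc_of_ne : ∀ c c' : Fin 4, c ≠ 3 → c' ≠ 3 → c ≠ c' → loc c c' := by decide

/-- next terminal of the cluster -/
def N1 (v : ι × Fin 12) : ι × Fin 12 := (v.1, nb1 v.2)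
/-- previous terminal of the cluster -/
def N2 (v : ι × Fin 12) : ι × Fin 12 := (v.1, nb2 v.2)

theorem N1_N2 (v : ι × Fin 12) : N1 (N2 v) = v := by
  unfold N1 N2
  simp only [nb1_nb2]

theorem N2_N1 (v : ι × Fin 12) : N2 (N1 v) = v := by
  unfold N1 N2
  simp only [nb2_nb1]

theorem N1_ne (v : ι × Fin 12) : N1 v ≠ v := fun h => nb1_ne _ (congrArg Prod.snd h)

theorem N2_ne (v : ι × Fin 12) : N2 v ≠ v := fun h => nb2_ne _ (congrArg Prod.snd h)

theorem nb1_nb1 : ∀ t, nb1 (nb1 t) ≠ t := by decide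

theorem N1_N1 (v : ι × Fin 12) : N1 (N1 v) ≠ v := fun h => nb1_nb1 _ (congrArg Prod.snd h)

theorem N1_ne_N2 (v : ι × Fin 12) : N1 v ≠ N2 v := fun h => nb_ne _ (congrArg Prod.snd h)

/-- The graph of a system. -/
def HG (s : Sys ι) (p0 : ι × Fin 12) : SimpleGraph ((ι × Fin 12) × Fin 4) where
  Adj x y := (x.1 = y.1 ∧ loc x.2 y.2) ∨
    (x.2 = 3 ∧ y.2 = 3 ∧ y.1 = s.M x.1 ∧ x.1 ≠ p0 ∧ y.1 ≠ p0) ∨
    (x.2 = 1 ∧ y.2 = 2 ∧ y.1 = N1 x.1) ∨ (x.2 = 2 ∧ y.2 = 1 ∧ x.1 = N1 y.1)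
  symm := ⟨by
    rintro x y (⟨h1, h2⟩ | ⟨h1, h2, h3, h4, h5⟩ | ⟨h1, h2, h3⟩ | ⟨h1, h2, h3⟩)
    · exact Or.inl ⟨h1.symm, loc_symm _ _ h2⟩
    · exact Or.inr (Or.inl ⟨h2, h1, by rw [h3, s.M_invol], h5, h4⟩)
    · exact Or.inr (Or.inr (Or.inr ⟨h2, h1, h3⟩))
    · exact Or.inr (Or.inr (Or.inl ⟨h2, h1, h3⟩))⟩
  loopless := ⟨by
    rintro x (⟨h1, h2⟩ | ⟨h1, h2, h3, h4, h5⟩ | ⟨h1, h2, h3⟩ | ⟨h1, h2, h3⟩)
    · exact loc_irrefl _ h2
    · exact s.M_ne _ h3.symm
    · exact N1_ne _ h3.symm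
    · exact N1_ne _ h3.symm⟩

variable {s : Sys ι} {p0 : ι × Fin 12}

/-- The vertices of the triangles. -/
def TS (ι : Type) : Set ((ι × Fin 12) × Fin 4) := {x | x.2 ≠ 3}

theorem triStruct : TriStruct (HG s p0) (TS ι) Prod.fst where
  partners := by
    rintro ⟨v, c⟩ hc
    have key : ∀ c : Fin 4, c ≠ 3 → ∃ c₁ c₂ : Fin 4, c₁ ≠ 3 ∧ c₂ ≠ 3 ∧ c₁ ≠ c ∧ c₂ ≠ c ∧ c₁ ≠ c₂ := by
      decide
    obtain ⟨c₁, c₂, h1, h2, h3, h4, h5⟩ := key c hc
    exact ⟨(v, c₁), h1, (v, c₂), h2, fun h => h3 (congrArg Prod.snd h),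
      fun h => h4 (congrArg Prod.snd h), fun h => h5 (congrArg Prod.snd h), rfl, rfl⟩
  adj := by
    rintro ⟨v, c⟩ hc ⟨w, d⟩ hd hne hb
    simp only at hb
    subst hb
    exact Or.inl ⟨rfl, loc_of_ne _ _ hc hd fun h => hne (Prod.ext rfl h)⟩
  three := by
    rintro ⟨v, c⟩ hc ⟨v₁, c₁⟩ hc₁ ⟨v₂, c₂⟩ hc₂ ⟨w, d⟩ hd h1 h2 h3 hb1 hb2 hb3
    simp only at hb1 hb2 hb3
    subst hb1 hb2 hb3
    have key : ∀ c c₁ c₂ d : Fin 4, c ≠ 3 → c₁ ≠ 3 → c₂ ≠ 3 → d ≠ 3 → c₁ ≠ c → c₂ ≠ c → c₁ ≠ c₂ →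
        d = c ∨ d = c₁ ∨ d = c₂ := by decide
    rcases key c c₁ c₂ d hc hc₁ hc₂ hd (fun h => h1 (by rw [h])) (fun h => h2 (by rw [h]))
      (fun h => h3 (by rw [h])) with h | h | h
    · exact Or.inl (by rw [h])
    · exact Or.inr (Or.inl (by rw [h]))
    · exact Or.inr (Or.inr (by rw [h]))
  sep := by
    rintro ⟨v, c⟩ hc ⟨v', c'⟩ hc' ⟨w, d⟩ hd ⟨w', d'⟩ hd' h1 h2 h3 hA hA'
    simp only at h1 h2 h3
    subst h1 h2
    rcases hA with ⟨e1, -⟩ | ⟨e1, -⟩ | ⟨e1, e2, e3⟩ | ⟨e1, e2, e3⟩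
    · exact absurd e1 h3
    · exact absurd e1 hc
    · rcases hA' with ⟨f1, -⟩ | ⟨f1, -⟩ | ⟨f1, f2, f3⟩ | ⟨f1, f2, f3⟩
      · exact absurd f1 h3
      · exact absurd f1 hc'
      · simp only at e1 f1
        rw [e1, f1]
      · exfalso
        simp only at e3 f3
        rw [e3] at f3
        exact N1_N1 _ f3.symm
    · rcases hA' with ⟨f1, -⟩ | ⟨f1, -⟩ | ⟨f1, f2, f3⟩ | ⟨f1, f2, f3⟩
      · exact absurd f1 h3
      · exact absurd f1 hc'
      · exfalso
        simp only at e3 f3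
        rw [f3] at e3
        exact N1_N1 _ e3.symm
      · simp only at e1 f1
        rw [e1, f1]

/-- The neighbour outside of the triangle. -/
def ext (x : (ι × Fin 12) × Fin 4) : (ι × Fin 12) × Fin 4 :=
  if x.2 = 0 then (x.1, 3) else if x.2 = 1 then (N1 x.1, 2) else (N2 x.1, 1)

theorem ext_adj {x : (ι × Fin 12) × Fin 4} (hx : x ∈ TS ι) : (HG s p0).Adj x (ext x) := by
  obtain ⟨v, c⟩ := x
  have key : ∀ c : Fin 4, c ≠ 3 → c = 0 ∨ c = 1 ∨ c = 2 := by decide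
  rcases key c hx with rfl | rfl | rfl
  · exact Or.inl ⟨rfl, (by decide : loc 0 3)⟩
  · exact Or.inr (Or.inr (Or.inl ⟨rfl, rfl, rfl⟩))
  · exact Or.inr (Or.inr (Or.inr ⟨rfl, rfl, (N1_N2 v).symm⟩))

theorem ext_ne {x y : (ι × Fin 12) × Fin 4} (hx : x ∈ TS ι) (hy : y ∈ TS ι) (hxy : y.1 = x.1) :
    ext x ≠ y := by
  obtain ⟨v, c⟩ := x
  obtain ⟨w, d⟩ := y
  simp only at hxy
  subst hxy
  have key : ∀ c : Fin 4, c ≠ 3 → c = 0 ∨ c = 1 ∨ c = 2 := by decide
  rcases key c hx with rfl | rfl | rfl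
  · intro h
    exact hy (congrArg Prod.snd h).symm
  · intro h
    exact N1_ne _ (congrArg Prod.fst h)
  · intro h
    exact N2_ne _ (congrArg Prod.fst h)

variable {n : ℕ} {p : ((ι × Fin 12) × Fin 4) ≃ Fin n}

/-- A vertex of a triangle has a long edge. -/
theorem hasLong {x : (ι × Fin 12) × Fin 4} (hx : x ∈ TS ι) :
    IsR (HG s p0) p x ∨ IsL (HG s p0) p x := by
  obtain ⟨v₁, hv₁, v₂, hv₂, n1, n2, n12, b1, b2⟩ := (triStruct (s := s) (p0 := p0)).partners x hx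
  have a1 := (triStruct (s := s) (p0 := p0)).adj x hx v₁ hv₁ n1.symm b1.symm
  have a2 := (triStruct (s := s) (p0 := p0)).adj x hx v₂ hv₂ n2.symm b2.symm
  have a3 := ext_adj (s := s) (p0 := p0) hx
  have e1 : (p v₁ : ℕ) ≠ p x := fun h => n1 (pos_inj h)
  have e2 : (p v₂ : ℕ) ≠ p x := fun h => n2 (pos_inj h)
  have e3 : (p v₁ : ℕ) ≠ p v₂ := fun h => n12 (pos_inj h)
  have e4 : (p (ext x) : ℕ) ≠ p x := fun h => ext_ne hx hx rfl (pos_inj h)
  have e5 : (p (ext x) : ℕ) ≠ p v₁ := fun h => ext_ne hx hv₁ b1 (pos_inj h)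
  have e6 : (p (ext x) : ℕ) ≠ p v₂ := fun h => ext_ne hx hv₂ b2 (pos_inj h)
  by_contra hcon
  push Not at hcon
  obtain ⟨hR, hL⟩ := hcon
  have c1 : ∀ w, (HG s p0).Adj x w → ¬ (p x : ℕ) + 2 ≤ p w := fun w hw h => hR ⟨w, hw, h⟩
  have c2 : ∀ w, (HG s p0).Adj x w → ¬ (p w : ℕ) + 2 ≤ p x := fun w hw h => hL ⟨w, hw, h⟩
  have := c1 _ a1
  have := c1 _ a2
  have := c1 _ a3
  have := c2 _ a1
  have := c2 _ a2
  have := c2 _ a3
  omega

/-- consecutive positions -/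
def cons (p : ((ι × Fin 12) × Fin 4) ≃ Fin n) (x y : (ι × Fin 12) × Fin 4) : Prop :=
  (p x : ℕ) + 1 = p y ∨ (p y : ℕ) + 1 = p x

theorem cons_symm {x y : (ι × Fin 12) × Fin 4} (h : cons p x y) : cons p y x := Or.symm h

/-- The structure of the triangle of `v` in a tight order. -/
theorem tri_struct (ht : Tight (HG s p0) p (TS ι)) (v : ι × Fin 12) :
    ∃ x ∈ TS ι, ∃ y ∈ TS ι, ∃ z ∈ TS ι, x.1 = v ∧ y.1 = v ∧ z.1 = v ∧
      (p y : ℕ) = p x + 1 ∧ (p z : ℕ) = p y + 1 ∧ (∀ w ∈ TS ι, w.1 = v → w = x ∨ w = y ∨ w = z) ∧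
      (p (ext x) : ℕ) + 1 = p x ∧ (p z : ℕ) + 1 = p (ext z) ∧ ¬ cons p y (ext y) ∧ y.2 ≠ 0 := by
  have hs := triStruct (s := s) (p0 := p0)
  have hT : ∀ x ∈ TS ι, IsR (HG s p0) p x ∨ IsL (HG s p0) p x := fun x hx => hasLong hx
  have hv : ((v, 0) : (ι × Fin 12) × Fin 4) ∈ TS ι := (by decide : (0 : Fin 4) ≠ 3)
  obtain ⟨x, hx, y, hy, z, hz, bx, by', bz, h1, h2, -⟩ := exists_sorted (p := p) hs hv
  simp only at bx by' bz
  obtain ⟨e1, e2⟩ := tri_consec ht hs hT hx hy hz (bx.trans by'.symm) (by'.trans bz.symm) h1 h2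
  obtain ⟨o1, o2⟩ := tri_outer ht hs hT hx hy hz (bx.trans by'.symm) (by'.trans bz.symm) h1 h2
  have nxy : y ≠ x := by rintro rfl; omega
  have nxz : z ≠ x := by rintro rfl; omega
  have nyz : y ≠ z := by rintro rfl; omega
  have hblock : ∀ w ∈ TS ι, w.1 = v → w = x ∨ w = y ∨ w = z := fun w hw h =>
    hs.three x hx y hy z hz w hw nxy nxz nyz (by'.trans bx.symm) (bz.trans bx.symm)
      (h.trans bx.symm)
  have ne : ∀ a ∈ TS ι, ∀ b ∈ TS ι, a.1 = v → b.1 = v → (p (ext a) : ℕ) ≠ p b :=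
    fun a ha b hb h1 h2 h => ext_ne ha hb (h2.trans h1.symm) (pos_inj h)
  have f1 := ne x hx x hx bx bx
  have f2 := ne x hx y hy bx by'
  have f3 := ne x hx z hz bx bz
  have f4 := ne z hz x hx bz bx
  have f5 := ne z hz y hy bz by'
  have f6 := ne z hz z hz bz bz
  have f7 := ne y hy x hx by' bx
  have f8 := ne y hy y hy by' by'
  have f9 := ne y hy z hz by' bz
  have nc : ¬ cons p y (ext y) := by
    rintro (h | h) <;> omega
  refine ⟨x, hx, y, hy, z, hz, bx, by', bz, e1, e2, hblock, ?_, ?_, nc, ?_⟩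
  · have g1 : ¬ (p x : ℕ) + 2 ≤ p (ext x) := fun h =>
      ext_ne hx hz (bz.trans bx.symm) (o1 _ (ext_adj hx) h)
    have g2 : ¬ (p (ext x) : ℕ) + 2 ≤ p x := by
      intro h
      -- `x` would have long edges on both sides
      have axz := hs.adj x hx z hz nxz.symm (bx.trans bz.symm)
      exact ht.excl x ⟨z, axz, by omega⟩ ⟨_, ext_adj hx, h⟩
    omega
  · have g1 : ¬ (p (ext z) : ℕ) + 2 ≤ p z := fun h =>
      ext_ne hz hx (bx.trans bz.symm) (o2 _ (ext_adj hz) h)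
    have g2 : ¬ (p z : ℕ) + 2 ≤ p (ext z) := by
      intro h
      have axz := hs.adj x hx z hz nxz.symm (bx.trans bz.symm)
      exact ht.excl z ⟨_, ext_adj hz, h⟩ ⟨x, axz.symm, by omega⟩
    omega
  · intro h0
    have h3 : ext y = (v, 3) := by
      unfold ext
      rw [if_pos h0, by']
    have h4 : ¬ (v, (3 : Fin 4)) ∈ TS ι := fun h => h rfl
    have ha := (ext_adj (s := s) (p0 := p0) hy).symm
    rw [h3] at ha nc f8
    unfold cons at nc
    rcases Nat.lt_or_gt_of_ne f8 with h5 | h5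
    · exact h4 (ht.memR _ ⟨y, ha, by omega⟩)
    · exact h4 (ht.memL _ ⟨y, ha, by omega⟩)

/-- Both positions next to a vertex are occupied by neighbours, but for two vertices. -/
theorem both_sides (ht : Tight (HG s p0) p (TS ι)) {x : (ι × Fin 12) × Fin 4}
    (hx : x ≠ (p0, 3)) (hx' : x ≠ (s.M p0, 3)) :
    ∃ a b, (HG s p0).Adj x a ∧ (HG s p0).Adj x b ∧ (p a : ℕ) + 1 = p x ∧ (p x : ℕ) + 1 = p b := by
  by_cases hxT : x ∈ TS ι
  · obtain ⟨x₁, h1, x₂, h2, x₃, h3, b1, b2, b3, e1, e2, hbl, c1, c2, -, -⟩ := tri_struct ht x.1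
    have hs := triStruct (s := s) (p0 := p0)
    have n12 : x₁ ≠ x₂ := by rintro rfl; omega
    have n23 : x₂ ≠ x₃ := by rintro rfl; omega
    rcases hbl x hxT rfl with h | h | h
    · rw [h]
      exact ⟨ext x₁, x₂, ext_adj h1, hs.adj _ h1 _ h2 n12 (b1.trans b2.symm), c1, e1.symm⟩
    · rw [h]
      exact ⟨x₁, x₃, hs.adj _ h2 _ h1 n12.symm (b2.trans b1.symm),
        hs.adj _ h2 _ h3 n23 (b2.trans b3.symm), e1.symm, e2.symm⟩
    · rw [h]
      exact ⟨x₂, ext x₃, hs.adj _ h3 _ h2 n23.symm (b3.trans b2.symm), ext_adj h3, e2.symm, c2⟩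
  · obtain ⟨v, c⟩ := x
    have hc : c = 3 := by
      by_contra hc
      exact hxT hc
    subst hc
    have hv : v ≠ p0 := fun h => hx (by rw [h])
    have hv' : s.M v ≠ p0 := fun h => hx' (by rw [← h, s.M_invol])
    have a1 : (HG s p0).Adj (v, 3) (v, 0) := Or.inl ⟨rfl, (by decide : loc 3 0)⟩
    have a2 : (HG s p0).Adj (v, 3) (s.M v, 3) := Or.inr (Or.inl ⟨rfl, rfl, rfl, hv, hv'⟩)
    have ne : (p (v, 0) : ℕ) ≠ p (s.M v, 3) := fun h => by
      have := congrArg Prod.snd (pos_inj h)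
      exact absurd this (by decide : (0 : Fin 4) ≠ 3)
    have n0 : ∀ w, (HG s p0).Adj (v, 3) w → (p w : ℕ) + 1 = p (v, 3) ∨ (p (v, 3) : ℕ) + 1 = p w := by
      intro w hw
      have h1 : ¬ (p (v, 3) : ℕ) + 2 ≤ p w := fun h => hxT (ht.memR _ ⟨w, hw, h⟩)
      have h2 : ¬ (p w : ℕ) + 2 ≤ p (v, 3) := fun h => hxT (ht.memL _ ⟨w, hw, h⟩)
      have h3 : (p w : ℕ) ≠ p (v, 3) := fun h => hw.ne (pos_inj h).symm
      omega
    rcases n0 _ a1 with h1 | h1 <;> rcases n0 _ a2 with h2 | h2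
    · omega
    · exact ⟨_, _, a1, a2, h1, h2⟩
    · exact ⟨_, _, a2, a1, h2, h1⟩
    · omega

/-- The port edges taken by the order. -/
theorem port_xor (ht : Tight (HG s p0) p (TS ι)) (v : ι × Fin 12) :
    cons p (N2 v, 1) (v, 2) ↔ ¬ cons p (v, 1) (N1 v, 2) := by
  obtain ⟨x₁, h1, x₂, h2, x₃, h3, b1, b2, b3, e1, e2, hbl, c1, c2, nc, n0⟩ := tri_struct ht v
  have key : ∀ c : Fin 4, c ≠ 3 → c = 0 ∨ c = 1 ∨ c = 2 := by decide
  have x1 : ext (v, 1) = (N1 v, 2) := rfl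
  have x2 : ext (v, 2) = (N2 v, 1) := rfl
  have m1 : ((v, 1) : (ι × Fin 12) × Fin 4) ∈ TS ι := (by decide : (1 : Fin 4) ≠ 3)
  have m2 : ((v, 2) : (ι × Fin 12) × Fin 4) ∈ TS ι := (by decide : (2 : Fin 4) ≠ 3)
  have out : ∀ w ∈ TS ι, w.1 = v → w ≠ x₂ → cons p w (ext w) := by
    intro w hw hwv hne
    rcases hbl w hw hwv with h | h | h
    · rw [h]; exact Or.inr c1
    · exact absurd h hne
    · rw [h]; exact Or.inl c2
  rcases key x₂.2 h2 with h | h | h
  · exact absurd h n0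
  · have hx : x₂ = (v, 1) := Prod.ext b2 h
    rw [hx] at nc out
    rw [x1] at nc
    have := out _ m2 rfl (fun h => absurd (congrArg Prod.snd h) (by decide : (2 : Fin 4) ≠ 1))
    rw [x2] at this
    exact ⟨fun _ => nc, fun _ => cons_symm this⟩
  · have hx : x₂ = (v, 2) := Prod.ext b2 h
    rw [hx] at nc out
    rw [x2] at nc
    have := out _ m1 rfl (fun h => absurd (congrArg Prod.snd h) (by decide : (1 : Fin 4) ≠ 2))
    rw [x1] at this
    exact ⟨fun h => absurd (cons_symm h) nc, fun h => absurd this h⟩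

open Classical in
/-- From a tight order to a connected state of the switches. -/
theorem conn_of_tight (ht : Tight (HG s p0) p (TS ι)) :
    ∃ y z : ι → Bool, ∀ a b : ι × Fin 12, Conn s.M (Sys.S y z) a b := by
  set e : ι → Fin 12 → Prop := fun k t => cons p ((k, t), 1) ((k, nb1 t), 2) with he
  have hxor : ∀ k t, e k (nb2 t) ↔ ¬ e k t := by
    intro k t
    have h := port_xor ht (k, t)
    simp only [he, nb1_nb2]
    exact h
  set y : ι → Bool := fun k => decide (e k 1) with hy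
  set z : ι → Bool := fun k => decide (e k 9) with hz
  have hsig : ∀ k t, e k t → sig (y k) (z k) t = nb1 t := by
    intro k
    have h1 := hxor k 1
    have h2 := hxor k 2
    have h3 := hxor k 3
    have h4 := hxor k 4
    have h5 := hxor k 5
    have h6 := hxor k 6
    have h7 := hxor k 7
    have h9 := hxor k 9
    have h10 := hxor k 10
    have h11 := hxor k 11
    simp only [nb2] at h1 h2 h3 h4 h5 h6 h7 h9 h10 h11
    have s1 : e k 1 ↔ y k = true := by simp only [hy, decide_eq_true_eq]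
    have s0 : e k 0 ↔ y k = false := by rw [h1, s1, Bool.not_eq_true]
    have s2 : e k 2 ↔ y k = false := by rw [← Bool.not_eq_true, ← s1, h2, not_not]
    have s3 : e k 3 ↔ y k = true := by rw [← Bool.not_eq_false, ← s2, h3, not_not]
    have s4 : e k 4 ↔ y k = false := by rw [← Bool.not_eq_true, ← s3, h4, not_not]
    have s5 : e k 5 ↔ y k = true := by rw [← Bool.not_eq_false, ← s4, h5, not_not]
    have s6 : e k 6 ↔ y k = false := by rw [← Bool.not_eq_true, ← s5, h6, not_not]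
    have s7 : e k 7 ↔ y k = true := by rw [← Bool.not_eq_false, ← s6, h7, not_not]
    have s9 : e k 9 ↔ z k = true := by simp only [hz, decide_eq_true_eq]
    have s8 : e k 8 ↔ z k = false := by rw [h9, s9, Bool.not_eq_true]
    have s10 : e k 10 ↔ z k = false := by rw [← Bool.not_eq_true, ← s9, h10, not_not]
    have s11 : e k 11 ↔ z k = true := by rw [← Bool.not_eq_false, ← s10, h11, not_not]
    intro t
    match t with
    | 0 => intro h; rw [s0.1 h]; rfl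
    | 1 => intro h; rw [s1.1 h]; rfl
    | 2 => intro h; rw [s2.1 h]; rfl
    | 3 => intro h; rw [s3.1 h]; rfl
    | 4 => intro h; rw [s4.1 h]; rfl
    | 5 => intro h; rw [s5.1 h]; rfl
    | 6 => intro h; rw [s6.1 h]; rfl
    | 7 => intro h; rw [s7.1 h]; rfl
    | 8 => intro h; rw [s8.1 h]; rfl
    | 9 => intro h; rw [s9.1 h]; rfl
    | 10 => intro h; rw [s10.1 h]; rfl
    | 11 => intro h; rw [s11.1 h]; rfl
  refine ⟨y, z, ?_⟩
  have hadj : ∀ a b : (ι × Fin 12) × Fin 4, (HG s p0).Adj a b → cons p a b →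
      Conn s.M (Sys.S y z) a.1 b.1 := by
    rintro a b (⟨h1, h2⟩ | ⟨h1, h2, h3, h4, h5⟩ | ⟨h1, h2, h3⟩ | ⟨h1, h2, h3⟩) hc
    · rw [h1]
      exact Conn.refl _
    · rw [h3]
      exact Conn.left _
    · obtain ⟨⟨k, t⟩, c⟩ := a
      obtain ⟨w, d⟩ := b
      simp only at h1 h2 h3
      subst h1 h2 h3
      have h4 := hsig k t hc
      have h5 : N1 (k, t) = Sys.S y z (k, t) := by
        unfold N1 Sys.S
        simp only [h4]
      simp only
      rw [h5]
      exact Conn.right _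
    · obtain ⟨w, d⟩ := a
      obtain ⟨⟨k, t⟩, c⟩ := b
      simp only at h1 h2 h3
      subst h1 h2 h3
      have h4 := hsig k t (cons_symm hc)
      have h5 : N1 (k, t) = Sys.S y z (k, t) := by
        unfold N1 Sys.S
        simp only [h4]
      simp only
      rw [h5]
      exact (Conn.right _).symm
  have hstep : ∀ a b : (ι × Fin 12) × Fin 4, (p a : ℕ) + 1 = p b →
      Conn s.M (Sys.S y z) a.1 b.1 := by
    intro a b hab
    by_cases ha : a = (p0, 3) ∨ a = (s.M p0, 3)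
    · by_cases hb : b = (p0, 3) ∨ b = (s.M p0, 3)
      · rcases ha with ha | ha <;> rcases hb with hb | hb <;> rw [ha, hb]
        · exact Conn.refl _
        · exact Conn.left _
        · exact (Conn.left _).symm
        · exact Conn.refl _
      · push Not at hb
        obtain ⟨a', -, h1, -, h2, -⟩ := both_sides ht hb.1 hb.2
        have : a' = a := pos_inj (p := p) (by omega)
        subst this
        exact hadj _ _ h1.symm (Or.inl h2)
    · push Not at ha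
      obtain ⟨-, b', -, h1, -, h2⟩ := both_sides ht ha.1 ha.2
      have : b' = b := pos_inj (p := p) (by omega)
      subst this
      exact hadj _ _ h1 (Or.inl h2)
  have hall : ∀ (m : ℕ) (a b : (ι × Fin 12) × Fin 4), (p a : ℕ) + m = p b →
      Conn s.M (Sys.S y z) a.1 b.1 := by
    intro m
    induction m with
    | zero =>
      intro a b hab
      rw [pos_inj (p := p) (v := a) (w := b) (by omega)]
      exact Conn.refl _
    | succ m ih =>
      intro a b hab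
      have hb := (p b).isLt
      set c := p.symm ⟨(p a : ℕ) + m, by omega⟩ with hc
      have hpc : (p c : ℕ) = p a + m := by rw [hc, Equiv.apply_symm_apply]
      exact (ih a c hpc.symm).trans (hstep c b (by omega))
  intro a b
  rcases Nat.le_total (p (a, 0)) (p (b, 0)) with h | h
  · obtain ⟨m, hm⟩ := Nat.exists_eq_add_of_le h
    exact hall m (a, 0) (b, 0) hm.symm
  · obtain ⟨m, hm⟩ := Nat.exists_eq_add_of_le h
    exact (hall m (b, 0) (a, 0) hm.symm).symm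

end Pool.Agent.Run7.h13
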