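import Pool.Agent.Run7.h13.Main
import Pool.Agent.H679R2.Oct.Inst

/-!
# The instances produced by the reduction
-/

namespace Pool.Agent.Run7.h13

open Pool.Agent.NPC Pool.Agent.H679R2

theorem mem_lnE (o : List (ℕ × Bool × ℕ)) (k : Fin o.length) (q : (ℕ × ℕ) × (ℕ × ℕ)) :
    q ∈ lnE o k.val ↔ ∃ t : Fin 12, Fwd ((sysOf o).sg k) t ∧
      q = ((k.val, t.val), (((sysOf o).M (k, t)).1.val, ((sysOf o).M (k, t)).2.val)) := by
  have hc : ∀ k : Fin o.length, nx (cK o) k.val = ((sysOf o).α k).val := fun k =>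
    nx_eq (cK o) o.length (by simp [cK]) k
  have hv : ∀ k : Fin o.length, nx (vK o) k.val = ((sysOf o).β k).val := fun k =>
    nx_eq (vK o) o.length (by simp [vK]) k
  have hz : ∀ k : Fin o.length, nx (zK o) k.val = ((sysOf o).γ k).val := fun k =>
    nx_eq (zK o) o.length (by simp [zK]) k
  have hs : ∀ k : Fin o.length, (sK o).getD k.val false = (sysOf o).sg k := fun k => rfl
  unfold lnE Fwd
  rw [hc, hv, hz, hs, hs, T0N_eq, T0N_eq, T1N_eq, T1N_eq]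
  simp only [List.mem_cons, List.not_mem_nil, or_false]
  constructor
  · rintro (rfl | rfl | rfl | rfl | rfl | rfl)
    · exact ⟨1, by simp, rfl⟩
    · exact ⟨2, by simp, rfl⟩
    · exact ⟨5, by simp, rfl⟩
    · exact ⟨9, by simp, rfl⟩
    · exact ⟨T0 ((sysOf o).sg k), by simp, by rw [Sys.M_T0]⟩
    · exact ⟨T1 ((sysOf o).sg k), by simp, by rw [Sys.M_T1]⟩
  · rintro ⟨t, (rfl | rfl | rfl | rfl | rfl | rfl), rfl⟩
    · exact Or.inl rfl
    · exact Or.inr (Or.inl rfl)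
    · exact Or.inr (Or.inr (Or.inl rfl))
    · exact Or.inr (Or.inr (Or.inr (Or.inl rfl)))
    · exact Or.inr (Or.inr (Or.inr (Or.inr (Or.inl (by rw [Sys.M_T0])))))
    · exact Or.inr (Or.inr (Or.inr (Or.inr (Or.inr (by rw [Sys.M_T1])))))

/-- edges inside a gadget -/
def locE : List (ℕ × ℕ) := [(0, 1), (0, 2), (1, 2), (0, 3)]

/-- all edges between vertices other than the apex -/
def EE (o : List (ℕ × Bool × ℕ)) : List ((ℕ × ℕ × ℕ) × (ℕ × ℕ × ℕ)) :=
  (List.range o.length).flatMap (fun k =>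
    (List.range 12).flatMap (fun t => locE.map (fun q => ((k, t, q.1), (k, t, q.2)))) ++
    clE.map (fun q => ((k, q.1, 1), (k, q.2, 2))) ++
    ((lnE o k).filter (fun q => !decide (q.1 = (0, 2)))).map
      (fun q => ((q.1.1, q.1.2, 3), (q.2.1, q.2.2, 3))))

/-- The instance of a nonempty list of occurrences. -/
def inst (o : List (ℕ × Bool × ℕ)) : (List ℕ × List (ℕ × ℕ)) × ℕ :=
  ((List.range (o.length * 12 * 4 + 1), (EE o).map (fun q => (cd 3 q.1, cd 3 q.2)) ++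
    (List.range (o.length * 12 * 4)).map (fun v => (v, o.length * 12 * 4))), 18 * o.length)

theorem loc_mem : ∀ c c' : Fin 4, loc c c' ↔ (c.val, c'.val) ∈ locE ∨ (c'.val, c.val) ∈ locE := by
  decide

theorem mem_EE (o : List (ℕ × Bool × ℕ)) (k k' : Fin o.length) (t t' : Fin 12)
    (c c' : Fin 4) : ((k.val, t.val, c.val), (k'.val, t'.val, c'.val)) ∈ EE o ↔
      (k = k' ∧ t = t' ∧ (c.val, c'.val) ∈ locE) ∨
      (k = k' ∧ t' = nb1 t ∧ c = 1 ∧ c' = 2) ∨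
      (Fwd ((sysOf o).sg k) t ∧ (k', t') = (sysOf o).M (k, t) ∧ ¬ (k.val = 0 ∧ t = 2) ∧
        c = 3 ∧ c' = 3) := by
  unfold EE
  simp only [List.mem_flatMap, List.mem_range, List.mem_append, List.mem_map, List.mem_filter]
  constructor
  · rintro ⟨a, ha, (⟨b, hb, q, hq, he⟩ | ⟨q, hq, he⟩) | ⟨q, ⟨hq, hq'⟩, he⟩⟩
    · simp only [Prod.mk.injEq] at he
      obtain ⟨⟨h1, h2, h3⟩, h4, h5, h6⟩ := he
      refine Or.inl ⟨Fin.ext (by omega), Fin.ext (by omega), ?_⟩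
      rw [← h3, ← h6]
      exact hq
    · simp only [Prod.mk.injEq] at he
      obtain ⟨⟨h1, h2, h3⟩, h4, h5, h6⟩ := he
      refine Or.inr (Or.inl ⟨Fin.ext (by omega), ?_, Fin.ext h3.symm, Fin.ext h6.symm⟩)
      rw [← nb1_mem, ← h2, ← h5]
      exact hq
    · simp only [Prod.mk.injEq] at he
      obtain ⟨⟨h1, h2, h3⟩, h4, h5, h6⟩ := he
      have hak : a = k.val := by
        have : q.1.1 = a := by
          unfold lnE at hq
          simp only [List.mem_cons, List.not_mem_nil, or_false] at hq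
          rcases hq with rfl | rfl | rfl | rfl | rfl | rfl <;> rfl
        omega
      subst hak
      obtain ⟨t₁, ht₁, rfl⟩ := (mem_lnE o k q).1 hq
      have htt : t = t₁ := Fin.ext h2.symm
      subst htt
      refine Or.inr (Or.inr ⟨ht₁, ?_, ?_, Fin.ext h3.symm, Fin.ext h6.symm⟩)
      · exact Prod.ext (Fin.ext h4.symm) (Fin.ext h5.symm)
      · rintro ⟨h7, h8⟩
        subst h8
        simp [h7] at hq'
  · rintro (⟨rfl, rfl, h3⟩ | ⟨rfl, h2, rfl, rfl⟩ | ⟨h1, h2, h3, rfl, rfl⟩)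
    · exact ⟨k.val, k.isLt, Or.inl (Or.inl ⟨t.val, t.isLt, (c.val, c'.val), h3, rfl⟩)⟩
    · exact ⟨k.val, k.isLt, Or.inl (Or.inr ⟨(t.val, t'.val), (nb1_mem t t').2 h2, rfl⟩)⟩
    · refine ⟨k.val, k.isLt, Or.inr ⟨_, ⟨(mem_lnE o k _).2 ⟨t, h1, rfl⟩, ?_⟩, ?_⟩⟩
      · simp only [Bool.not_eq_true', decide_eq_false_iff_not, Prod.mk.injEq, not_and]
        intro h4 h5
        exact h3 ⟨h4, Fin.ext h5⟩
      · rw [← h2]
        rfl

theorem adj_EE (o : List (ℕ × Bool × ℕ)) (h0 : 0 < o.length)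
    (p q : (Fin o.length × Fin 12) × Fin 4) :
    (HG (sysOf o) (⟨0, h0⟩, 2)).Adj p q ↔
      ((p.1.1.val, p.1.2.val, p.2.val), (q.1.1.val, q.1.2.val, q.2.val)) ∈ EE o ∨
      ((q.1.1.val, q.1.2.val, q.2.val), (p.1.1.val, p.1.2.val, p.2.val)) ∈ EE o := by
  obtain ⟨⟨k, t⟩, c⟩ := p
  obtain ⟨⟨k', t'⟩, c'⟩ := q
  rw [mem_EE, mem_EE]
  have hp : ∀ (k : Fin o.length) (t : Fin 12), (k, t) = ((⟨0, h0⟩ : Fin o.length), (2 : Fin 12)) ↔
      (k.val = 0 ∧ t = 2) := by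
    intro k t
    rw [Prod.mk.injEq, Fin.ext_iff]
  have hFM : ∀ (k k' : Fin o.length) (t t' : Fin 12), Fwd ((sysOf o).sg k) t →
      (k', t') = (sysOf o).M (k, t) → ¬ t' = 2 := by
    intro k k' t t' hF h1 ht
    subst ht
    have h4 : (k, t) = (sysOf o).M (k', 2) := by rw [h1, Sys.M_invol]
    rw [Sys.M2, Prod.mk.injEq] at h4
    have h5 := h4.2
    subst h5
    have key : ∀ b : Bool, ¬ ((8 : Fin 12) = 1 ∨ (8 : Fin 12) = 2 ∨ (8 : Fin 12) = 5 ∨
      (8 : Fin 12) = 9 ∨ (8 : Fin 12) = T0 b ∨ (8 : Fin 12) = T1 b) := by decide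
    exact key _ hF
  simp only [HG, Prod.mk.injEq]
  constructor
  · rintro (⟨⟨h1, h2⟩, h3⟩ | ⟨h1, h2, h3, h4, h5⟩ | ⟨h1, h2, h3⟩ | ⟨h1, h2, h3⟩)
    · rcases (loc_mem c c').1 h3 with h4 | h4
      · exact Or.inl (Or.inl ⟨h1, h2, h4⟩)
      · exact Or.inr (Or.inl ⟨h1.symm, h2.symm, h4⟩)
    · have h6 : (k, t) = (sysOf o).M (k', t') := by rw [h3, Sys.M_invol]
      have h4' : ¬ (k.val = 0 ∧ t = 2) := fun h => h4 ((hp k t).2 h)
      have h5' : ¬ (k'.val = 0 ∧ t' = 2) := fun h => h5 ((hp k' t').2 h)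
      have key : Fwd ((sysOf o).sg k) t ∨ Fwd ((sysOf o).sg k') t' := by
        rcases Sys.terminal_cases ((sysOf o).sg k) t with h7 | h7 | h7 | h7 | h7 | h7 | h7 | h7 |
          h7 | h7 | h7 | h7 <;> subst h7
        · rw [Sys.M0, Prod.mk.injEq] at h3
          exact Or.inr (Or.inl h3.2)
        · exact Or.inl (Or.inl rfl)
        · exact Or.inl (Or.inr (Or.inl rfl))
        · exact Or.inl (Or.inr (Or.inr (Or.inl rfl)))
        · rw [Sys.M8, Prod.mk.injEq] at h3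
          exact Or.inr (Or.inr (Or.inl h3.2))
        · exact Or.inl (Or.inr (Or.inr (Or.inr (Or.inl rfl))))
        · rw [Sys.M10, Prod.mk.injEq] at h3
          exact Or.inr (Or.inr (Or.inr (Or.inl h3.2)))
        · rw [Sys.M11, Prod.mk.injEq] at h3
          exact Or.inr (Or.inr (Or.inr (Or.inr (Or.inl h3.2))))
        · exact Or.inl (Or.inr (Or.inr (Or.inr (Or.inr (Or.inl rfl)))))
        · exact Or.inl (Or.inr (Or.inr (Or.inr (Or.inr (Or.inr rfl)))))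
        · rw [Sys.M_F0, Prod.mk.injEq] at h3
          rw [← h3.1] at h3
          exact Or.inr (Or.inr (Or.inr (Or.inr (Or.inr (Or.inl h3.2)))))
        · rw [Sys.M_F1, Prod.mk.injEq] at h3
          rw [← h3.1] at h3
          exact Or.inr (Or.inr (Or.inr (Or.inr (Or.inr (Or.inr h3.2)))))
      rcases key with h | h
      · exact Or.inl (Or.inr (Or.inr ⟨h, h3, h4', h1, h2⟩))
      · exact Or.inr (Or.inr (Or.inr ⟨h, h6, h5', h2, h1⟩))
    · unfold N1 at h3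
      rw [Prod.mk.injEq] at h3
      exact Or.inl (Or.inr (Or.inl ⟨h3.1.symm, h3.2, h1, h2⟩))
    · unfold N1 at h3
      rw [Prod.mk.injEq] at h3
      exact Or.inr (Or.inr (Or.inl ⟨h3.1.symm, h3.2, h2, h1⟩))
  · rintro ((⟨h1, h2, h3⟩ | ⟨h1, h2, h3, h4⟩ | ⟨h1, h2, h3, h4, h5⟩) |
      (⟨h1, h2, h3⟩ | ⟨h1, h2, h3, h4⟩ | ⟨h1, h2, h3, h4, h5⟩))
    · exact Or.inl ⟨⟨h1, h2⟩, (loc_mem c c').2 (Or.inl h3)⟩
    · refine Or.inr (Or.inr (Or.inl ⟨h3, h4, ?_⟩))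
      unfold N1
      rw [Prod.mk.injEq]
      exact ⟨h1.symm, h2⟩
    · refine Or.inr (Or.inl ⟨h4, h5, h2, ?_, ?_⟩)
      · exact fun h6 => h3 ((hp k t).1 h6)
      · exact fun h6 => hFM _ _ _ _ h1 h2 ((hp k' t').1 h6).2
    · exact Or.inl ⟨⟨h1.symm, h2.symm⟩, (loc_mem c c').2 (Or.inr h3)⟩
    · refine Or.inr (Or.inr (Or.inr ⟨h4, h3, ?_⟩))
      unfold N1
      rw [Prod.mk.injEq]
      exact ⟨h1.symm, h2⟩
    · refine Or.inr (Or.inl ⟨h5, h4, by rw [h2, Sys.M_invol], ?_, ?_⟩)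
      · exact fun h6 => hFM _ _ _ _ h1 h2 ((hp k t).1 h6).2
      · exact fun h6 => h3 ((hp k' t').1 h6)

theorem EE_valid (o : List (ℕ × Bool × ℕ)) {q : (ℕ × ℕ × ℕ) × (ℕ × ℕ × ℕ)}
    (hq : q ∈ EE o) : (q.1.2.1 < 12 ∧ q.1.2.2 < 3 + 1) ∧ (q.2.2.1 < 12 ∧ q.2.2.2 < 3 + 1) := by
  unfold EE at hq
  simp only [List.mem_flatMap, List.mem_range, List.mem_append, List.mem_map,
    List.mem_filter] at hq
  obtain ⟨a, ha, (⟨b, hb, q, hq, rfl⟩ | ⟨q, hq, rfl⟩) | ⟨q, ⟨hq, -⟩, rfl⟩⟩ := hq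
  · have : q.1 < 4 ∧ q.2 < 4 := by
      revert q
      unfold locE
      decide
    exact ⟨⟨hb, this.1⟩, ⟨hb, this.2⟩⟩
  · have : q.1 < 12 ∧ q.2 < 12 := by
      revert q
      unfold clE
      decide
    exact ⟨⟨this.1, by dsimp only; omega⟩, ⟨this.2, by dsimp only; omega⟩⟩
  · have hT0 : ∀ b, T0N b < 12 := by decide
    have hT1 : ∀ b, T1N b < 12 := by decide
    have : q.1.2 < 12 ∧ q.2.2 < 12 := by
      unfold lnE at hq
      simp only [List.mem_cons, List.not_mem_nil, or_false] at hq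
      rcases hq with rfl | rfl | rfl | rfl | rfl | rfl
      · simp
      · simp
      · simp
      · simp
      · exact ⟨hT0 _, hT0 _⟩
      · exact ⟨hT1 _, hT1 _⟩
    exact ⟨⟨this.1, by dsimp only; omega⟩, ⟨this.2, by dsimp only; omega⟩⟩

theorem mem_inst (o : List (ℕ × Bool × ℕ)) (x y : (Fin o.length × Fin 12) × Fin 4) :
    (cd 3 (x.1.1.val, x.1.2.val, x.2.val), cd 3 (y.1.1.val, y.1.2.val, y.2.val)) ∈ (inst o).1.2 ↔
      ((x.1.1.val, x.1.2.val, x.2.val), (y.1.1.val, y.1.2.val, y.2.val)) ∈ EE o := by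
  simp only [inst, List.mem_append, List.mem_map, Prod.mk.injEq, List.mem_range]
  constructor
  · rintro (⟨q, hq, h1, h2⟩ | ⟨v, hv, h1, h2⟩)
    · have h3 := EE_valid o hq
      have h4 := cd_inj 3 h3.1.1 h3.1.2 x.1.2.isLt x.2.isLt h1
      have h5 := cd_inj 3 h3.2.1 h3.2.2 y.1.2.isLt y.2.isLt h2
      rw [← h4, ← h5]
      exact hq
    · exfalso
      have := cd_lt _ 3 y
      omega
  · intro hq
    exact Or.inl ⟨_, hq, rfl, rfl⟩

theorem inst_iff (o : List (ℕ × Bool × ℕ)) (h0 : 0 < o.length) :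
    BC (inst o) ↔ ∃ τ : ℕ → Bool, ∀ x ∈ o, ∃ y ∈ o, y.1 = x.1 ∧ τ y.2.2 = y.2.1 := by
  classical
  rw [← conn_iff_sat o h0]
  set u : {v : ℕ // v ∈ (inst o).1.1} := ⟨o.length * 12 * 4, by simp [inst]⟩ with hu
  set f : (Fin o.length × Fin 12) × Fin 4 → {v : ℕ // v ∈ (inst o).1.1} := fun x =>
    ⟨cd 3 (x.1.1.val, x.1.2.val, x.2.val), by
      have := cd_lt _ 3 x
      simp only [inst, List.mem_range]
      omega⟩ with hf
  have h1 := cone_iff (toGraph (inst o).1) u ?_ (sysOf o) (⟨0, h0⟩, 2) f ?_ ?_ ?_ ?_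
  · rw [← h1, BC]
    simp only [Fintype.card_fin]
    rfl
  · rintro ⟨v, hv⟩ hne
    refine ⟨hne.symm, Or.inr ?_⟩
    have hv' : v < o.length * 12 * 4 + 1 := by simpa [inst] using hv
    have hv2 : v ≠ o.length * 12 * 4 := fun h => hne (Subtype.ext h)
    simp only [inst, List.mem_append, List.mem_map, Prod.mk.injEq, List.mem_range, hu]
    exact Or.inr ⟨v, by omega, rfl, trivial⟩
  · intro x y hxy
    have := cd_inj 3 (x := (x.1.1.val, x.1.2.val, x.2.val)) (y := (y.1.1.val, y.1.2.val, y.2.val))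
      x.1.2.isLt x.2.isLt y.1.2.isLt y.2.isLt (congrArg Subtype.val hxy)
    simp only [Prod.mk.injEq] at this
    exact Prod.ext (Prod.ext (Fin.ext this.1) (Fin.ext this.2.1)) (Fin.ext this.2.2)
  · intro x hx
    have h2 := cd_lt _ 3 x
    have h3 := congrArg Subtype.val hx
    simp only [hf, hu] at h3
    omega
  · rintro ⟨v, hv⟩ hne
    have hv' : v < o.length * 12 * 4 + 1 := by simpa [inst] using hv
    have hv2 : v ≠ o.length * 12 * 4 := fun h => hne (Subtype.ext h)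
    refine ⟨((⟨v / 4 / 12, by omega⟩, ⟨v / 4 % 12, by omega⟩), ⟨v % 4, by omega⟩), ?_⟩
    apply Subtype.ext
    simp only [hf, cd]
    omega
  · ext x y
    rw [adj_EE, ← mem_inst, ← mem_inst]
    simp only [SimpleGraph.comap_adj, toGraph, hf]
    constructor
    · exact fun h => h.2
    · intro hxy
      refine ⟨fun he => ?_, hxy⟩
      have := cd_inj 3 (x := (x.1.1.val, x.1.2.val, x.2.val)) (y := (y.1.1.val, y.1.2.val, y.2.val))
        x.1.2.isLt x.2.isLt y.1.2.isLt y.2.isLt (congrArg Subtype.val he)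
      simp only [Prod.mk.injEq] at this
      have hxy' : x = y :=
        Prod.ext (Prod.ext (Fin.ext this.1) (Fin.ext this.2.1)) (Fin.ext this.2.2)
      subst hxy'
      rw [mem_inst, ← adj_EE o h0] at hxy
      exact hxy.ne rfl

end Pool.Agent.Run7.h13
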