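import Mathlib

/-!
# The rank bound

The vertices of a graph `H` are placed at the positions `0, ..., n-1`.  The gap `g` (for `0 ≤ g ≤ n`)
lies between the positions `g-1` and `g`.  A long edge, joining the positions `i` and `j` with
`i + 2 ≤ j`, relates the gaps `i+1` and `j`.
-/

namespace Pool.Agent.Run7.h13

open Finset

variable {V : Type} (H : SimpleGraph V) {n : ℕ} (p : V ≃ Fin n)

/-- `a` has a long edge to the right. -/
def IsR (a : V) : Prop := ∃ b, H.Adj a b ∧ (p a : ℕ) + 2 ≤ p b

/-- `a` has a long edge to the left. -/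
def IsL (a : V) : Prop := ∃ b, H.Adj a b ∧ (p b : ℕ) + 2 ≤ p a

/-- The relation between gaps given by the long edges. -/
def gapRel (g g' : ℕ) : Prop :=
  ∃ a b, H.Adj a b ∧ (p a : ℕ) + 2 ≤ p b ∧ g = p a + 1 ∧ g' = p b

/-- The equivalence relation generated by the long edges. -/
def GapEq : ℕ → ℕ → Prop := Relation.EqvGen (gapRel H p)

variable {H p}

theorem GapEq.symm {g g' : ℕ} (h : GapEq H p g g') : GapEq H p g' g := Relation.EqvGen.symm _ _ h

theorem GapEq.trans {g g' g'' : ℕ} (h : GapEq H p g g') (h' : GapEq H p g' g'') :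
    GapEq H p g g'' := Relation.EqvGen.trans _ _ _ h h'

theorem GapEq.refl (g : ℕ) : GapEq H p g g := Relation.EqvGen.refl _

theorem GapEq.of_adj {a b : V} (h : H.Adj a b) (hab : (p a : ℕ) + 2 ≤ p b) :
    GapEq H p (p a + 1) (p b) := Relation.EqvGen.rel _ _ ⟨a, b, h, hab, rfl, rfl⟩

theorem GapEq.le {g g' : ℕ} (h : GapEq H p g g') : g = g' ∨ (g ≤ n ∧ g' ≤ n) := by
  induction h with
  | rel x y h =>
    obtain ⟨a, b, -, -, rfl, rfl⟩ := h
    exact Or.inr ⟨(p a).isLt, (p b).isLt.le⟩
  | refl x => exact Or.inl rfl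
  | symm x y _ ih =>
    rcases ih with h | h
    · exact Or.inl h.symm
    · exact Or.inr ⟨h.2, h.1⟩
  | trans x y z _ _ ih ih' =>
    rcases ih with rfl | h
    · exact ih'
    · rcases ih' with rfl | h'
      · exact Or.inr h
      · exact Or.inr ⟨h.1, h'.2⟩

variable (H p)

/-- The classes of gaps. -/
def gapSetoid : Setoid (Fin (n + 1)) where
  r g g' := GapEq H p g g'
  iseqv := ⟨fun _ => GapEq.refl _, fun h => h.symm, fun h h' => h.trans h'⟩

open Classical in
/-- The number of classes is at least `n + 1 - k`. -/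
theorem classes_ge [Fintype V] {κ : Type*} (P : Finset κ) (C : κ → V → Prop) (Rr : κ → V → V → Prop)
    (hM : ∀ a b, H.Adj a b → (p a : ℕ) < p b → ∀ x : V, ((p a : ℕ) < p x ∧ (p x : ℕ) < p b) ↔
      ∃ X ∈ P, Rr X a b ∧ C X x)
    (hdisj : ∀ a b, H.Adj a b → (p a : ℕ) < p b → ∀ x : V, ∀ X ∈ P, ∀ Y ∈ P, Rr X a b → C X x →
      Rr Y a b → C Y x → X = Y) :
    n + 1 ≤ P.card + Fintype.card (Quotient (gapSetoid H p)) := by
  -- the functionals
  let φ : (Fin (n + 1) → ℝ) →ₗ[ℝ] (P → ℝ) :=
    LinearMap.pi fun X => ∑ x ∈ Finset.univ.filter (fun x => C X.1 x),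
      ((LinearMap.proj (p x).succ : (Fin (n + 1) → ℝ) →ₗ[ℝ] ℝ) - LinearMap.proj (p x).castSucc)
  -- functions constant on the classes
  let ψ : (Fin (n + 1) → ℝ) →ₗ[ℝ] (Quotient (gapSetoid H p) → ℝ) :=
    LinearMap.pi fun c => LinearMap.proj c.out
  have hφ : ∀ Z X, φ Z X = ∑ x ∈ Finset.univ.filter (fun x => C X.1 x),
      (Z (p x).succ - Z (p x).castSucc) := by
    intro Z X
    simp [φ]
  have hψ : ∀ Z c, ψ Z c = Z c.out := fun Z c => rfl
  -- elements of the kernel are constant on classes
  have key : ∀ Z, φ Z = 0 → ∀ g g' : Fin (n + 1), GapEq H p g g' → Z g = Z g' := by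
    intro Z hZ
    set Zn : ℕ → ℝ := fun i => if h : i < n + 1 then Z ⟨i, h⟩ else 0 with hZn
    have hZn' : ∀ g : Fin (n + 1), Z g = Zn g := fun g => by
      simp only [hZn]
      rw [dif_pos g.isLt]
    have h1 : ∀ a b, H.Adj a b → (p a : ℕ) + 2 ≤ p b → Zn (p a + 1) = Zn (p b) := by
      intro a b hab hlt
      have h2 : ∑ x ∈ Finset.univ.filter (fun x : V => (p a : ℕ) < p x ∧ (p x : ℕ) < p b),
          (Zn (p x + 1) - Zn (p x)) = 0 := by
        have h3 : Finset.univ.filter (fun x : V => (p a : ℕ) < p x ∧ (p x : ℕ) < p b) =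
            (P.filter (fun X => Rr X a b)).biUnion
              (fun X => Finset.univ.filter (fun x => C X x)) := by
          ext x
          simp only [Finset.mem_filter, Finset.mem_univ, true_and, Finset.mem_biUnion]
          rw [hM a b hab (by omega) x]
          constructor
          · rintro ⟨X, h1, h2, h3⟩
            exact ⟨X, ⟨h1, h2⟩, h3⟩
          · rintro ⟨X, ⟨h1, h2⟩, h3⟩
            exact ⟨X, h1, h2, h3⟩
        rw [h3, Finset.sum_biUnion]
        · refine Finset.sum_eq_zero fun X hX => ?_
          rw [Finset.mem_filter] at hX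
          have h4 := congrFun hZ ⟨X, hX.1⟩
          rw [hφ] at h4
          simp only [Pi.zero_apply] at h4
          rw [← h4]
          refine Finset.sum_congr rfl fun x _ => ?_
          rw [hZn', hZn']
          rfl
        · intro X hX Y hY hXY
          rw [Function.onFun, Finset.disjoint_left]
          intro x hx hy
          simp only [Finset.coe_filter, Set.mem_ofPred_eq, Finset.mem_filter, Finset.mem_univ,
            true_and] at hX hY hx hy
          exact hXY (hdisj a b hab (by omega) x X hX.1 Y hY.1 hX.2 hx hY.2 hy)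
      have h4 : ∑ x ∈ Finset.univ.filter (fun x : V => (p a : ℕ) < p x ∧ (p x : ℕ) < p b),
          (Zn (p x + 1) - Zn (p x)) =
          ∑ i ∈ Finset.Ico ((p a : ℕ) + 1) (p b), (Zn (i + 1) - Zn i) := by
        refine Finset.sum_bij (fun x _ => (p x : ℕ)) ?_ ?_ ?_ ?_
        · intro x hx
          simp only [Finset.mem_filter, Finset.mem_univ, true_and] at hx
          simp only [Finset.mem_Ico]
          omega
        · intro x _ y _ hxy
          exact p.injective (Fin.ext hxy)
        · intro i hi
          simp only [Finset.mem_Ico] at hi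
          have hin : i < n := by have := (p b).isLt; omega
          refine ⟨p.symm ⟨i, hin⟩, ?_, by simp⟩
          simp only [Finset.mem_filter, Finset.mem_univ, true_and, Equiv.apply_symm_apply]
          omega
        · intro x _
          rfl
      rw [h4, Finset.sum_Ico_sub (f := Zn) (by omega)] at h2
      linarith
    have h5 : ∀ g g' : ℕ, GapEq H p g g' → Zn g = Zn g' := by
      intro g g' h
      induction h with
      | rel x y h =>
        obtain ⟨a, b, hab, hlt, rfl, rfl⟩ := h
        exact h1 a b hab hlt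
      | refl x => rfl
      | symm x y _ ih => exact ih.symm
      | trans x y z _ _ ih ih' => exact ih.trans ih'
    intro g g' h
    rw [hZn', hZn']
    exact h5 _ _ h
  -- dimension count
  have hinj : ∀ Z ∈ LinearMap.ker φ, ψ Z = 0 → Z = 0 := by
    intro Z hZ h0
    funext g
    have h1 := key Z (LinearMap.mem_ker.1 hZ) g (Quotient.mk (gapSetoid H p) g).out
      ((Quotient.exact (Quotient.out_eq (Quotient.mk (gapSetoid H p) g))).symm)
    rw [h1]
    have h2 := congrFun h0 (Quotient.mk (gapSetoid H p) g)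
    rw [hψ] at h2
    exact h2
  have h1 : Module.finrank ℝ (LinearMap.ker φ) ≤ Fintype.card (Quotient (gapSetoid H p)) := by
    have h2 := LinearMap.finrank_le_finrank_of_injective (f := ψ.domRestrict (LinearMap.ker φ)) (by
      rw [← LinearMap.ker_eq_bot, LinearMap.ker_eq_bot']
      rintro ⟨Z, hZ⟩ h
      exact Subtype.ext (hinj Z hZ h))
    rwa [Module.finrank_fintype_fun_eq_card] at h2
  have h2 := LinearMap.finrank_range_add_finrank_ker φ
  rw [Module.finrank_fintype_fun_eq_card, Fintype.card_fin] at h2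
  have h3 : Module.finrank ℝ (LinearMap.range φ) ≤ P.card := by
    have := Submodule.finrank_le (LinearMap.range φ)
    rwa [Module.finrank_fintype_fun_eq_card, Fintype.card_coe] at this
  omega

end Pool.Agent.Run7.h13
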