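import Pool.Agent.Run7.h13.Cross
import Pool.Agent.Run7.h13.Rank

/-!
# The rank bound for bundlings of simple circular layouts
-/

namespace Pool.Agent.Run7.h13

open Set

variable {V : Type} {G : SimpleGraph V} (Γ : CircularLayout G)

namespace CircularLayout

theorem end_of_norm {a b : V} (hab : G.Adj a b) {q : ℂ} (hq : q ∈ Γ.arc s(a, b)) (hn : ‖q‖ = 1) :
    q = Γ.pos a ∨ q = Γ.pos b := by
  obtain ⟨γ, hγ, hγ0, hγ1, hγi⟩ := Γ.exists_dArc hab
  rw [← hγi] at hq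
  obtain ⟨t, ht, rfl⟩ := hq
  rcases eq_or_lt_of_le ht.1 with h1 | h1
  · left; rw [← h1, hγ0]
  · rcases eq_or_lt_of_le ht.2 with h2 | h2
    · right; rw [h2, hγ1]
    · exact absurd hn (hγ.inner t ⟨h1, h2⟩).ne

theorem norm_le_of_mem {a b : V} (hab : G.Adj a b) {q : ℂ} (hq : q ∈ Γ.arc s(a, b)) : ‖q‖ ≤ 1 := by
  obtain ⟨γ, hγ, hγ0, hγ1, hγi⟩ := Γ.exists_dArc hab
  rw [← hγi] at hq
  obtain ⟨t, ht, rfl⟩ := hq
  exact hγ.norm_le ht

/-- The two bundles of a bundled crossing. -/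
theorem bundle_sets {X : Set ℂ} (hX : Γ.IsBundledCrossing X) : ∃ A B : Set (Sym2 V),
    A ⊆ G.edgeSet ∧ B ⊆ G.edgeSet ∧
    (∀ e ∈ A, ∀ f ∈ B, e ≠ f ∧ ∃ q ∈ X, ‖q‖ < 1 ∧ q ∈ Γ.arc e ∧ q ∈ Γ.arc f) ∧
    ∀ q ∈ X, ‖q‖ < 1 ∧ ∃ e ∈ A, ∃ f ∈ B, q ∈ Γ.arc e ∧ q ∈ Γ.arc f := by
  obtain ⟨S, T, ψ, a, b, -, -, hS, hT, -, -, hn, ha, hb, hab, -, rfl⟩ := hX
  have hS' : ∀ s ∈ S, s ∈ Icc (0 : ℝ) 1 := fun s hs => Ioo_subset_Icc_self (hS s hs)
  have hT' : ∀ t ∈ T, t ∈ Icc (0 : ℝ) 1 := fun t ht => Ioo_subset_Icc_self (hT t ht)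
  refine ⟨a '' S, b '' T, ?_, ?_, ?_, ?_⟩
  · rintro _ ⟨s, hs, rfl⟩
    exact (ha s hs).1
  · rintro _ ⟨t, ht, rfl⟩
    exact (hb t ht).1
  · rintro _ ⟨s, hs, rfl⟩ _ ⟨t, ht, rfl⟩
    exact ⟨hab s hs t ht, ψ (s, t), ⟨(s, t), ⟨hs, ht⟩, rfl⟩, hn _ ⟨hS' s hs, hT' t ht⟩,
      (ha s hs).2 t (hT' t ht), (hb t ht).2 s (hS' s hs)⟩
  · rintro _ ⟨⟨s, t⟩, ⟨hs, ht⟩, rfl⟩
    exact ⟨hn _ ⟨hS' s hs, hT' t ht⟩, _, ⟨s, hs, rfl⟩, _, ⟨t, ht, rfl⟩,
      (ha s hs).2 t (hT' t ht), (hb t ht).2 s (hS' s hs)⟩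

/-- Rows and columns of a bundled crossing in the matrix of the crossings of the edges with the
edges at `u`. -/
theorem rows_cols (hΓ : Γ.IsSimple) (u : V) (hu : ∀ v, v ≠ u → G.Adj u v) {X : Set ℂ}
    (hX : Γ.IsBundledCrossing X) : ∃ (Rr : Sym2 V → Prop) (C : V → Prop),
    (∀ e x, x ≠ u → Rr e → C x → e ∈ G.edgeSet ∧ e ≠ s(u, x) ∧
      ∃ q ∈ X, ‖q‖ < 1 ∧ q ∈ Γ.arc e ∧ q ∈ Γ.arc s(u, x)) ∧
    ∀ e ∈ G.edgeSet, u ∉ e → ∀ x, x ≠ u → ∀ q ∈ X, q ∈ Γ.arc e → q ∈ Γ.arc s(u, x) → Rr e ∧ C x := by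
  obtain ⟨A, B, hA, hB, hAB, hq⟩ := Γ.bundle_sets hX
  have main : ∀ e ∈ G.edgeSet, u ∉ e → ∀ x, x ≠ u → ∀ q ∈ X, q ∈ Γ.arc e → q ∈ Γ.arc s(u, x) →
      (e ∈ A ∧ s(u, x) ∈ B) ∨ (e ∈ B ∧ s(u, x) ∈ A) := by
    intro e he hue x hx q hqX hqe hqx
    obtain ⟨hqn, e', he', f', hf', h1, h2⟩ := hq q hqX
    have hne := (hAB e' he' f' hf').1
    have hxe : s(u, x) ∈ G.edgeSet := (SimpleGraph.mem_edgeSet G).2 (hu x hx)
    have hnex : e ≠ s(u, x) := by
      rintro rfl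
      exact hue (Sym2.mem_mk_left _ _)
    have h3 := Γ.two e' (hA he') f' (hB hf') hne q ⟨h1, h2⟩ hqn e he hqe
    have h4 := Γ.two e' (hA he') f' (hB hf') hne q ⟨h1, h2⟩ hqn _ hxe hqx
    rcases h3 with h3 | h3 <;> rcases h4 with h4 | h4
    · exact absurd (h3.trans h4.symm) hnex
    · exact Or.inl ⟨h3 ▸ he', h4 ▸ hf'⟩
    · exact Or.inr ⟨h3 ▸ hf', h4 ▸ he'⟩
    · exact absurd (h3.trans h4.symm) hnex
  by_cases hc : ∃ y, y ≠ u ∧ s(u, y) ∈ B
  · refine ⟨fun e => e ∈ A, fun x => s(u, x) ∈ B, ?_, ?_⟩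
    · intro e x hx he hxB
      obtain ⟨h1, q, h2, h3, h4, h5⟩ := hAB e he _ hxB
      exact ⟨hA he, h1, q, h2, h3, h4, h5⟩
    · intro e he hue x hx q hqX hqe hqx
      rcases main e he hue x hx q hqX hqe hqx with h | ⟨h, h'⟩
      · exact h
      · exfalso
        obtain ⟨y, hy, hyB⟩ := hc
        obtain ⟨h1, q', -, h3, h4, h5⟩ := hAB _ h' _ hyB
        exact Γ.not_meet hΓ (hu x hx) (hu y hy) (fun h => h1 (by rw [h])) h3 ⟨h4, h5⟩
  · refine ⟨fun e => e ∈ B, fun x => s(u, x) ∈ A, ?_, ?_⟩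
    · intro e x hx he hxA
      obtain ⟨h1, q, h2, h3, h4, h5⟩ := hAB _ hxA e he
      exact ⟨hB he, h1.symm, q, h2, h3, h5, h4⟩
    · intro e he hue x hx q hqX hqe hqx
      rcases main e he hue x hx q hqX hqe hqx with ⟨-, h⟩ | h
      · exact absurd ⟨x, hx, h⟩ hc
      · exact h

end CircularLayout

theorem exists_order {W : Type} [Fintype W] (κ : W → ℝ) (hκ : Function.Injective κ) :
    ∃ p : W ≃ Fin (Fintype.card W), ∀ a b, p a < p b ↔ κ a < κ b := by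
  classical
  letI : LinearOrder W := LinearOrder.lift' κ hκ
  refine ⟨(Fintype.orderIsoFinOfCardEq W rfl).symm.toEquiv, fun a b => ?_⟩
  have h1 : (Fintype.orderIsoFinOfCardEq W rfl).symm a < (Fintype.orderIsoFinOfCardEq W rfl).symm b ↔
      a < b := OrderIso.lt_iff_lt _
  exact h1

/-- **The rank bound.**  If some vertex `u` is adjacent to all others and the simple circular layout
`Γ` has a bundling with at most `k` parts, then for the linear order of the other vertices seen from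
`u`, the number of classes of gaps is at least `n + 1 - k`. -/
theorem rank_bound [Fintype V] {u : V} (hu : ∀ v, v ≠ u → G.Adj u v) (hΓ : Γ.IsSimple)
    {P : Finset (Set ℂ)} (hP : Γ.IsBundling P) {k : ℕ} (hk : P.card ≤ k)
    {W : Type} [Fintype W] (ι : W → V) (hι : Function.Injective ι) (hιu : ∀ w, ι w ≠ u) :
    ∃ p : W ≃ Fin (Fintype.card W),
      Fintype.card W + 1 ≤ k + Nat.card (Quotient (gapSetoid (G.comap ι) p)) := by
  classical
  have hpi := Γ.pos_injective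
  have hne : ∀ w, Γ.pos (ι w) ≠ Γ.pos u := fun w h => hιu w (hpi h)
  set κ : W → ℝ := fun w => key (Γ.pos u) (Γ.pos (ι w)) with hκ
  have hκi : Function.Injective κ := fun a b h =>
    hι (hpi (key_injOn (Γ.norm_pos u) (Γ.norm_pos _) (Γ.norm_pos _) (hne b) (hne a) h))
  obtain ⟨p, hp⟩ := exists_order κ hκi
  refine ⟨p, ?_⟩
  -- rows and columns
  have hrc : ∀ X : Set ℂ, ∃ (Rr : Sym2 V → Prop) (C : V → Prop), X ∈ P →
      (∀ e x, x ≠ u → Rr e → C x → e ∈ G.edgeSet ∧ e ≠ s(u, x) ∧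
        ∃ q ∈ X, ‖q‖ < 1 ∧ q ∈ Γ.arc e ∧ q ∈ Γ.arc s(u, x)) ∧
      ∀ e ∈ G.edgeSet, u ∉ e → ∀ x, x ≠ u → ∀ q ∈ X, q ∈ Γ.arc e → q ∈ Γ.arc s(u, x) →
        Rr e ∧ C x := by
    intro X
    by_cases h : X ∈ P
    · obtain ⟨Rr, C, h1, h2⟩ := Γ.rows_cols hΓ u hu (hP.1 X h)
      exact ⟨Rr, C, fun _ => ⟨h1, h2⟩⟩
    · exact ⟨fun _ => True, fun _ => True, fun h' => absurd h' h⟩
  choose Rr C hRC using hrc
  have hedge : ∀ a b, (G.comap ι).Adj a b → s(ι a, ι b) ∈ G.edgeSet ∧ u ∉ s(ι a, ι b) := by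
    intro a b hab
    refine ⟨(SimpleGraph.mem_edgeSet G).2 hab, ?_⟩
    rw [Sym2.mem_iff]
    rintro (h | h)
    · exact hιu a h.symm
    · exact hιu b h.symm
  have h := classes_ge (G.comap ι) p P (fun X x => C X (ι x))
    (fun X a b => Rr X s(ι a, ι b)) (by
      intro a b hab hlt x
      have hlt' : κ a < κ b := (hp a b).1 hlt
      have hab' : G.Adj (ι a) (ι b) := hab
      constructor
      · rintro ⟨h1, h2⟩
        have h1' : κ a < κ x := (hp a x).1 h1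
        have h2' : κ x < κ b := (hp x b).1 h2
        have hxa : ι x ≠ ι a := fun h => by
          have := hι h
          rw [this] at h1'
          exact lt_irrefl _ h1'
        have hxb : ι x ≠ ι b := fun h => by
          have := hι h
          rw [this] at h2'
          exact lt_irrefl _ h2'
        obtain ⟨q, hq1, hq2⟩ := (Γ.meet_iff hΓ (hu _ (hιu x)) hab' (hιu a).symm (hιu b).symm
          hxa hxb).2 (mul_neg_of_neg_of_pos (by linarith) (by linarith))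
        have hqn : ‖q‖ < 1 := by
          refine lt_of_le_of_ne (Γ.norm_le_of_mem hab' hq2) fun h => ?_
          rcases Γ.end_of_norm hab' hq2 h with h3 | h3 <;>
            rcases Γ.end_of_norm (hu _ (hιu x)) hq1 h with h4 | h4 <;>
            have h5 := hpi (h3.symm.trans h4)
          · exact hιu a h5
          · exact hxa h5.symm
          · exact hιu b h5
          · exact hxb h5.symm
        have hqc : q ∈ Γ.crossings :=
          ⟨hqn, s(u, ι x), (SimpleGraph.mem_edgeSet G).2 (hu _ (hιu x)), s(ι a, ι b),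
            (hedge a b hab).1, fun h => (hedge a b hab).2 (h ▸ Sym2.mem_mk_left _ _), hq1, hq2⟩
        rw [← hP.2.2] at hqc
        obtain ⟨X, hX, hqX⟩ := hqc
        have hX' : X ∈ P := by exact_mod_cast hX
        exact ⟨X, hX', (hRC X hX').2 _ (hedge a b hab).1 (hedge a b hab).2 _ (hιu x) q hqX hq2 hq1⟩
      · rintro ⟨X, hX, h1, h2⟩
        obtain ⟨-, -, q, hqX, hqn, hqe, hqx⟩ := (hRC X hX).1 _ _ (hιu x) h1 h2
        have hxa : ι x ≠ ι a := by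
          intro h
          rw [h] at hqx
          refine Γ.not_meet hΓ (u := ι a) (a := u) (b := ι b) (hu _ (hιu a)).symm hab'
            (hιu b).symm hqn ⟨?_, hqe⟩
          rwa [Sym2.eq_swap]
        have hxb : ι x ≠ ι b := by
          intro h
          rw [h] at hqx
          refine Γ.not_meet hΓ (u := ι b) (a := u) (b := ι a) (hu _ (hιu b)).symm hab'.symm
            (hιu a).symm hqn ⟨?_, ?_⟩
          · rwa [Sym2.eq_swap]
          · rwa [Sym2.eq_swap]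
        have h3 := (Γ.meet_iff hΓ (hu _ (hιu x)) hab' (hιu a).symm (hιu b).symm
          hxa hxb).1 ⟨q, hqx, hqe⟩
        have h4 : (κ a - κ x) * (κ b - κ x) < 0 := h3
        have h5 : κ a < κ x := by
          by_contra hc
          have : 0 ≤ (κ a - κ x) * (κ b - κ x) :=
            mul_nonneg (by linarith) (by linarith)
          linarith
        have h6 : κ x < κ b := by
          by_contra hc
          have : 0 ≤ (κ a - κ x) * (κ b - κ x) :=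
            mul_nonneg_of_nonpos_of_nonpos (by linarith) (by linarith)
          linarith
        exact ⟨(hp a x).2 h5, (hp x b).2 h6⟩) (by
      intro a b hab hlt x X hX Y hY h1 h2 h3 h4
      obtain ⟨-, hne', q, hqX, -, hqe, hqx⟩ := (hRC X hX).1 _ _ (hιu x) h1 h2
      obtain ⟨-, -, q', hqY, -, hqe', hqx'⟩ := (hRC Y hY).1 _ _ (hιu x) h3 h4
      have hqq : q = q' := hΓ _ (hedge a b hab).1 _ ((SimpleGraph.mem_edgeSet G).2 (hu _ (hιu x)))
        hne' ⟨hqe, hqx⟩ ⟨hqe', hqx'⟩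
      by_contra hXY
      exact Set.disjoint_left.1 (hP.2.1 X hX Y hY hXY) hqX (hqq ▸ hqY))
  rw [Nat.card_eq_fintype_card]
  omega

end Pool.Agent.Run7.h13
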