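import Pool.Agent.Run7.h13.Defs

/-!
# The crossings along a piece of an edge form a bundled crossing
-/

namespace Pool.Agent.Run7.h13

open Set

/-- Bounded Lipschitz interpolation. -/
theorem exists_interp (S : Finset ℝ) (κ0 : ℝ → ℝ) (α β : ℝ) : ∃ (κ : ℝ → ℝ) (M : ℝ),
    Continuous κ ∧ 0 < M ∧ (∀ s ∈ S, κ s = κ0 s) ∧ (∀ x ∈ Icc α β, |κ x| ≤ M) ∧
    ∀ x ∈ Icc α β, ∀ y ∈ Icc α β, |κ x - κ y| ≤ M * |x - y| := by
  set p : Polynomial ℝ := Lagrange.interpolate S id κ0 with hp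
  have h0 : ∀ s ∈ S, p.eval s = κ0 s := fun s hs =>
    Lagrange.eval_interpolate_at_node κ0 (Set.injOn_id _) hs
  obtain ⟨M1, h1⟩ := isCompact_Icc.exists_bound_of_continuousOn (s := Icc α β)
    (f := fun x => p.eval x) p.continuous.continuousOn
  obtain ⟨M2, h2⟩ := isCompact_Icc.exists_bound_of_continuousOn (s := Icc α β)
    (f := fun x => p.derivative.eval x) p.derivative.continuous.continuousOn
  refine ⟨fun x => p.eval x, max (max M1 M2) 1, p.continuous, by positivity, h0, ?_, ?_⟩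
  · intro x hx
    exact (h1 x hx).trans ((le_max_left _ _).trans (le_max_left _ _))
  · intro x hx y hy
    have h3 := Convex.norm_image_sub_le_of_norm_deriv_le (𝕜 := ℝ) (f := fun x => p.eval x)
      (C := M2) (s := Icc α β) (x := y) (y := x) (fun z _ => p.differentiableAt)
      (fun z hz => by
        rw [Polynomial.deriv]
        exact h2 z hz) (convex_Icc α β) hy hx
    rw [Real.norm_eq_abs, Real.norm_eq_abs] at h3
    refine h3.trans (mul_le_mul_of_nonneg_right ?_ (abs_nonneg _))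
    exact (le_max_right _ _).trans (le_max_left _ _)

/-- **Star lemma.**  The crossings along a piece of the edge `e` form a bundled crossing, if the
drawing near this piece is straight in suitable coordinates. -/
theorem star {V : Type} {G : SimpleGraph V} (Γ : CircularLayout G) (hfin : G.edgeSet.Finite)
    (hcl : ∀ f ∈ G.edgeSet, IsClosed (Γ.arc f)) {e : Sym2 V} (hee : e ∈ G.edgeSet)
    {F : ℝ × ℝ → ℂ} {U : Set (ℝ × ℝ)} (hU : IsOpen U) (hF : ContinuousOn F U) (hFi : InjOn F U)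
    (hFn : ∀ x ∈ U, ‖F x‖ < 1) {α β : ℝ} (hαβ : α < β) (hK : ∀ x ∈ Icc α β, (x, (0 : ℝ)) ∈ U)
    (he : ∀ z ∈ U, F z ∈ Γ.arc e ↔ z.2 = 0)
    (hf : ∀ f ∈ G.edgeSet, f ≠ e → ∀ x ∈ Icc α β, F (x, 0) ∈ Γ.arc f →
      (α < x ∧ x < β) ∧ ∃ κ : ℝ, ∀ z ∈ U, F z ∈ Γ.arc f ↔ z.1 = x + κ * z.2)
    (hne : ∃ x ∈ Icc α β, ∃ f ∈ G.edgeSet, f ≠ e ∧ F (x, 0) ∈ Γ.arc f) :
    Γ.IsBundledCrossing
      {q | ∃ x ∈ Icc α β, q = F (x, 0) ∧ ∃ f ∈ G.edgeSet, f ≠ e ∧ q ∈ Γ.arc f} := by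
  classical
  set S0 : Set ℝ := {x | x ∈ Icc α β ∧ ∃ f ∈ G.edgeSet, f ≠ e ∧ F (x, 0) ∈ Γ.arc f} with hS0
  have hch : ∀ x, ∃ (f : Sym2 V) (κ : ℝ), x ∈ S0 → (f ∈ G.edgeSet ∧ f ≠ e ∧ F (x, 0) ∈ Γ.arc f ∧
      (α < x ∧ x < β) ∧ ∀ z ∈ U, F z ∈ Γ.arc f ↔ z.1 = x + κ * z.2) := by
    intro x
    by_cases hx : x ∈ S0
    · obtain ⟨hx1, f, hf1, hf2, hf3⟩ := hx
      obtain ⟨h1, κ, h2⟩ := hf f hf1 hf2 x hx1 hf3
      exact ⟨f, κ, fun _ => ⟨hf1, hf2, hf3, h1, h2⟩⟩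
    · exact ⟨e, 0, fun h => absurd h hx⟩
  choose a0 κ0 ha0 using hch
  have hS0fin : S0.Finite := by
    refine Set.Finite.of_injOn (f := a0) (t := G.edgeSet) (fun x hx => (ha0 x hx).1) ?_ hfin
    intro x hx y hy hxy
    have h1 := (ha0 x hx).2.2.2.2 (y, 0) (hK y hy.1)
    rw [hxy] at h1
    have h2 := h1.1 (ha0 y hy).2.2.1
    simpa using h2.symm
  obtain ⟨κ, M, hκc, hM, hκ0, hκb, hκL⟩ := exists_interp hS0fin.toFinset κ0 α β
  -- the other edges stay away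
  set E0 : Set (Sym2 V) := {g | g ∈ G.edgeSet ∧ g ≠ e ∧ ∀ x ∈ Icc α β, F (x, 0) ∉ Γ.arc g} with hE0
  have hcl0 : IsClosed (⋃ g ∈ E0, Γ.arc g) :=
    (hfin.subset fun g hg => hg.1).isClosed_biUnion fun g hg => hcl g hg.1
  set W : Set (ℝ × ℝ) := U ∩ F ⁻¹' (⋃ g ∈ E0, Γ.arc g)ᶜ with hW
  have hWo : IsOpen W := hF.isOpen_inter_preimage hU hcl0.isOpen_compl
  have hKc : IsCompact (Icc α β ×ˢ ({0} : Set ℝ)) := isCompact_Icc.prod isCompact_singleton
  have hKW : Icc α β ×ˢ ({0} : Set ℝ) ⊆ W := by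
    rintro ⟨x, y⟩ ⟨hx, hy⟩
    simp only [mem_singleton_iff] at hy
    subst hy
    refine ⟨hK x hx, ?_⟩
    simp only [mem_preimage, mem_compl_iff, mem_iUnion, not_exists]
    intro g hg
    exact hg.2.2 x hx
  obtain ⟨δ, hδ, hδW⟩ := hKc.exists_thickening_subset_open hWo hKW
  set ε : ℝ := min δ 1 / (2 * (M + 1)) with hε
  have hmin : 0 < min δ 1 := by positivity
  have hε0 : 0 < ε := by positivity
  have hεM : (M + 1) * ε ≤ min δ 1 / 2 := by
    rw [hε]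
    field_simp
    exact le_refl _
  have hε1 : M * ε < 1 := by
    have := min_le_right δ 1
    nlinarith
  have hεδ : M * ε < δ := by
    have := min_le_left δ 1
    nlinarith
  have hεδ' : ε < δ := by
    have := min_le_left δ 1
    have : 0 < M * ε := by positivity
    nlinarith
  have hba : 0 < β - α := by linarith
  -- the chart
  set ξ : ℝ → ℝ := fun s => α + (β - α) * s with hξ
  set w : ℝ → ℝ := fun t => ε * (2 * t - 1) with hw
  set c : ℝ × ℝ → ℝ × ℝ := fun x => (ξ x.1 + κ (ξ x.1) * w x.2, w x.2) with hc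
  have hξm : ∀ s ∈ Icc (0 : ℝ) 1, ξ s ∈ Icc α β := by
    intro s hs
    simp only [hξ, mem_Icc]
    constructor
    · have := mul_nonneg hba.le hs.1
      linarith
    · have := mul_le_mul_of_nonneg_left hs.2 hba.le
      linarith
  have hwb : ∀ t ∈ Icc (0 : ℝ) 1, |w t| ≤ ε := by
    intro t ht
    simp only [hw]
    rw [abs_mul, abs_of_pos hε0]
    have : |2 * t - 1| ≤ 1 := by
      rw [abs_le]
      constructor <;> linarith [ht.1, ht.2]
    nlinarith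
  have hcc : Continuous c := by
    simp only [hc, hξ, hw]
    fun_prop
  have hcW : ∀ x ∈ (Icc 0 1 ×ˢ Icc 0 1 : Set (ℝ × ℝ)), c x ∈ W := by
    rintro x ⟨hx1, hx2⟩
    apply hδW
    rw [Metric.mem_thickening_iff]
    refine ⟨(ξ x.1, 0), ⟨hξm _ hx1, rfl⟩, ?_⟩
    rw [Prod.dist_eq, max_lt_iff]
    simp only [hc, Real.dist_eq]
    constructor
    · rw [add_sub_cancel_left, abs_mul]
      calc |κ (ξ x.1)| * |w x.2| ≤ M * ε :=
            mul_le_mul (hκb _ (hξm _ hx1)) (hwb _ hx2) (abs_nonneg _) hM.le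
        _ < δ := hεδ
    · rw [sub_zero]
      exact (hwb _ hx2).trans_lt hεδ'
  -- the basic estimate
  have hest : ∀ x ∈ Icc α β, ∀ y ∈ Icc α β, ∀ v : ℝ, |v| ≤ ε → x + κ x * v = y + κ y * v →
      x = y := by
    intro x hx y hy v hv h
    have h1 : x - y = (κ y - κ x) * v := by linarith
    have h2 : |x - y| ≤ M * |x - y| * ε := by
      calc |x - y| = |κ y - κ x| * |v| := by rw [h1, abs_mul]
        _ ≤ (M * |y - x|) * ε := mul_le_mul (hκL _ hy _ hx) hv (abs_nonneg _) (by positivity)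
        _ = M * |x - y| * ε := by rw [abs_sub_comm]
    by_contra hne
    have h3 : 0 < |x - y| := abs_pos.2 (sub_ne_zero.2 hne)
    have h4 : |x - y| * (M * ε) < |x - y| * 1 := mul_lt_mul_of_pos_left hε1 h3
    linarith
  have hinj : ∀ x ∈ (Icc 0 1 ×ˢ Icc 0 1 : Set (ℝ × ℝ)), ∀ y ∈ (Icc 0 1 ×ˢ Icc 0 1 : Set (ℝ × ℝ)),
      c x = c y → x = y := by
    rintro ⟨x1, x2⟩ ⟨hx1, hx2⟩ ⟨y1, y2⟩ ⟨hy1, hy2⟩ h
    simp only [hc, Prod.mk.injEq] at h
    simp only at hx1 hx2 hy1 hy2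
    have h2 : x2 = y2 := by
      have := h.2
      simp only [hw] at this
      have := mul_left_cancel₀ hε0.ne' this
      linarith
    subst h2
    have h3 := hest _ (hξm _ hx1) _ (hξm _ hy1) _ (hwb _ hx2) h.1
    simp only [hξ] at h3
    have h4 := mul_left_cancel₀ hba.ne' (add_left_cancel h3)
    rw [h4]
  set σ : ℝ → ℝ := fun x => (x - α) / (β - α) with hσ
  have hξσ : ∀ x, ξ (σ x) = x := by
    intro x
    simp only [hξ, hσ]
    field_simp
    ring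
  have hσξ : ∀ s, σ (ξ s) = s := by
    intro s
    simp only [hξ, hσ]
    field_simp
    ring
  have hσm : ∀ x, α < x → x < β → σ x ∈ Ioo (0 : ℝ) 1 := by
    intro x h1 h2
    simp only [hσ, mem_Ioo]
    constructor
    · apply div_pos <;> linarith
    · rw [div_lt_one hba]
      linarith
  refine ⟨hS0fin.toFinset.image σ, {1 / 2}, fun x => F (c x), fun s => a0 (ξ s), fun _ => e,
    ?_, ?_, ?_, ?_, ?_, ?_, ?_, ?_, ?_, ?_, ?_, ?_⟩
  · obtain ⟨x, hx, f, h1, h2, h3⟩ := hne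
    exact ⟨σ x, Finset.mem_image_of_mem _ (hS0fin.mem_toFinset.2 ⟨hx, f, h1, h2, h3⟩)⟩
  · exact Finset.singleton_nonempty _
  · intro s hs
    obtain ⟨x, hx, rfl⟩ := Finset.mem_image.1 hs
    have h1 := (ha0 x (hS0fin.mem_toFinset.1 hx)).2.2.2.1
    exact hσm x h1.1 h1.2
  · intro t ht
    rw [Finset.mem_singleton] at ht
    subst ht
    constructor <;> norm_num
  · exact hF.comp hcc.continuousOn fun x hx => (hcW x hx).1
  · intro x hx y hy hxy
    exact hinj x hx y hy (hFi (hcW x hx).1 (hcW y hy).1 hxy)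
  · intro x hx
    exact hFn _ (hcW x hx).1
  · intro s hs
    obtain ⟨x, hx, rfl⟩ := Finset.mem_image.1 hs
    have hx0 := hS0fin.mem_toFinset.1 hx
    have h1 := ha0 x hx0
    have h2 := hσm x h1.2.2.2.1.1 h1.2.2.2.1.2
    simp only [hξσ]
    refine ⟨h1.1, fun y hy => ?_⟩
    rw [h1.2.2.2.2 _ (hcW (σ x, y) ⟨⟨h2.1.le, h2.2.le⟩, hy⟩).1]
    simp only [hc, hξσ]
    rw [hκ0 x hx]
  · intro t ht
    rw [Finset.mem_singleton] at ht
    subst ht
    refine ⟨hee, fun x hx => ?_⟩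
    rw [he _ (hcW (x, 1 / 2) ⟨hx, by norm_num, by norm_num⟩).1]
    simp [hc, hw]
  · intro s hs t ht
    obtain ⟨x, hx, rfl⟩ := Finset.mem_image.1 hs
    simp only [hξσ]
    exact (ha0 x (hS0fin.mem_toFinset.1 hx)).2.1
  · rintro x hx ⟨g, hg, hxg⟩
    by_cases hge : g = e
    · right
      subst hge
      rw [he _ (hcW x hx).1] at hxg
      simp only [hc, hw] at hxg
      rw [Finset.mem_singleton]
      have := (mul_eq_zero.1 hxg).resolve_left hε0.ne'
      linarith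
    · left
      by_cases hgE : g ∈ E0
      · exfalso
        have h1 := (hcW x hx).2
        simp only [mem_preimage, mem_compl_iff, mem_iUnion, not_exists] at h1
        exact h1 g hgE hxg
      · have h1 : ∃ x0 ∈ Icc α β, F (x0, 0) ∈ Γ.arc g := by
          by_contra hcon
          push Not at hcon
          exact hgE ⟨hg, hge, hcon⟩
        obtain ⟨x0, hx0, h2⟩ := h1
        have hx0S : x0 ∈ S0 := ⟨hx0, g, hg, hge, h2⟩
        have h3 := ha0 x0 hx0S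
        have h4 : g = a0 x0 := by
          have h5 := Γ.two e hee (a0 x0) h3.1 h3.2.1.symm (F (x0, 0))
            ⟨(he _ (hK x0 hx0)).2 rfl, h3.2.2.1⟩ (hFn _ (hK x0 hx0)) g hg h2
          exact h5.resolve_left hge
        rw [h4, h3.2.2.2.2 _ (hcW x hx).1] at hxg
        simp only [hc] at hxg
        rw [← hκ0 x0 (hS0fin.mem_toFinset.2 hx0S)] at hxg
        have h5 := hest _ (hξm _ hx.1) _ hx0 _ (hwb _ hx.2) hxg
        rw [Finset.mem_image]
        exact ⟨x0, hS0fin.mem_toFinset.2 hx0S, by rw [← h5, hσξ]⟩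
  · ext q
    simp only [mem_ofPred_eq, mem_image, Finset.mem_image, Finset.mem_singleton]
    constructor
    · rintro ⟨x, hx, rfl, f, h1, h2, h3⟩
      refine ⟨(σ x, 1 / 2), ⟨⟨x, hS0fin.mem_toFinset.2 ⟨hx, f, h1, h2, h3⟩, rfl⟩, rfl⟩, ?_⟩
      simp [hc, hw, hξσ]
    · rintro ⟨⟨s, t⟩, ⟨⟨x, hx, rfl⟩, rfl⟩, rfl⟩
      have hx0 := hS0fin.mem_toFinset.1 hx
      have h1 : c (σ x, 1 / 2) = (x, 0) := by simp [hc, hw, hξσ]
      rw [h1]
      obtain ⟨hx1, f, h2, h3, h4⟩ := hx0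
      exact ⟨x, hx1, rfl, f, h2, h3, h4⟩

end Pool.Agent.Run7.h13
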