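import Pool.Agent.Run7.h13.Geo
import Pool.Agent.Run7.h13.Star

/-!
# The upper bound: straight-line layouts
-/

namespace Pool.Agent.Run7.h13

open Set

variable {V : Type} {G : SimpleGraph V} {u : V} {r : V → ℕ}

open Classical in
/-- the positions of the vertices -/
noncomputable def spos (u : V) (r : V → ℕ) (v : V) : ℂ := if v = u then -1 else P (4 ^ r v)

/-- straight edges -/
noncomputable def sarc (u : V) (r : V → ℕ) : Sym2 V → Set ℂ :=
  Sym2.lift ⟨fun a b => segment ℝ (spos u r a) (spos u r b), fun _ _ => segment_symm _ _ _⟩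

theorem sarc_mk (a b : V) : sarc u r s(a, b) = segment ℝ (spos u r a) (spos u r b) := rfl

theorem spos_self : spos u r u = -1 := by simp [spos]

theorem spos_of_ne {v : V} (hv : v ≠ u) : spos u r v = P (4 ^ r v) := by simp [spos, hv]

theorem norm_spos (v : V) : ‖spos u r v‖ = 1 := by
  by_cases hv : v = u
  · subst hv
    rw [spos_self]
    simp
  · rw [spos_of_ne hv, norm_P]

theorem spos_inj (hr : ∀ a b, a ≠ u → b ≠ u → r a = r b → a = b) :
    Function.Injective (spos u r) := by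
  intro a b h
  by_cases ha : a = u <;> by_cases hb : b = u
  · rw [ha, hb]
  · subst ha
    rw [spos_self, spos_of_ne hb] at h
    exact absurd h.symm (P_ne _)
  · subst hb
    rw [spos_self, spos_of_ne ha] at h
    exact absurd h (P_ne _)
  · rw [spos_of_ne ha, spos_of_ne hb] at h
    exact hr a b ha hb (four_pow_inj (P_injective h))

theorem spoke_iff {v : V} (hv : v ≠ u) {x y : ℝ} (h : x ^ 2 < y) :
    Zc x y ∈ sarc u r s(u, v) ↔ x = 4 ^ r v := by
  rw [sarc_mk, spos_self, spos_of_ne hv, mem_spoke_iff h]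

theorem chord_iff {a b : V} (ha : a ≠ u) (hb : b ≠ u) (hab : r a < r b) {x y : ℝ} (h : x ^ 2 < y) :
    Zc x y ∈ sarc u r s(a, b) ↔
      y = ((4 : ℝ) ^ r a + 4 ^ r b) * x - 4 ^ r a * 4 ^ r b := by
  rw [sarc_mk, spos_of_ne ha, spos_of_ne hb, mem_chord_iff _ h]
  intro he
  exact hab.ne (four_pow_inj he)

theorem edge_cases (hr : ∀ a b, a ≠ u → b ≠ u → r a = r b → a = b) {e : Sym2 V}
    (he : e ∈ G.edgeSet) : (∃ v, v ≠ u ∧ G.Adj u v ∧ e = s(u, v)) ∨
      ∃ a b, a ≠ u ∧ b ≠ u ∧ r a < r b ∧ G.Adj a b ∧ e = s(a, b) := by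
  induction e using Sym2.ind with
  | _ a b =>
    have hab : G.Adj a b := he
    by_cases ha : a = u
    · subst ha
      exact Or.inl ⟨b, hab.ne', hab, rfl⟩
    · by_cases hb : b = u
      · subst hb
        exact Or.inl ⟨a, ha, hab.symm, Sym2.eq_swap⟩
      · right
        rcases lt_trichotomy (r a) (r b) with h | h | h
        · exact ⟨a, b, ha, hb, h, hab, rfl⟩
        · exact absurd (hr a b ha hb h) hab.ne
        · exact ⟨b, a, hb, ha, h, hab.symm, Sym2.eq_swap⟩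

/-- The edges through a point of a chord. -/
theorem other_edge (hr : ∀ a b, a ≠ u → b ≠ u → r a = r b → a = b) {a b : V} (ha : a ≠ u)
    (hb : b ≠ u) (hab : r a < r b) {x y : ℝ} (h : x ^ 2 < y) (he : Zc x y ∈ sarc u r s(a, b))
    {g : Sym2 V} (hg : g ∈ G.edgeSet) (hge : g ≠ s(a, b)) (hgx : Zc x y ∈ sarc u r g) :
    (∃ v, v ≠ u ∧ G.Adj u v ∧ g = s(u, v) ∧ x = 4 ^ r v ∧ r a < r v ∧ r v < r b) ∨
    ∃ c d, c ≠ u ∧ d ≠ u ∧ r c < r d ∧ G.Adj c d ∧ g = s(c, d) ∧
      y = ((4 : ℝ) ^ r c + 4 ^ r d) * x - 4 ^ r c * 4 ^ r d ∧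
      ((r a < r c ∧ r c < r b ∧ r b < r d ∧ (4 : ℝ) ^ r c < x ∧ 3 * x < 4 * 4 ^ r c) ∨
      (r c < r a ∧ r a < r d ∧ r d < r b ∧ (4 : ℝ) ^ r a < x ∧ 3 * x < 4 * 4 ^ r a)) := by
  rw [chord_iff ha hb hab h] at he
  rcases edge_cases hr hg with ⟨v, hv, hadj, rfl⟩ | ⟨c, d, hc, hd, hcd, hadj, rfl⟩
  · left
    rw [spoke_iff hv h] at hgx
    obtain ⟨h1, h2⟩ := chord_bounds hab h he
    rw [hgx] at h1 h2
    exact ⟨v, hv, hadj, rfl, hgx, four_pow_lt h1, four_pow_lt h2⟩
  · right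
    rw [chord_iff hc hd hcd h] at hgx
    refine ⟨c, d, hc, hd, hcd, hadj, rfl, hgx, ?_⟩
    have hne : ¬ (r a = r c ∧ r b = r d) := by
      rintro ⟨h1, h2⟩
      apply hge
      rw [hr a c ha hc h1, hr b d hb hd h2]
    rcases le_total (r a) (r c) with h1 | h1
    · left
      exact chord_chord hab hcd hne h1 h he hgx
    · right
      exact chord_chord hcd hab (fun h2 => hne ⟨h2.1.symm, h2.2.symm⟩) h1 h hgx he

theorem straight_two (hr : ∀ a b, a ≠ u → b ≠ u → r a = r b → a = b) {e f g : Sym2 V}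
    (he : e ∈ G.edgeSet) (hf : f ∈ G.edgeSet) (hg : g ∈ G.edgeSet) (hef : e ≠ f) {p : ℂ}
    (hp : ‖p‖ < 1) (hpe : p ∈ sarc u r e) (hpf : p ∈ sarc u r f) (hpg : p ∈ sarc u r g) :
    g = e ∨ g = f := by
  by_contra hcon
  push Not at hcon
  obtain ⟨hge, hgf⟩ := hcon
  obtain ⟨x, y, h, rfl⟩ := exists_Zc hp
  rcases edge_cases hr he with ⟨v, hv, hadj, rfl⟩ | ⟨a, b, ha, hb, hab, hadj, rfl⟩
  · rw [spoke_iff hv h] at hpe
    rcases edge_cases hr hf with ⟨v', hv', hadj', rfl⟩ | ⟨c, d, hc, hd, hcd, hadj', rfl⟩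
    · rw [spoke_iff hv' h] at hpf
      exact hef (by rw [hr v v' hv hv' (four_pow_inj (hpe.symm.trans hpf))])
    · rcases other_edge hr hc hd hcd h hpf hg hgf hpg with
        ⟨w, hw, -, rfl, h1, -⟩ | ⟨s, t, hs, ht, hst, -, rfl, -, h1⟩
      · exact hge (by rw [hr w v hw hv (four_pow_inj (h1.symm.trans hpe))])
      · rcases h1 with h1 | h1
        · exact near_ne h1.2.2.2.1 h1.2.2.2.2 hpe
        · exact near_ne h1.2.2.2.1 h1.2.2.2.2 hpe
  · rcases other_edge hr ha hb hab h hpe hf hef.symm hpf with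
      ⟨v, hv, -, rfl, h1, -⟩ | ⟨c, d, hc, hd, hcd, -, rfl, -, h1⟩
    · rcases other_edge hr ha hb hab h hpe hg hge hpg with
        ⟨w, hw, -, rfl, h2, -⟩ | ⟨s, t, hs, ht, hst, -, rfl, -, h2⟩
      · exact hgf (by rw [hr w v hw hv (four_pow_inj (h2.symm.trans h1))])
      · rcases h2 with h2 | h2
        · exact near_ne h2.2.2.2.1 h2.2.2.2.2 h1
        · exact near_ne h2.2.2.2.1 h2.2.2.2.2 h1
    · rcases other_edge hr ha hb hab h hpe hg hge hpg with
        ⟨w, hw, -, rfl, h2, -⟩ | ⟨s, t, hs, ht, hst, -, rfl, -, h2⟩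
      · rcases h1 with h1 | h1
        · exact near_ne h1.2.2.2.1 h1.2.2.2.2 h2
        · exact near_ne h1.2.2.2.1 h1.2.2.2.2 h2
      · rcases other_edge hr hc hd hcd h hpf hg hgf hpg with
          ⟨w, hw, -, h3, h4, -⟩ | ⟨s', t', hs', ht', hst', -, h3, -, h4⟩
        · rcases h1 with h1 | h1
          · exact near_ne h1.2.2.2.1 h1.2.2.2.2 h4
          · exact near_ne h1.2.2.2.1 h1.2.2.2.2 h4
        · have h5 : s' = s ∧ t' = t := by
            rw [Sym2.eq_iff] at h3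
            rcases h3 with h3 | h3
            · exact ⟨h3.1.symm, h3.2.symm⟩
            · exfalso
              rw [h3.1, h3.2] at hst
              omega
          rw [h5.1, h5.2] at h4
          rcases h1 with h1 | h1 <;> rcases h2 with h2 | h2 <;> rcases h4 with h4 | h4 <;>
            have e1 := near_unique h1.2.2.2.1 h1.2.2.2.2 h2.2.2.2.1 h2.2.2.2.2 <;>
            have e2 := near_unique h1.2.2.2.1 h1.2.2.2.2 h4.2.2.2.1 h4.2.2.2.2 <;>
            omega

theorem lf_of_mem {a b z : ℂ} (h : z ∈ segment ℝ a b) : lf a b z = 0 := by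
  rw [← ch_image] at h
  obtain ⟨t, -, rfl⟩ := h
  exact lf_self_ch a b t

theorem straight_simple (hr : ∀ a b, a ≠ u → b ≠ u → r a = r b → a = b) {e f : Sym2 V}
    (he : e ∈ G.edgeSet) (hf : f ∈ G.edgeSet) (hef : e ≠ f) :
    (sarc u r e ∩ sarc u r f).Subsingleton := by
  induction e using Sym2.ind with
  | _ a b =>
    induction f using Sym2.ind with
    | _ c d =>
      have hab : G.Adj a b := he
      have hcd : G.Adj c d := hf
      rintro p ⟨hp1, hp2⟩ q ⟨hq1, hq2⟩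
      rw [sarc_mk] at hp1 hp2 hq1 hq2
      have hi := spos_inj hr
      refine chords_unique (norm_spos a) (norm_spos b) (hi.ne hab.ne) (norm_spos c) (norm_spos d)
        (hi.ne hcd.ne) ?_ (lf_of_mem hp1) (lf_of_mem hp2) (lf_of_mem hq1) (lf_of_mem hq2)
      intro h
      apply hef
      rw [Sym2.eq_iff] at h ⊢
      rcases h with h | h
      · exact Or.inl ⟨hi h.1, hi h.2⟩
      · exact Or.inr ⟨hi h.1, hi h.2⟩

/-- The straight-line layout. -/
noncomputable def straight (G : SimpleGraph V) (u : V) (r : V → ℕ)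
    (hr : ∀ a b, a ≠ u → b ≠ u → r a = r b → a = b) : CircularLayout G where
  pos := spos u r
  arc := sarc u r
  norm_pos := norm_spos
  pos_injective := spos_inj hr
  isDiskArc := fun a b hab => by
    have h := dArc_ch (norm_spos (u := u) (r := r) a) (norm_spos b) ((spos_inj hr).ne hab.ne)
    exact ⟨ch (spos u r a) (spos u r b), h.cont, h.inj, ch_zero _ _, ch_one _ _, h.inner,
      ch_image _ _⟩
  finite_inter := fun e he f hf hef => (straight_simple hr he hf hef).finite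
  proper := fun e he f hf hef p hp hpn => by
    induction e using Sym2.ind with
    | _ a b =>
      induction f using Sym2.ind with
      | _ c d =>
        have hab : G.Adj a b := he
        have hcd : G.Adj c d := hf
        have hi := spos_inj hr
        refine proper_chords (norm_spos a) (norm_spos b) (hi.ne hab.ne) (norm_spos c) (norm_spos d)
          (hi.ne hcd.ne) ?_ hpn hp.1 hp.2
        intro h
        apply hef
        rw [Sym2.eq_iff] at h ⊢
        rcases h with h | h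
        · exact Or.inl ⟨hi h.1, hi h.2⟩
        · exact Or.inr ⟨hi h.1, hi h.2⟩
  two := fun e he f hf hef p hp hpn g hg hpg => straight_two hr he hf hg hef hpn hp.1 hp.2 hpg

/-- The bundle of the crossings assigned to the edge `(a, b)`. -/
noncomputable def bun (G : SimpleGraph V) (u : V) (r : V → ℕ) (z : V × V) : Set ℂ :=
  {q | ∃ x ∈ Icc (3 * (4 : ℝ) ^ r z.1) (4 ^ r z.2 / 2),
    q = Zc x (((4 : ℝ) ^ r z.1 + 4 ^ r z.2) * x - 4 ^ r z.1 * 4 ^ r z.2 + 0) ∧
    ∃ f ∈ G.edgeSet, f ≠ s(z.1, z.2) ∧ q ∈ sarc u r f}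

theorem quad_pos {i j : ℕ} {x : ℝ} (hx : x ∈ Icc (3 * (4 : ℝ) ^ i) (4 ^ j / 2)) :
    x ^ 2 < ((4 : ℝ) ^ i + 4 ^ j) * x - 4 ^ i * 4 ^ j + 0 := by
  have hi : (0 : ℝ) < 4 ^ i := by positivity
  have hj : (0 : ℝ) < 4 ^ j := by positivity
  have h1 : 0 < (x - 4 ^ i) * (4 ^ j - x) :=
    mul_pos (by linarith [hx.1]) (by linarith [hx.2])
  linarith

theorem bun_isBundled [Finite V] (hr : ∀ a b, a ≠ u → b ≠ u → r a = r b → a = b) {z : V × V}
    (ha : z.1 ≠ u) (hb : z.2 ≠ u) (hadj : G.Adj z.1 z.2) (hlong : r z.1 + 2 ≤ r z.2)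
    (hne : (bun G u r z).Nonempty) : (straight G u r hr).IsBundledCrossing (bun G u r z) := by
  have hcl : ∀ f ∈ G.edgeSet, IsClosed ((straight G u r hr).arc f) := by
    intro f _
    induction f using Sym2.ind with
    | _ c d =>
      change IsClosed (segment ℝ (spos u r c) (spos u r d))
      rw [← ch_image]
      exact (isCompact_Icc.image (ch_continuous _ _)).isClosed
  set i := r z.1 with hi
  set j := r z.2 with hj
  have hij : i < j := by omega
  have h16 : 16 * (4 : ℝ) ^ i ≤ 4 ^ j := by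
    have : (4 : ℝ) ^ (i + 2) ≤ 4 ^ j := pow_le_pow_right₀ (by norm_num) hlong
    rw [pow_add] at this
    linarith
  have hi0 : (0 : ℝ) < 4 ^ i := by positivity
  set U : Set (ℝ × ℝ) := {w | w.1 ^ 2 < ((4 : ℝ) ^ i + 4 ^ j) * w.1 - 4 ^ i * 4 ^ j + w.2} with hU
  set F : ℝ × ℝ → ℂ := fun w => Zc w.1 (((4 : ℝ) ^ i + 4 ^ j) * w.1 - 4 ^ i * 4 ^ j + w.2) with hF
  refine star (straight G u r hr) (Set.toFinite _) hcl (e := s(z.1, z.2)) hadj
    (F := F) (U := U) ?_ ?_ ?_ ?_ (α := 3 * (4 : ℝ) ^ i) (β := 4 ^ j / 2) ?_ ?_ ?_ ?_ ?_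
  · exact isOpen_lt (by fun_prop) (by fun_prop)
  · exact continuousOn_Zc.comp (f := fun w : ℝ × ℝ =>
      (w.1, ((4 : ℝ) ^ i + 4 ^ j) * w.1 - 4 ^ i * 4 ^ j + w.2)) (by fun_prop) fun w hw => hw
  · intro w hw w' hw' h
    obtain ⟨h1, h2⟩ := Zc_inj hw hw' h
    refine Prod.ext h1 ?_
    rw [h1] at h2
    linarith
  · intro w hw
    exact norm_Zc hw
  · linarith
  · intro x hx
    exact quad_pos hx
  · intro w hw
    change Zc _ _ ∈ sarc u r s(z.1, z.2) ↔ _
    rw [chord_iff ha hb hij hw]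
    constructor <;> intro h <;> linarith
  · intro f hf hfe x hx hfx
    have hq := quad_pos hx
    have hex : Zc x (((4 : ℝ) ^ i + 4 ^ j) * x - 4 ^ i * 4 ^ j + 0) ∈ sarc u r s(z.1, z.2) := by
      rw [chord_iff ha hb hij hq, add_zero]
    rcases other_edge hr ha hb hij hq hex hf hfe hfx with
      ⟨v, hv, -, rfl, h1, h2, h3⟩ | ⟨c, d, hc, hd, hcd, -, rfl, h0, h1⟩
    · have h4 := four_pow_le h2
      have h5 := four_pow_le h3
      refine ⟨⟨by linarith, by linarith⟩, 0, fun w hw => ?_⟩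
      change Zc _ _ ∈ sarc u r s(u, v) ↔ _
      rw [spoke_iff hv hw, zero_mul, add_zero, h1]
    · rcases h1 with h1 | h1
      · have h4 := four_pow_le h1.1
        have h5 := four_pow_le h1.2.1
        have h6 := four_pow_le h1.2.2.1
        have hD : 0 < (4 : ℝ) ^ r c + 4 ^ r d - 4 ^ i - 4 ^ j := by linarith
        refine ⟨⟨by linarith [h1.2.2.2.1], by linarith [h1.2.2.2.2]⟩,
          1 / ((4 : ℝ) ^ r c + 4 ^ r d - 4 ^ i - 4 ^ j), fun w hw => ?_⟩
        change Zc _ _ ∈ sarc u r s(c, d) ↔ _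
        rw [chord_iff hc hd hcd hw]
        have h7 : w.1 = x + 1 / ((4 : ℝ) ^ r c + 4 ^ r d - 4 ^ i - 4 ^ j) * w.2 ↔
            (w.1 - x) * ((4 : ℝ) ^ r c + 4 ^ r d - 4 ^ i - 4 ^ j) = w.2 := by
          rw [← sub_eq_iff_eq_add', one_div, inv_mul_eq_div, eq_div_iff hD.ne']
        rw [h7]
        constructor <;> intro h8 <;> linarith
      · exfalso
        linarith [hx.1, h1.2.2.2.2]
  · obtain ⟨q, x, hx, rfl, f, hf, hfe, hfx⟩ := hne
    exact ⟨x, hx, f, hf, hfe, hfx⟩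

theorem bun_disjoint (hr : ∀ a b, a ≠ u → b ≠ u → r a = r b → a = b) {z z' : V × V}
    (ha : z.1 ≠ u) (hb : z.2 ≠ u) (hij : r z.1 < r z.2) (ha' : z'.1 ≠ u) (hb' : z'.2 ≠ u)
    (hij' : r z'.1 < r z'.2) (hne : z ≠ z') : Disjoint (bun G u r z) (bun G u r z') := by
  rw [Set.disjoint_left]
  rintro q ⟨x, hx, rfl, -⟩ ⟨x', hx', h, -⟩
  obtain ⟨h1, h2⟩ := Zc_inj (quad_pos hx) (quad_pos hx') h
  subst h1
  have hq := quad_pos hx
  rw [add_zero, add_zero] at h2
  rw [add_zero] at hq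
  have hne' : ¬ (r z.1 = r z'.1 ∧ r z.2 = r z'.2) := by
    rintro ⟨h3, h4⟩
    exact hne (Prod.ext (hr _ _ ha ha' h3) (hr _ _ hb hb' h4))
  have h3 : (0 : ℝ) < 4 ^ r z.1 := by positivity
  have h4 : (0 : ℝ) < 4 ^ r z'.1 := by positivity
  rcases le_total (r z.1) (r z'.1) with h5 | h5
  · have := (chord_chord hij hij' hne' h5 hq rfl h2).2.2.2.2
    linarith [hx'.1]
  · have := (chord_chord hij' hij (fun h6 => hne' ⟨h6.1.symm, h6.2.symm⟩) h5 hq h2 rfl).2.2.2.2
    linarith [hx.1]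

theorem bun_sub (hr : ∀ a b, a ≠ u → b ≠ u → r a = r b → a = b) {z : V × V}
    (ha : z.1 ≠ u) (hb : z.2 ≠ u) (hadj : G.Adj z.1 z.2) (hij : r z.1 < r z.2) :
    bun G u r z ⊆ (straight G u r hr).crossings := by
  rintro q ⟨x, hx, rfl, f, hf, hfe, hfx⟩
  have hq := quad_pos hx
  refine ⟨norm_Zc hq, f, hf, s(z.1, z.2), hadj, hfe, hfx, ?_⟩
  change _ ∈ sarc u r s(z.1, z.2)
  rw [chord_iff ha hb hij hq, add_zero]

/-- A crossing on a chord belongs to some bundle. -/
theorem mem_bun (hr : ∀ a b, a ≠ u → b ≠ u → r a = r b → a = b) {a b : V} (ha : a ≠ u)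
    (hb : b ≠ u) (hab : r a < r b) (hadj : G.Adj a b) {x y : ℝ} (h : x ^ 2 < y)
    (he : Zc x y ∈ sarc u r s(a, b)) {g : Sym2 V} (hg : g ∈ G.edgeSet) (hge : g ≠ s(a, b))
    (hgx : Zc x y ∈ sarc u r g) : ∃ z : V × V, z.1 ≠ u ∧ z.2 ≠ u ∧ G.Adj z.1 z.2 ∧
      r z.1 + 2 ≤ r z.2 ∧ Zc x y ∈ bun G u r z := by
  have he' := (chord_iff ha hb hab h).1 he
  rcases other_edge hr ha hb hab h he hg hge hgx with
    ⟨v, hv, -, rfl, h1, h2, h3⟩ | ⟨c, d, hc, hd, hcd, hadj', rfl, h0, h1⟩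
  · refine ⟨(a, b), ha, hb, hadj, by simp only; omega, x, ?_, by simp only; rw [he', add_zero],
      s(u, v), hg, hge, hgx⟩
    have h4 := four_pow_le h2
    have h5 := four_pow_le h3
    have h6 : (0 : ℝ) < 4 ^ r a := by positivity
    have h7 : (0 : ℝ) < 4 ^ r v := by positivity
    simp only [mem_Icc]
    constructor <;> linarith
  · rcases h1 with h1 | h1
    · refine ⟨(a, b), ha, hb, hadj, by simp only; omega, x, ?_, by simp only; rw [he', add_zero],
        s(c, d), hg, hge, hgx⟩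
      have h4 := four_pow_le h1.1
      have h5 := four_pow_le h1.2.1
      have h6 : (0 : ℝ) < 4 ^ r a := by positivity
      have h7 : (0 : ℝ) < 4 ^ r c := by positivity
      simp only [mem_Icc]
      constructor
      · linarith [h1.2.2.2.1]
      · linarith [h1.2.2.2.2]
    · refine ⟨(c, d), hc, hd, hadj', by simp only; omega, x, ?_, by simp only; rw [h0, add_zero],
        s(a, b), hadj, hge.symm, he⟩
      have h4 := four_pow_le h1.1
      have h5 := four_pow_le h1.2.1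
      have h6 : (0 : ℝ) < 4 ^ r a := by positivity
      have h7 : (0 : ℝ) < 4 ^ r c := by positivity
      simp only [mem_Icc]
      constructor
      · linarith [h1.2.2.2.1]
      · linarith [h1.2.2.2.2]

open Classical in
/-- **The upper bound.** -/
theorem upper [Fintype V] (G : SimpleGraph V) (u : V) (r : V → ℕ)
    (hr : ∀ a b, a ≠ u → b ≠ u → r a = r b → a = b) :
    bundledCrossingNumber G ≤ ((Finset.univ.filter fun z : V × V => z.1 ≠ u ∧ z.2 ≠ u ∧
      G.Adj z.1 z.2 ∧ r z.1 + 2 ≤ r z.2).card : ℕ) := by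
  rw [bundledCrossingNumber_le_iff]
  set L := Finset.univ.filter fun z : V × V => z.1 ≠ u ∧ z.2 ≠ u ∧
      G.Adj z.1 z.2 ∧ r z.1 + 2 ≤ r z.2 with hL
  refine ⟨straight G u r hr, (L.image (bun G u r)).filter (fun X => X.Nonempty), ?_, ⟨?_, ?_, ?_⟩, ?_⟩
  · exact fun e he f hf hef => straight_simple hr he hf hef
  · intro X hX
    rw [Finset.mem_filter, Finset.mem_image] at hX
    obtain ⟨⟨z, hz, rfl⟩, hne⟩ := hX
    simp only [hL, Finset.mem_filter, Finset.mem_univ, true_and] at hz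
    exact bun_isBundled hr hz.1 hz.2.1 hz.2.2.1 hz.2.2.2 hne
  · intro X hX Y hY hXY
    rw [Finset.mem_filter, Finset.mem_image] at hX hY
    obtain ⟨⟨z, hz, rfl⟩, -⟩ := hX
    obtain ⟨⟨z', hz', rfl⟩, -⟩ := hY
    simp only [hL, Finset.mem_filter, Finset.mem_univ, true_and] at hz hz'
    exact bun_disjoint hr hz.1 hz.2.1 (by omega) hz'.1 hz'.2.1 (by omega)
      (fun h => hXY (by rw [h]))
  · apply Set.Subset.antisymm
    · rintro q ⟨X, hX, hq⟩
      rw [Finset.mem_coe, Finset.mem_filter, Finset.mem_image] at hX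
      obtain ⟨⟨z, hz, rfl⟩, -⟩ := hX
      simp only [hL, Finset.mem_filter, Finset.mem_univ, true_and] at hz
      exact bun_sub hr hz.1 hz.2.1 hz.2.2.1 (by omega) hq
    · rintro q ⟨hqn, e, he, f, hf, hef, hqe, hqf⟩
      have hqe' : q ∈ sarc u r e := hqe
      have hqf' : q ∈ sarc u r f := hqf
      obtain ⟨x, y, h, rfl⟩ := exists_Zc hqn
      have main : ∃ z : V × V, z.1 ≠ u ∧ z.2 ≠ u ∧ G.Adj z.1 z.2 ∧
          r z.1 + 2 ≤ r z.2 ∧ Zc x y ∈ bun G u r z := by
        rcases edge_cases hr he with ⟨v, hv, hadj, rfl⟩ | ⟨a, b, ha, hb, hab, hadj, rfl⟩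
        · rcases edge_cases hr hf with ⟨v', hv', hadj', rfl⟩ | ⟨a, b, ha, hb, hab, hadj', rfl⟩
          · exfalso
            rw [spoke_iff hv h] at hqe'
            rw [spoke_iff hv' h] at hqf'
            exact hef (by rw [hr v v' hv hv' (four_pow_inj (hqe'.symm.trans hqf'))])
          · exact mem_bun hr ha hb hab hadj' h hqf' he hef hqe'
        · exact mem_bun hr ha hb hab hadj h hqe' hf hef.symm hqf'
      obtain ⟨z, h1, h2, h3, h4, h5⟩ := main
      refine ⟨bun G u r z, ?_, h5⟩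
      rw [Finset.mem_coe, Finset.mem_filter, Finset.mem_image]
      refine ⟨⟨z, ?_, rfl⟩, ⟨_, h5⟩⟩
      simp only [hL, Finset.mem_filter, Finset.mem_univ, true_and]
      exact ⟨h1, h2, h3, h4⟩
  · exact (Finset.card_filter_le _ _).trans Finset.card_image_le

end Pool.Agent.Run7.h13
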