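import Pool.Agent.Run7.h13.HGraph
import Pool.Agent.Run7.h13.Alt

/-!
# From a connected state of the switches to an order with few long edges
-/

namespace Pool.Agent.Run7.h13

open Pool.Agent.H679R2

variable {ι : Type}

/-- place in a gadget traversed forwards -/
def off0 (P : Bool) : Fin 4 → ℕ
  | 0 => 1
  | 1 => bif P then 3 else 2
  | 2 => bif P then 2 else 3
  | 3 => 0

/-- place in a gadget -/
def off (b P : Bool) (c : Fin 4) : ℕ := bif b then off0 P c else 3 - off0 P c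

theorem off_le : ∀ b P c, off b P c ≤ 3 := by decide

theorem off_inj : ∀ b P c c', off b P c = off b P c' → c = c' := by decide

theorem off_far_inj : ∀ b P (c c₁ c₂ : Fin 4), c ≠ 3 → loc c c₁ → loc c c₂ →
    (off b P c + 2 ≤ off b P c₁ ∨ off b P c₁ + 2 ≤ off b P c) →
    (off b P c + 2 ≤ off b P c₂ ∨ off b P c₂ + 2 ≤ off b P c) → c₁ = c₂ := by decide

theorem off_far_exit : ∀ b P (c c₁ : Fin 4), c ≠ 0 → c ≠ 3 → loc c c₁ →
    (off b P c + 2 ≤ off b P c₁ ∨ off b P c₁ + 2 ≤ off b P c) →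
    (c = 1 ∧ P = true) ∨ (c = 2 ∧ P = false) := by decide

theorem off_pend : ∀ b P (c : Fin 4), loc 3 c →
    ¬ (off b P 3 + 2 ≤ off b P c ∨ off b P c + 2 ≤ off b P 3) := by decide

variable [DecidableEq ι]

/-- The rank of a vertex. -/
def rk (ρ : ι × Fin 12 → ℕ) (S : ι × Fin 12 → ι × Fin 12) (x : (ι × Fin 12) × Fin 4) : ℕ :=
  4 * ρ x.1 + off (decide (ρ x.1 % 2 = 0)) (decide (S x.1 = N1 x.1)) x.2

variable {ρ : ι × Fin 12 → ℕ} {S : ι × Fin 12 → ι × Fin 12} {s : Sys ι} {p0 : ι × Fin 12}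

/-- distance at least two -/
def far (ρ : ι × Fin 12 → ℕ) (S : ι × Fin 12 → ι × Fin 12) (x y : (ι × Fin 12) × Fin 4) : Prop :=
  rk ρ S x + 2 ≤ rk ρ S y ∨ rk ρ S y + 2 ≤ rk ρ S x

theorem rk_inj (hρ : Function.Injective ρ) : Function.Injective (rk ρ S) := by
  rintro ⟨v, c⟩ ⟨w, d⟩ h
  unfold rk at h
  simp only at h
  have h1 := off_le (decide (ρ v % 2 = 0)) (decide (S v = N1 v)) c
  have h2 := off_le (decide (ρ w % 2 = 0)) (decide (S w = N1 w)) d
  have h3 : v = w := hρ (by omega)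
  subst h3
  have h4 := off_inj _ _ c d (by omega : off (decide (ρ v % 2 = 0)) (decide (S v = N1 v)) c = _)
  rw [h4]

theorem not_far_M (hρM : ∀ v, v ≠ p0 → s.M v ≠ p0 → (ρ v % 2 = 0 → ρ (s.M v) + 1 = ρ v) ∧
    (ρ v % 2 = 1 → ρ (s.M v) = ρ v + 1)) {v : ι × Fin 12} (h1 : v ≠ p0) (h2 : s.M v ≠ p0) :
    ¬ far ρ S (v, 3) (s.M v, 3) := by
  unfold far rk
  simp only
  have o1 : ∀ P, off true P 3 = 0 := by decide
  have o2 : ∀ P, off false P 3 = 3 := by decide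
  rcases Nat.mod_two_eq_zero_or_one (ρ v) with h | h
  · have h3 := (hρM v h1 h2).1 h
    have h4 : ¬ ρ (s.M v) % 2 = 0 := by omega
    rw [decide_eq_true h, decide_eq_false h4, o1, o2]
    omega
  · have h3 := (hρM v h1 h2).2 h
    have h4 : ρ (s.M v) % 2 = 0 := by omega
    have h5 : ¬ ρ v % 2 = 0 := by omega
    rw [decide_eq_true h4, decide_eq_false h5, o1, o2]
    omega

theorem not_far_exit (hS : Function.Involutive S) (hSn : ∀ v, S v = N1 v ∨ S v = N2 v)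
    (hρ0 : ∀ v, ρ v % 2 = 0 → ρ (S v) = ρ v + 1) (hρ1 : ∀ v, ρ v % 2 = 1 → ρ (S v) + 1 = ρ v)
    {v : ι × Fin 12} (h : S v = N1 v) : ¬ far ρ S (v, 1) (N1 v, 2) := by
  have hw : S (N1 v) = v := by rw [← h, hS]
  have hw' : ¬ S (N1 v) = N1 (N1 v) := by
    rw [hw]
    exact fun h => N1_N1 v h.symm
  unfold far rk
  simp only
  have o1 : off true true 1 = 3 := by decide
  have o2 : off false true 1 = 0 := by decide
  have o3 : off true false 2 = 3 := by decide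
  have o4 : off false false 2 = 0 := by decide
  rw [decide_eq_true h, decide_eq_false hw']
  rcases Nat.mod_two_eq_zero_or_one (ρ v) with h1 | h1
  · have h3 := hρ0 v h1
    rw [h] at h3
    have h4 : ¬ ρ (N1 v) % 2 = 0 := by omega
    rw [decide_eq_true h1, decide_eq_false h4, o1, o4]
    omega
  · have h3 := hρ1 v h1
    rw [h] at h3
    have h4 : ρ (N1 v) % 2 = 0 := by omega
    have h5 : ¬ ρ v % 2 = 0 := by omega
    rw [decide_eq_true h4, decide_eq_false h5, o2, o3]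
    omega

theorem not_far_exit' (hS : Function.Involutive S) (hSn : ∀ v, S v = N1 v ∨ S v = N2 v)
    (hρ0 : ∀ v, ρ v % 2 = 0 → ρ (S v) = ρ v + 1) (hρ1 : ∀ v, ρ v % 2 = 1 → ρ (S v) + 1 = ρ v)
    {v : ι × Fin 12} (h : ¬ S v = N1 v) : ¬ far ρ S (v, 2) (N2 v, 1) := by
  have h2 : S v = N2 v := (hSn v).resolve_left h
  have h3 : S (N2 v) = N1 (N2 v) := by rw [N1_N2, ← h2, hS]
  have h4 := not_far_exit hS hSn hρ0 hρ1 h3
  rw [N1_N2] at h4
  intro h5
  exact h4 (Or.symm h5)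

/-- All long edges join triangle vertices. -/
theorem far_mem (hρM : ∀ v, v ≠ p0 → s.M v ≠ p0 → (ρ v % 2 = 0 → ρ (s.M v) + 1 = ρ v) ∧
    (ρ v % 2 = 1 → ρ (s.M v) = ρ v + 1)) {x y : (ι × Fin 12) × Fin 4} (hxy : (HG s p0).Adj x y)
    (hf : far ρ S x y) : x.2 ≠ 3 := by
  obtain ⟨v, c⟩ := x
  obtain ⟨w, d⟩ := y
  intro hc
  simp only at hc
  subst hc
  rcases hxy with ⟨h1, h2⟩ | ⟨h1, h2, h3, h4, h5⟩ | ⟨h1, h2, h3⟩ | ⟨h1, h2, h3⟩
  · simp only at h1 h2
    subst h1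
    refine off_pend (decide (ρ v % 2 = 0)) (decide (S v = N1 v)) d h2 ?_
    unfold far rk at hf
    simp only at hf
    omega
  · simp only at h2 h3 h4 h5
    subst h2 h3
    exact not_far_M hρM h4 h5 hf
  · exact absurd h1 (by decide : (3 : Fin 4) ≠ 1)
  · exact absurd h1 (by decide : (3 : Fin 4) ≠ 2)

/-- Neighbours of a triangle vertex. -/
theorem nbr_cases {x y : (ι × Fin 12) × Fin 4} (hx : x.2 ≠ 3) (hxy : (HG s p0).Adj x y) :
    (y.1 = x.1 ∧ loc x.2 y.2) ∨ (x.2 ≠ 0 ∧ y = ext x) := by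
  obtain ⟨v, c⟩ := x
  obtain ⟨w, d⟩ := y
  rcases hxy with ⟨h1, h2⟩ | ⟨h1, h2, h3, h4, h5⟩ | ⟨h1, h2, h3⟩ | ⟨h1, h2, h3⟩
  · exact Or.inl ⟨h1.symm, h2⟩
  · exact absurd h1 hx
  · simp only at h1 h2 h3
    subst h1 h2 h3
    exact Or.inr ⟨(by decide : (1 : Fin 4) ≠ 0), rfl⟩
  · simp only at h1 h2 h3
    subst h1 h2
    refine Or.inr ⟨(by decide : (2 : Fin 4) ≠ 0), ?_⟩
    have : ext (v, (2 : Fin 4)) = (N2 v, 1) := rfl
    rw [this, h3, N2_N1]

/-- Every vertex is on at most one long edge. -/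
theorem far_unique (hS : Function.Involutive S) (hSn : ∀ v, S v = N1 v ∨ S v = N2 v)
    (hρ0 : ∀ v, ρ v % 2 = 0 → ρ (S v) = ρ v + 1) (hρ1 : ∀ v, ρ v % 2 = 1 → ρ (S v) + 1 = ρ v)
    {x y z : (ι × Fin 12) × Fin 4} (hx : x.2 ≠ 3) (hxy : (HG s p0).Adj x y)
    (hxz : (HG s p0).Adj x z) (hfy : far ρ S x y) (hfz : far ρ S x z) : y = z := by
  have mixed : ∀ w, w.1 = x.1 → loc x.2 w.2 → far ρ S x w → x.2 ≠ 0 → ¬ far ρ S x (ext x) := by
    rintro ⟨w, d⟩ h1 h2 h3 h4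
    obtain ⟨v, c⟩ := x
    simp only at h1
    subst h1
    have h5 := off_far_exit (decide (ρ w % 2 = 0)) (decide (S w = N1 w)) c d h4 hx h2 (by
      unfold far rk at h3
      simp only at h3
      omega)
    rcases h5 with ⟨rfl, h5⟩ | ⟨rfl, h5⟩
    · exact not_far_exit hS hSn hρ0 hρ1 (of_decide_eq_true h5)
    · exact not_far_exit' hS hSn hρ0 hρ1 (of_decide_eq_false h5)
  rcases nbr_cases hx hxy with ⟨h1, h2⟩ | ⟨h1, h2⟩ <;>
    rcases nbr_cases hx hxz with ⟨h3, h4⟩ | ⟨h3, h4⟩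
  · obtain ⟨v, c⟩ := x
    obtain ⟨w, d⟩ := y
    obtain ⟨w', d'⟩ := z
    simp only at h1 h3
    subst h1 h3
    have := off_far_inj (decide (ρ w' % 2 = 0)) (decide (S w' = N1 w')) c d d' hx h2 h4 (by
      unfold far rk at hfy
      simp only at hfy
      omega) (by
      unfold far rk at hfz
      simp only at hfz
      omega)
    rw [this]
  · rw [h4] at hfz
    exact absurd hfz (mixed y h1 h2 hfy h3)
  · rw [h2] at hfy
    exact absurd hfy (mixed z h3 h4 hfz h1)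
  · rw [h2, h4]

open Classical in
theorem card_long [Fintype ι] (hS : Function.Involutive S) (hSn : ∀ v, S v = N1 v ∨ S v = N2 v)
    (hρ0 : ∀ v, ρ v % 2 = 0 → ρ (S v) = ρ v + 1) (hρ1 : ∀ v, ρ v % 2 = 1 → ρ (S v) + 1 = ρ v)
    (hρM : ∀ v, v ≠ p0 → s.M v ≠ p0 → (ρ v % 2 = 0 → ρ (s.M v) + 1 = ρ v) ∧
      (ρ v % 2 = 1 → ρ (s.M v) = ρ v + 1)) :
    (Finset.univ.filter fun z : ((ι × Fin 12) × Fin 4) × ((ι × Fin 12) × Fin 4) =>
      (HG s p0).Adj z.1 z.2 ∧ rk ρ S z.1 + 2 ≤ rk ρ S z.2).card ≤ 18 * Fintype.card ι := by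
  set L := Finset.univ.filter fun z : ((ι × Fin 12) × Fin 4) × ((ι × Fin 12) × Fin 4) =>
      (HG s p0).Adj z.1 z.2 ∧ rk ρ S z.1 + 2 ≤ rk ρ S z.2 with hL
  have hmem : ∀ z, z ∈ L ↔ (HG s p0).Adj z.1 z.2 ∧ rk ρ S z.1 + 2 ≤ rk ρ S z.2 := by
    intro z
    simp [hL]
  have h1 : (L.image Prod.fst).card = L.card := by
    refine Finset.card_image_of_injOn ?_
    rintro ⟨x, y⟩ hz ⟨x', y'⟩ hz' h
    have hz := (hmem _).1 hz
    have hz' := (hmem _).1 hz'
    simp only at h hz hz'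
    subst h
    rw [far_unique hS hSn hρ0 hρ1 (far_mem hρM hz.1 (Or.inl hz.2)) hz.1 hz'.1 (Or.inl hz.2)
      (Or.inl hz'.2)]
  have h2 : (L.image Prod.snd).card = L.card := by
    refine Finset.card_image_of_injOn ?_
    rintro ⟨x, y⟩ hz ⟨x', y'⟩ hz' h
    have hz := (hmem _).1 hz
    have hz' := (hmem _).1 hz'
    simp only at h hz hz'
    subst h
    rw [far_unique hS hSn hρ0 hρ1 (far_mem hρM hz.1.symm (Or.inr hz.2)) hz.1.symm hz'.1.symm
      (Or.inr hz.2) (Or.inr hz'.2)]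
  have h3 : Disjoint (L.image Prod.fst) (L.image Prod.snd) := by
    rw [Finset.disjoint_left]
    intro x hx hx'
    rw [Finset.mem_image] at hx hx'
    obtain ⟨⟨x, y⟩, hz, rfl⟩ := hx
    obtain ⟨⟨y', x'⟩, hz', h⟩ := hx'
    have hz := (hmem _).1 hz
    have hz' := (hmem _).1 hz'
    simp only at h hz hz'
    subst h
    have := far_unique hS hSn hρ0 hρ1 (far_mem hρM hz.1 (Or.inl hz.2)) hz.1 hz'.1.symm
      (Or.inl hz.2) (Or.inr hz'.2)
    subst this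
    omega
  have h4 : L.image Prod.fst ∪ L.image Prod.snd ⊆
      (Finset.univ : Finset (ι × Fin 12)) ×ˢ (Finset.univ.filter fun c : Fin 4 => c ≠ 3) := by
    intro x hx
    rw [Finset.mem_product]
    refine ⟨Finset.mem_univ _, ?_⟩
    rw [Finset.mem_filter]
    refine ⟨Finset.mem_univ _, ?_⟩
    rw [Finset.mem_union, Finset.mem_image, Finset.mem_image] at hx
    rcases hx with ⟨z, hz, rfl⟩ | ⟨z, hz, rfl⟩
    · have hz := (hmem _).1 hz
      exact far_mem hρM hz.1 (Or.inl hz.2)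
    · have hz := (hmem _).1 hz
      exact far_mem hρM hz.1.symm (Or.inr hz.2)
  have h5 := Finset.card_le_card h4
  rw [Finset.card_union_of_disjoint h3, h1, h2, Finset.card_product, Finset.card_univ,
    Fintype.card_prod, Fintype.card_fin] at h5
  have h6 : (Finset.univ.filter fun c : Fin 4 => c ≠ 3).card = 3 := by decide
  rw [h6] at h5
  omega

/-- From a connected state of the switches to an order with at most `18 N` long edges. -/
theorem exists_rank [Fintype ι] (s : Sys ι) (p0 : ι × Fin 12) {y z : ι → Bool}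
    (hc : ∀ a b : ι × Fin 12, Conn s.M (Sys.S y z) a b) :
    ∃ r : (ι × Fin 12) × Fin 4 → ℕ, Function.Injective r ∧ ∀ L : Finset (((ι × Fin 12) × Fin 4) ×
      ((ι × Fin 12) × Fin 4)), (∀ z ∈ L, (HG s p0).Adj z.1 z.2 ∧ r z.1 + 2 ≤ r z.2) →
      L.card ≤ 18 * Fintype.card ι := by
  classical
  obtain ⟨ρ, hρ, hρ0, hρ1, hρM⟩ := exists_rho s.M_invol s.M_ne (Sys.S_invol y z) (Sys.S_ne y z)
    p0 hc
  have hSn : ∀ v : ι × Fin 12, Sys.S y z v = N1 v ∨ Sys.S y z v = N2 v := by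
    rintro ⟨k, t⟩
    rcases sig_nb (y k) (z k) t with h | h
    · left
      unfold Sys.S N1
      simp only [h]
    · right
      unfold Sys.S N2
      simp only [h]
  refine ⟨rk ρ (Sys.S y z), rk_inj hρ, fun L hL => ?_⟩
  refine le_trans (Finset.card_le_card fun z hz => ?_)
    (card_long (s := s) (p0 := p0) (Sys.S_invol y z) hSn hρ0 hρ1 hρM)
  rw [Finset.mem_filter]
  exact ⟨Finset.mem_univ _, hL z hz⟩

end Pool.Agent.Run7.h13
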