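import Pool.Agent.Run7.h13.Lower
import Pool.Agent.Run7.h13.Upper
import Pool.Agent.Run7.h13.Yes
import Pool.Agent.H679R2.Oct.Red

/-!
# The circular bundled crossing number of the cone of the graph of a system
-/

namespace Pool.Agent.Run7.h13

open Pool.Agent.H679R2

theorem cone_iff {V : Type} [Fintype V] (G : SimpleGraph V) (u : V) (hu : ∀ v, v ≠ u → G.Adj u v)
    {ι : Type} [Fintype ι] [DecidableEq ι] (s : Sys ι) (p0 : ι × Fin 12)
    (f : (ι × Fin 12) × Fin 4 → V) (hf : Function.Injective f) (hfu : ∀ x, f x ≠ u)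
    (hfs : ∀ v, v ≠ u → ∃ x, f x = v) (hG : G.comap f = HG s p0) :
    bundledCrossingNumber G ≤ ((18 * Fintype.card ι : ℕ) : ℕ∞) ↔
      ∃ y z : ι → Bool, ∀ a b : ι × Fin 12, Conn s.M (Sys.S y z) a b := by
  classical
  constructor
  · intro h
    rw [bundledCrossingNumber_le_iff] at h
    obtain ⟨Γ, P, hΓ, hP, hk⟩ := h
    obtain ⟨p, hp⟩ := rank_bound Γ hu hΓ hP hk f hf hfu
    rw [hG, Nat.card_eq_fintype_card] at hp
    set T : Finset ((ι × Fin 12) × Fin 4) :=
      (Finset.univ : Finset (ι × Fin 12)) ×ˢ (Finset.univ.filter fun c : Fin 4 => c ≠ 3) with hT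
    have hmem : ∀ x, x ∈ T ↔ x ∈ TS ι := by
      intro x
      simp only [hT, Finset.mem_product, Finset.mem_filter, Finset.mem_univ, true_and, TS,
        Set.mem_ofPred_eq]
    have hTc : T.card = 36 * Fintype.card ι := by
      rw [hT, Finset.card_product, Finset.card_univ, Fintype.card_prod, Fintype.card_fin]
      have h6 : (Finset.univ.filter fun c : Fin 4 => c ≠ 3).card = 3 := by decide
      rw [h6]
      ring
    have ht := tight_of_classes (HG s p0) p hp T (fun v hv => hasLong ((hmem v).1 hv)) (by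
      rw [hTc]
      omega)
    have hTS : (T : Set ((ι × Fin 12) × Fin 4)) = TS ι := by
      ext x
      rw [Finset.mem_coe, hmem]
    rw [hTS] at ht
    exact conn_of_tight ht
  · rintro ⟨y, z, hc⟩
    obtain ⟨r, hr, hL⟩ := exists_rank s p0 hc
    set r' : V → ℕ := Function.extend f r (fun _ => 0) with hr'
    have hr'f : ∀ x, r' (f x) = r x := fun x => hf.extend_apply r _ x
    have hinj : ∀ a b, a ≠ u → b ≠ u → r' a = r' b → a = b := by
      intro a b ha hb hab
      obtain ⟨x, rfl⟩ := hfs a ha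
      obtain ⟨x', rfl⟩ := hfs b hb
      rw [hr'f, hr'f] at hab
      rw [hr hab]
    refine (upper G u r' hinj).trans ?_
    set L := Finset.univ.filter fun z : ((ι × Fin 12) × Fin 4) × ((ι × Fin 12) × Fin 4) =>
      (HG s p0).Adj z.1 z.2 ∧ r z.1 + 2 ≤ r z.2 with hLdef
    have h1 : L.card ≤ 18 * Fintype.card ι := hL L fun z hz => by simpa [hLdef] using hz
    have h2 : (Finset.univ.filter fun z : V × V => z.1 ≠ u ∧ z.2 ≠ u ∧
        G.Adj z.1 z.2 ∧ r' z.1 + 2 ≤ r' z.2) ⊆ L.image (Prod.map f f) := by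
      rintro ⟨a, b⟩ hz
      rw [Finset.mem_filter] at hz
      obtain ⟨-, ha, hb, hab, hlt⟩ := hz
      simp only at ha hb hab hlt
      obtain ⟨x, rfl⟩ := hfs a ha
      obtain ⟨x', rfl⟩ := hfs b hb
      rw [Finset.mem_image]
      refine ⟨(x, x'), ?_, rfl⟩
      rw [hr'f, hr'f] at hlt
      have hadj : (G.comap f).Adj x x' := hab
      rw [hG] at hadj
      simp only [hLdef, Finset.mem_filter, Finset.mem_univ, true_and]
      exact ⟨hadj, hlt⟩
    have h3 := (Finset.card_le_card h2).trans (Finset.card_image_le.trans h1)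
    exact_mod_cast h3

/-- Connected states of the switches and satisfying assignments. -/
theorem conn_iff_sat (o : List (ℕ × Bool × ℕ)) (h0 : 0 < o.length) :
    (∃ y z : Fin o.length → Bool, ∀ a b, Conn (sysOf o).M (Sys.S y z) a b) ↔
      ∃ τ : ℕ → Bool, ∀ x ∈ o, ∃ y ∈ o, y.1 = x.1 ∧ τ y.2.2 = y.2.1 := by
  have : Nonempty (Fin o.length) := ⟨⟨0, h0⟩⟩
  constructor
  · rintro ⟨y, z, hc⟩
    refine (sys_ham_iff o h0 1 le_rfl).1 ?_
    exact exists_hamCycle ((sysOf o).G'_le 1 y z) ((sysOf o).G'_ncard 1 le_rfl y z)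
      ((sysOf o).G'_connected 1 y z hc)
  · have hv : ∀ k : Fin o.length, (vK o).getD k.val 0 = (o[k.val]).2.2 := fun k =>
      getD_map o _ _ k.isLt _
    have hc : ∀ k : Fin o.length, (cK o).getD k.val 0 = (o[k.val]).1 := fun k =>
      getD_map o _ _ k.isLt _
    have hs : ∀ k : Fin o.length, (sysOf o).sg k = (o[k.val]).2.1 := fun k =>
      getD_map o _ _ k.isLt _
    have hz : ∀ k : Fin o.length, (zK o).getD k.val 0 = 0 := fun k => getD_map o _ _ k.isLt _
    rintro ⟨τ, hτ⟩
    refine ⟨fun k => τ (o[k.val]).2.2 == (o[k.val]).2.1, (sysOf o).exists_conn _ ?_ ?_ ?_⟩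
    · intro k
      have h1 : ∀ k : Fin o.length, ((τ (o[k.val]).2.2 == (o[k.val]).2.1) == (sysOf o).sg k) =
          τ (o[k.val]).2.2 := by
        intro k
        rw [hs]
        cases τ (o[k.val]).2.2 <;> cases (o[k.val]).2.1 <;> rfl
      rw [h1, h1]
      have h2 := nxt_key o.length (fun i => (vK o).getD i 0) k
      simp only [hv] at h2
      change τ (o[(nxt o.length (fun i => (vK o).getD i 0) k).val]).2.2 = _
      rw [h2]
    · intro k
      obtain ⟨y, hy, hy1, hy2⟩ := hτ (o[k.val]) (List.getElem_mem _)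
      obtain ⟨i, hi, rfl⟩ := List.mem_iff_getElem.1 hy
      refine ⟨⟨i, hi⟩, by simp [hy2], ?_⟩
      obtain ⟨n, hn, hn'⟩ := nxt_orbit o.length (fun i => (cK o).getD i 0) _ ⟨i, hi⟩ k
        (by simp only [hc]; have := hc ⟨i, hi⟩; simp only at this; rw [this, hy1]) rfl
      obtain ⟨m, rfl⟩ : ∃ m, n = m + 1 := ⟨n - 1, by omega⟩
      rw [Function.iterate_succ_apply] at hn'
      exact ⟨m, hn'⟩
    · intro j k
      obtain ⟨n, -, hn⟩ := nxt_orbit o.length (fun i => (zK o).getD i 0) _ j k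
        (by simp only [hz]) rfl
      exact ⟨n, hn⟩

end Pool.Agent.Run7.h13
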