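import Pool.Agent.Run7.h13.Wind
import Pool.Agent.Run7.h13.Defs

/-!
# Two arcs of the disk: the parity of the outer loop
-/

namespace Pool.Agent.Run7.h13

open Set Complex ComplexConjugate

theorem re_mul_conj_lt {w B : ℂ} (hw : ‖w‖ ≤ 1) (hB : ‖B‖ = 1) (hne : w ≠ B) :
    (w * conj B).re < 1 := by
  have h1 : 0 < ‖w - B‖ ^ 2 := by
    have : 0 < ‖w - B‖ := norm_pos_iff.2 (sub_ne_zero.2 hne)
    positivity
  have h2 : ‖w‖ ^ 2 ≤ 1 := by
    have := norm_nonneg w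
    nlinarith
  have h3 : ‖B‖ ^ 2 = 1 := by rw [hB]; norm_num
  rw [← Complex.normSq_eq_norm_sq] at h1 h2 h3
  simp only [Complex.normSq_apply, Complex.sub_re, Complex.sub_im, Complex.mul_re, Complex.conj_re,
    Complex.conj_im] at *
  nlinarith

theorem conv_ne {w w' B : ℂ} (hw : ‖w‖ ≤ 1) (hw' : ‖w'‖ ≤ 1) (hB : ‖B‖ = 1) (hne : w ≠ B)
    (hne' : w' ≠ B) {u : ℝ} (h0 : 0 ≤ u) (h1 : u ≤ 1) :
    ((1 - u : ℝ) : ℂ) * (w - B) + (u : ℂ) * (w' - B) ≠ 0 := by
  intro h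
  have e1 := re_mul_conj_lt hw hB hne
  have e2 := re_mul_conj_lt hw' hB hne'
  have h3 : ‖B‖ ^ 2 = 1 := by rw [hB]; norm_num
  rw [← Complex.normSq_eq_norm_sq] at h3
  have h4 : (((1 - u : ℝ) : ℂ) * (w - B) + (u : ℂ) * (w' - B)) * conj B = 0 := by rw [h, zero_mul]
  have h5 := congrArg Complex.re h4
  simp only [Complex.normSq_apply, Complex.sub_re, Complex.sub_im, Complex.mul_re, Complex.conj_re,
    Complex.conj_im, Complex.add_re, Complex.add_im, Complex.mul_im, Complex.ofReal_re,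
    Complex.ofReal_im, Complex.zero_re] at *
  rcases eq_or_lt_of_le h0 with h6 | h6
  · rw [← h6] at h5
    nlinarith
  · rcases eq_or_lt_of_le h1 with h7 | h7
    · rw [h7] at h5
      nlinarith
    · have h8 : 0 < 1 - u := by linarith
      nlinarith [mul_lt_mul_of_pos_left e1 h8, mul_lt_mul_of_pos_left e2 h6]

/-- A parametrised arc of the disk. -/
structure DArc (γ : ℝ → ℂ) : Prop where
  cont : ContinuousOn γ (Icc 0 1)
  inj : InjOn γ (Icc 0 1)
  inner : ∀ t ∈ Ioo (0 : ℝ) 1, ‖γ t‖ < 1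
  norm0 : ‖γ 0‖ = 1
  norm1 : ‖γ 1‖ = 1

namespace DArc

variable {γ : ℝ → ℂ} (h : DArc γ)

include h

theorem norm_le {t : ℝ} (ht : t ∈ Icc (0 : ℝ) 1) : ‖γ t‖ ≤ 1 := by
  rcases eq_or_lt_of_le ht.1 with h1 | h1
  · rw [← h1, h.norm0]
  · rcases eq_or_lt_of_le ht.2 with h2 | h2
    · rw [h2, h.norm1]
    · exact (h.inner t ⟨h1, h2⟩).le

theorem ext_cont : Continuous fun t => γ (clip t) :=
  h.cont.comp_continuous clip_continuous clip_mem

theorem ne_of_norm {t : ℝ} (ht : t ∈ Icc (0 : ℝ) 1) {B : ℂ} (hB : ‖B‖ = 1) (h0 : γ 0 ≠ B)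
    (h1 : γ 1 ≠ B) : γ t ≠ B := by
  rcases eq_or_lt_of_le ht.1 with h2 | h2
  · rw [← h2]; exact h0
  · rcases eq_or_lt_of_le ht.2 with h3 | h3
    · rw [h3]; exact h1
    · intro h4
      have := h.inner t ⟨h2, h3⟩
      rw [h4, hB] at this
      exact lt_irrefl _ this

end DArc

/-- The difference of two arcs as a function on the parameter plane. -/
def dif (γ δ : ℝ → ℂ) (z : ℂ) : ℂ := γ (clip z.re) - δ (clip z.im)

theorem dif_cont {γ δ : ℝ → ℂ} (hγ : DArc γ) (hδ : DArc δ) : Continuous (dif γ δ) := by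
  unfold dif
  exact (hγ.ext_cont.comp Complex.continuous_re).sub (hδ.ext_cont.comp Complex.continuous_im)

/-- The centre of the parameter square. -/
noncomputable def cen : ℂ := ⟨1 / 2, 1 / 2⟩

theorem outer_cases (θ : ℝ) : (cen + ex θ).re ≤ 0 ∨ 1 ≤ (cen + ex θ).re ∨ (cen + ex θ).im ≤ 0 ∨
    1 ≤ (cen + ex θ).im := by
  by_contra hc
  push Not at hc
  obtain ⟨h1, h2, h3, h4⟩ := hc
  have h5 : ‖ex θ‖ ^ 2 = 1 := by rw [norm_ex]; norm_num
  rw [← Complex.normSq_eq_norm_sq, Complex.normSq_apply] at h5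
  simp only [cen, Complex.add_re, Complex.add_im] at h1 h2 h3 h4
  nlinarith

theorem par_outer {γ γ' δ δ' : ℝ → ℂ} (hγ : DArc γ) (hγ' : DArc γ') (hδ : DArc δ) (hδ' : DArc δ')
    (e0 : γ 0 = γ' 0) (e1 : γ 1 = γ' 1) (f0 : δ 0 = δ' 0) (f1 : δ 1 = δ' 1)
    (n00 : γ 0 ≠ δ 0) (n01 : γ 0 ≠ δ 1) (n10 : γ 1 ≠ δ 0) (n11 : γ 1 ≠ δ 1) {b : Bool}
    (h : Par (fun θ => dif γ δ (cen + ex θ)) b) : Par (fun θ => dif γ' δ' (cen + ex θ)) b := by
  have h1 := par_homotopy (F := fun x => ((1 - clip x.1 : ℝ) : ℂ) * dif γ δ (cen + ex x.2) +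
    (clip x.1 : ℂ) * dif γ' δ' (cen + ex x.2))
    (by
      have := clip_continuous
      have := ex_continuous
      have := dif_cont hγ hδ
      have := dif_cont hγ' hδ'
      fun_prop) (fun x => ?_) (fun τ θ => by rw [ex_add_one]) (b := b) (by simpa using h)
  · simpa using h1
  · obtain ⟨h2, h3⟩ := clip_mem x.1
    set u := clip x.1 with hu
    set z := cen + ex x.2 with hz
    have m1 := clip_mem z.re
    have m2 := clip_mem z.im
    simp only [dif]
    rcases outer_cases x.2 with h4 | h4 | h4 | h4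
    · rw [← hz] at h4
      rw [clip_of_nonpos h4, ← e0]
      have := conv_ne (hδ.norm_le m2) (hδ'.norm_le m2) hγ.norm0
        (hδ.ne_of_norm m2 hγ.norm0 n00.symm n01.symm)
        (hδ'.ne_of_norm m2 hγ.norm0 (by rw [← f0]; exact n00.symm) (by rw [← f1]; exact n01.symm))
        h2 h3
      intro h5
      apply this
      linear_combination -h5
    · rw [← hz] at h4
      rw [clip_of_one_le h4, ← e1]
      have := conv_ne (hδ.norm_le m2) (hδ'.norm_le m2) hγ.norm1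
        (hδ.ne_of_norm m2 hγ.norm1 n10.symm n11.symm)
        (hδ'.ne_of_norm m2 hγ.norm1 (by rw [← f0]; exact n10.symm) (by rw [← f1]; exact n11.symm))
        h2 h3
      intro h5
      apply this
      linear_combination -h5
    · rw [← hz] at h4
      rw [clip_of_nonpos h4, ← f0]
      exact conv_ne (hγ.norm_le m1) (hγ'.norm_le m1) hδ.norm0
        (hγ.ne_of_norm m1 hδ.norm0 n00 n10)
        (hγ'.ne_of_norm m1 hδ.norm0 (by rw [← e0]; exact n00) (by rw [← e1]; exact n10)) h2 h3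
    · rw [← hz] at h4
      rw [clip_of_one_le h4, ← f1]
      exact conv_ne (hγ.norm_le m1) (hγ'.norm_le m1) hδ.norm1
        (hγ.ne_of_norm m1 hδ.norm1 n01 n11)
        (hγ'.ne_of_norm m1 hδ.norm1 (by rw [← e0]; exact n01) (by rw [← e1]; exact n11)) h2 h3

theorem par_disjoint {γ δ : ℝ → ℂ} (hγ : DArc γ) (hδ : DArc δ)
    (hne : ∀ s ∈ Icc (0 : ℝ) 1, ∀ t ∈ Icc (0 : ℝ) 1, γ s ≠ δ t) :
    Par (fun θ => dif γ δ (cen + ex θ)) false := by
  have := par_contract (dif_cont hγ hδ)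
    (fun z => sub_ne_zero.2 (hne _ (clip_mem _) _ (clip_mem _))) cen 1
  simpa using this

theorem clip_eq_imp {t s : ℝ} (hs : s ∈ Ioo (0 : ℝ) 1) (h : clip t = s) : t = s := by
  rcases le_total t 0 with h1 | h1
  · rw [clip_of_nonpos h1] at h
    exact absurd hs.1 (by rw [h]; exact lt_irrefl _)
  · rcases le_total 1 t with h2 | h2
    · rw [clip_of_one_le h2] at h
      exact absurd hs.2 (by rw [h]; exact lt_irrefl _)
    · rw [← h, clip_of_mem ⟨h1, h2⟩]

/-- The sign of a continuous injective real function near a zero. -/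
theorem exists_sign {f : ℝ → ℝ} {s ρ : ℝ} (hρ : 0 < ρ) (hf : ContinuousOn f (Icc (s - ρ) (s + ρ)))
    (hi : InjOn f (Icc (s - ρ) (s + ρ))) (h0 : f s = 0) :
    ∃ ε : ℝ, (ε = 1 ∨ ε = -1) ∧ ∀ x : ℝ, |x| ≤ 1 → x ≠ 0 → 0 < ε * f (s + ρ * x) * x := by
  have hs : s ∈ Icc (s - ρ) (s + ρ) := ⟨by linarith, by linarith⟩
  have hx : ∀ x : ℝ, |x| ≤ 1 → s + ρ * x ∈ Icc (s - ρ) (s + ρ) := by
    intro x hx
    obtain ⟨h1, h2⟩ := abs_le.1 hx
    constructor <;> nlinarith
  rcases hf.strictMonoOn_of_injOn_Icc' (by linarith) hi with h | h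
  · refine ⟨1, Or.inl rfl, fun x h1 h2 => ?_⟩
    rw [one_mul]
    rcases lt_or_gt_of_ne h2 with h3 | h3
    · have h4 : s + ρ * x < s := by nlinarith
      have h5 := h (hx x h1) hs h4
      rw [h0] at h5
      exact mul_pos_of_neg_of_neg h5 h3
    · have h4 : s < s + ρ * x := by nlinarith
      have h5 := h hs (hx x h1) h4
      rw [h0] at h5
      exact mul_pos h5 h3
  · refine ⟨-1, Or.inr rfl, fun x h1 h2 => ?_⟩
    rcases lt_or_gt_of_ne h2 with h3 | h3
    · have h4 : s + ρ * x < s := by nlinarith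
      have h5 := h (hx x h1) hs h4
      rw [h0] at h5
      nlinarith
    · have h4 : s < s + ρ * x := by nlinarith
      have h5 := h hs (hx x h1) h4
      rw [h0] at h5
      nlinarith

end Pool.Agent.Run7.h13
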