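import Pool.Agent.Run7.h13.Meet

/-!
# Two arcs of the disk which meet once, properly
-/

namespace Pool.Agent.Run7.h13

open Set Complex ComplexConjugate Metric

theorem par_crossing {γ δ : ℝ → ℂ} (hγ : DArc γ) (hδ : DArc δ) {s t : ℝ} (hs : s ∈ Ioo (0 : ℝ) 1)
    (ht : t ∈ Ioo (0 : ℝ) 1) (hst : γ s = δ t)
    (huniq : ∀ s' ∈ Icc (0 : ℝ) 1, ∀ t' ∈ Icc (0 : ℝ) 1, γ s' = δ t' → s' = s ∧ t' = t)
    (hp : ProperCrossing (γ '' Icc 0 1) (δ '' Icc 0 1) (γ s)) :
    Par (fun θ => dif γ δ (cen + ex θ)) true := by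
  obtain ⟨h, hps, hp0, hp⟩ := hp
  -- zeros of the difference
  have hzero : ∀ z : ℂ, z ≠ ⟨s, t⟩ → dif γ δ z ≠ 0 := by
    intro z hz h0
    obtain ⟨h1, h2⟩ := huniq _ (clip_mem z.re) _ (clip_mem z.im) (sub_eq_zero.1 h0)
    exact hz (Complex.ext (clip_eq_imp hs h1) (clip_eq_imp ht h2))
  have hcen : ‖cen - ⟨s, t⟩‖ < 1 := by
    have h1 : ‖cen - (⟨s, t⟩ : ℂ)‖ ^ 2 < 1 := by
      rw [← Complex.normSq_eq_norm_sq, Complex.normSq_apply]
      simp only [cen, Complex.sub_re, Complex.sub_im]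
      have := hs.1
      have := hs.2
      have := ht.1
      have := ht.2
      nlinarith
    have h2 := norm_nonneg (cen - (⟨s, t⟩ : ℂ))
    nlinarith
  -- a radius in the chart
  have hts : (0 : ℂ) ∈ h.target := by rw [← hp0]; exact h.map_source hps
  obtain ⟨r, hr, hball⟩ := Metric.isOpen_iff.1 h.open_target 0 hts
  -- a radius in the parameter plane
  have hsIcc : s ∈ Icc (0 : ℝ) 1 := Ioo_subset_Icc_self hs
  have htIcc : t ∈ Icc (0 : ℝ) 1 := Ioo_subset_Icc_self ht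
  have hU : IsOpen (h.source ∩ h ⁻¹' ball 0 r) := h.isOpen_inter_preimage isOpen_ball
  have hnb : ∀ (α : ℝ → ℂ) (u : ℝ), DArc α → u ∈ Ioo (0 : ℝ) 1 → α u = γ s →
      ∃ ρ > 0, ∀ u' ∈ Icc (u - ρ) (u + ρ), u' ∈ Icc (0 : ℝ) 1 ∧ α u' ∈ h.source ∧
        ‖h (α u')‖ < r := by
    intro α u hα hu hαu
    have h1 : α ⁻¹' (h.source ∩ h ⁻¹' ball 0 r) ∈ nhds u := by
      have hc : ContinuousAt α u := (hα.cont.continuousAt (Icc_mem_nhds hu.1 hu.2))
      refine hc (hU.mem_nhds ⟨?_, ?_⟩)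
      · rw [hαu]; exact hps
      · rw [mem_preimage, hαu, hp0]; exact mem_ball_self hr
    have h2 : Icc (0 : ℝ) 1 ∩ α ⁻¹' (h.source ∩ h ⁻¹' ball 0 r) ∈ nhds u :=
      Filter.inter_mem (Icc_mem_nhds hu.1 hu.2) h1
    obtain ⟨ρ, hρ, hρ'⟩ := Metric.nhds_basis_closedBall.mem_iff.1 h2
    refine ⟨ρ, hρ, fun u' hu' => ?_⟩
    have h3 : u' ∈ closedBall u ρ := by
      rw [Real.closedBall_eq_Icc]; exact hu'
    obtain ⟨h4, h5, h6⟩ := hρ' h3
    exact ⟨h4, h5, by simpa using h6⟩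
  obtain ⟨ρ₁, hρ₁, hn₁⟩ := hnb γ s hγ hs rfl
  obtain ⟨ρ₂, hρ₂, hn₂⟩ := hnb δ t hδ ht hst.symm
  obtain ⟨ρ, hρ, hle₁, hle₂⟩ : ∃ ρ > 0, ρ ≤ ρ₁ ∧ ρ ≤ ρ₂ :=
    ⟨min ρ₁ ρ₂, lt_min hρ₁ hρ₂, min_le_left _ _, min_le_right _ _⟩
  have hs' : ∀ u ∈ Icc (s - ρ) (s + ρ), u ∈ Icc (0 : ℝ) 1 ∧ γ u ∈ h.source ∧ ‖h (γ u)‖ < r :=
    fun u hu => hn₁ u ⟨by linarith [hu.1], by linarith [hu.2]⟩
  have ht' : ∀ u ∈ Icc (t - ρ) (t + ρ), u ∈ Icc (0 : ℝ) 1 ∧ δ u ∈ h.source ∧ ‖h (δ u)‖ < r :=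
    fun u hu => hn₂ u ⟨by linarith [hu.1], by linarith [hu.2]⟩
  -- the coordinates of the arcs in the chart
  have hγim : ∀ u ∈ Icc (s - ρ) (s + ρ), (h (γ u)).im = 0 := fun u hu =>
    (hp _ (hs' u hu).2.1).1.1 ⟨u, (hs' u hu).1, rfl⟩
  have hδre : ∀ u ∈ Icc (t - ρ) (t + ρ), (h (δ u)).re = 0 := fun u hu =>
    (hp _ (ht' u hu).2.1).2.1 ⟨u, (ht' u hu).1, rfl⟩
  have hcγ : ContinuousOn (fun u => h (γ u)) (Icc (s - ρ) (s + ρ)) :=
    h.continuousOn.comp (hγ.cont.mono fun u hu => (hs' u hu).1) fun u hu => (hs' u hu).2.1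
  have hcδ : ContinuousOn (fun u => h (δ u)) (Icc (t - ρ) (t + ρ)) :=
    h.continuousOn.comp (hδ.cont.mono fun u hu => (ht' u hu).1) fun u hu => (ht' u hu).2.1
  obtain ⟨ε₁, hε₁, hsg₁⟩ := exists_sign (f := fun u => (h (γ u)).re) hρ
    (Complex.continuous_re.comp_continuousOn hcγ) (by
      intro u hu v hv huv
      have h1 : h (γ u) = h (γ v) := Complex.ext huv (by rw [hγim u hu, hγim v hv])
      exact hγ.inj (hs' u hu).1 (hs' v hv).1 (h.injOn (hs' u hu).2.1 (hs' v hv).2.1 h1))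
    (by simp [hp0])
  obtain ⟨ε₂, hε₂, hsg₂⟩ := exists_sign (f := fun u => (h (δ u)).im) hρ
    (Complex.continuous_im.comp_continuousOn hcδ) (by
      intro u hu v hv huv
      have h1 : h (δ u) = h (δ v) := Complex.ext (by rw [hδre u hu, hδre v hv]) huv
      exact hδ.inj (ht' u hu).1 (ht' v hv).1 (h.injOn (ht' u hu).2.1 (ht' v hv).2.1 h1))
    (by simp [← hst, hp0])
  refine par_shrink (dif_cont hγ hδ) hzero (c := cen) (R := 1) hcen hρ (b := true) ?_ |> fun H => by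
    simpa using H
  -- the loop in the chart
  have hre : ∀ θ, |(ex θ).re| ≤ 1 := fun θ => by
    have := Complex.abs_re_le_norm (ex θ)
    rwa [norm_ex] at this
  have him : ∀ θ, |(ex θ).im| ≤ 1 := fun θ => by
    have := Complex.abs_im_le_norm (ex θ)
    rwa [norm_ex] at this
  have hmem : ∀ (u x : ℝ), |x| ≤ 1 → u + ρ * x ∈ Icc (u - ρ) (u + ρ) := by
    intro u x hx
    obtain ⟨h1, h2⟩ := abs_le.1 hx
    constructor <;> nlinarith
  set A : ℝ → ℂ := fun θ => h (γ (s + ρ * (ex θ).re)) with hA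
  set B : ℝ → ℂ := fun θ => h (δ (t + ρ * (ex θ).im)) with hB
  set Z : ℝ → ℂ := fun θ => ((r / 2 : ℝ) : ℂ) * ⟨ε₁ * (ex θ).re, -(ε₂ * (ex θ).im)⟩ with hZ
  have hexc := ex_continuous
  have hAc : Continuous A := hcγ.comp_continuous (by fun_prop) fun θ => hmem s _ (hre θ)
  have hBc : Continuous B := hcδ.comp_continuous (by fun_prop) fun θ => hmem t _ (him θ)
  have hZc : Continuous Z := by
    have : Z = fun θ => ((r / 2 : ℝ) : ℂ) * ((ε₁ * (ex θ).re : ℝ) + ((-(ε₂ * (ex θ).im) : ℝ) : ℂ) * I) := by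
      funext θ
      rw [hZ]
      simp only
      congr 1
      apply Complex.ext <;> simp
    rw [this]
    fun_prop
  have hAn : ∀ θ, ‖A θ‖ < r := fun θ => (hs' _ (hmem s _ (hre θ))).2.2
  have hBn : ∀ θ, ‖B θ‖ < r := fun θ => (ht' _ (hmem t _ (him θ))).2.2
  have hZn : ∀ θ, ‖Z θ‖ < r := by
    intro θ
    rw [hZ]
    simp only [norm_mul, Complex.norm_real, Real.norm_eq_abs, abs_of_pos (half_pos hr)]
    have h1 : ‖(⟨ε₁ * (ex θ).re, -(ε₂ * (ex θ).im)⟩ : ℂ)‖ ^ 2 = 1 := by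
      rw [← Complex.normSq_eq_norm_sq, Complex.normSq_apply]
      have h2 : ‖ex θ‖ ^ 2 = 1 := by rw [norm_ex]; norm_num
      rw [← Complex.normSq_eq_norm_sq, Complex.normSq_apply] at h2
      rcases hε₁ with rfl | rfl <;> rcases hε₂ with rfl | rfl <;> simp only <;> linarith
    have h3 : ‖(⟨ε₁ * (ex θ).re, -(ε₂ * (ex θ).im)⟩ : ℂ)‖ = 1 := by
      have := norm_nonneg (⟨ε₁ * (ex θ).re, -(ε₂ * (ex θ).im)⟩ : ℂ)
      nlinarith
    rw [h3]
    linarith
  -- the homotopy in the chart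
  set U : ℝ × ℝ → ℂ := fun x => (clip x.1 : ℂ) * A x.2 + ((1 - clip x.1 : ℝ) : ℂ) * Z x.2 with hU'
  set W : ℝ × ℝ → ℂ := fun x => (clip x.1 : ℂ) * B x.2 - ((1 - clip x.1 : ℝ) : ℂ) * Z x.2 with hW'
  have hclip := clip_continuous
  have hUc : Continuous U := by fun_prop
  have hWc : Continuous W := by fun_prop
  have hconv : ∀ (u : ℝ) (a b : ℂ), u ∈ Icc (0 : ℝ) 1 → ‖a‖ < r → ‖b‖ < r →
      (u : ℂ) * a + ((1 - u : ℝ) : ℂ) * b ∈ ball (0 : ℂ) r := by
    intro u a b hu ha hb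
    rw [mem_ball_zero_iff]
    calc ‖(u : ℂ) * a + ((1 - u : ℝ) : ℂ) * b‖ ≤ ‖(u : ℂ) * a‖ + ‖((1 - u : ℝ) : ℂ) * b‖ :=
          norm_add_le _ _
      _ = u * ‖a‖ + (1 - u) * ‖b‖ := by
          rw [norm_mul, norm_mul, Complex.norm_real, Complex.norm_real, Real.norm_eq_abs,
            Real.norm_eq_abs, abs_of_nonneg hu.1, abs_of_nonneg (sub_nonneg.2 hu.2)]
      _ < r := by
          rcases eq_or_lt_of_le hu.1 with h1 | h1
          · rw [← h1]; simpa using hb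
          · nlinarith [mul_lt_mul_of_pos_left ha h1,
              mul_le_mul_of_nonneg_left hb.le (sub_nonneg.2 hu.2)]
  have hUm : ∀ x, U x ∈ h.target := fun x => hball (hconv _ _ _ (clip_mem _) (hAn _) (hZn _))
  have hWm : ∀ x, W x ∈ h.target := fun x => by
    apply hball
    have := hconv (clip x.1) (B x.2) (- Z x.2) (clip_mem _) (hBn _) (by rw [norm_neg]; exact hZn _)
    convert this using 1
    rw [hW']
    ring
  have hne : ∀ x, h.symm (U x) - h.symm (W x) ≠ 0 := by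
    intro x hx
    have h1 : U x = W x := h.symm.injOn (hUm x) (hWm x) (sub_eq_zero.1 hx)
    have hu := clip_mem x.1
    set u := clip x.1 with hu'
    have hAim : (A x.2).im = 0 := hγim _ (hmem s _ (hre _))
    have hBre : (B x.2).re = 0 := hδre _ (hmem t _ (him _))
    have hre1 := congrArg Complex.re h1
    have him1 := congrArg Complex.im h1
    simp only [hU', hW', hZ, Complex.add_re, Complex.sub_re, Complex.add_im, Complex.sub_im,
      Complex.mul_re, Complex.mul_im, Complex.ofReal_re, Complex.ofReal_im, hAim, hBre] at hre1 him1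
    rw [← hu'] at hre1 him1
    have h2 : ‖ex x.2‖ ^ 2 = 1 := by rw [norm_ex]; norm_num
    rw [← Complex.normSq_eq_norm_sq, Complex.normSq_apply] at h2
    have sg1 : (ex x.2).re ≠ 0 → 0 < ε₁ * (A x.2).re * (ex x.2).re := hsg₁ _ (hre x.2)
    have sg2 : (ex x.2).im ≠ 0 → 0 < ε₂ * (B x.2).im * (ex x.2).im := hsg₂ _ (him x.2)
    have hx0 : (ex x.2).re = 0 := by
      by_contra hc
      have h3 := sg1 hc
      have h4 : 0 < (ex x.2).re * (ex x.2).re := mul_self_pos.2 hc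
      have h5 : ε₁ * ε₁ = 1 := by rcases hε₁ with rfl | rfl <;> norm_num
      have h6 : u * (ε₁ * (A x.2).re * (ex x.2).re) +
          (1 - u) * (r * ((ex x.2).re * (ex x.2).re)) = 0 := by
        linear_combination (ε₁ * (ex x.2).re) * hre1 - (1 - u) * r * (ex x.2).re ^ 2 * h5
      have h7 : 0 ≤ u * (ε₁ * (A x.2).re * (ex x.2).re) := mul_nonneg hu.1 h3.le
      have h8 : 0 ≤ (1 - u) * (r * ((ex x.2).re * (ex x.2).re)) :=
        mul_nonneg (sub_nonneg.2 hu.2) (mul_pos hr h4).le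
      have h9 : u * (ε₁ * (A x.2).re * (ex x.2).re) = 0 := by linarith
      have h10 : (1 - u) * (r * ((ex x.2).re * (ex x.2).re)) = 0 := by linarith
      rcases mul_eq_zero.1 h9 with h11 | h11
      · rw [h11] at h10
        have := mul_pos hr h4
        linarith
      · exact h3.ne' h11
    have hy0 : (ex x.2).im = 0 := by
      by_contra hc
      have h3 := sg2 hc
      have h4 : 0 < (ex x.2).im * (ex x.2).im := mul_self_pos.2 hc
      have h5 : ε₂ * ε₂ = 1 := by rcases hε₂ with rfl | rfl <;> norm_num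
      have h6 : u * (ε₂ * (B x.2).im * (ex x.2).im) +
          (1 - u) * (r * ((ex x.2).im * (ex x.2).im)) = 0 := by
        linear_combination (-(ε₂ * (ex x.2).im)) * him1 - (1 - u) * r * (ex x.2).im ^ 2 * h5
      have h7 : 0 ≤ u * (ε₂ * (B x.2).im * (ex x.2).im) := mul_nonneg hu.1 h3.le
      have h8 : 0 ≤ (1 - u) * (r * ((ex x.2).im * (ex x.2).im)) :=
        mul_nonneg (sub_nonneg.2 hu.2) (mul_pos hr h4).le
      have h9 : u * (ε₂ * (B x.2).im * (ex x.2).im) = 0 := by linarith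
      have h10 : (1 - u) * (r * ((ex x.2).im * (ex x.2).im)) = 0 := by linarith
      rcases mul_eq_zero.1 h9 with h11 | h11
      · rw [h11] at h10
        have := mul_pos hr h4
        linarith
      · exact h3.ne' h11
    rw [hx0, hy0] at h2
    norm_num at h2
  have hcont : Continuous fun x => h.symm (U x) - h.symm (W x) :=
    (h.symm.continuousOn.comp_continuous hUc hUm).sub (h.symm.continuousOn.comp_continuous hWc hWm)
  have hAp : ∀ θ, A (θ + 1) = A θ := fun θ => by rw [hA]; simp only [ex_add_one]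
  have hBp : ∀ θ, B (θ + 1) = B θ := fun θ => by rw [hB]; simp only [ex_add_one]
  have hZp : ∀ θ, Z (θ + 1) = Z θ := fun θ => by rw [hZ]; simp only [ex_add_one]
  have hZo : ∀ θ, Z (θ + 1 / 2) = - Z θ := fun θ => by
    rw [hZ]
    simp only [ex_add_half]
    apply Complex.ext <;> simp
  have hfin := par_homotopy hcont hne (fun τ θ => by
      simp only [hU', hW', hAp, hBp, hZp]) (b := true) (by
    refine par_odd (hcont.comp (by fun_prop)) (fun θ => hne _) fun θ => ?_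
    simp only [hU', hW', hZo, clip_zero]
    push_cast
    simp)
  have hlast : (fun θ : ℝ => dif γ δ (⟨s, t⟩ + ρ * ex θ)) =
      fun θ => h.symm (U (1, θ)) - h.symm (W (1, θ)) := by
    funext θ
    have m1 := hmem s _ (hre θ)
    have m2 := hmem t _ (him θ)
    have e1 : ((⟨s, t⟩ : ℂ) + ρ * ex θ).re = s + ρ * (ex θ).re := by simp
    have e2 : ((⟨s, t⟩ : ℂ) + ρ * ex θ).im = t + ρ * (ex θ).im := by simp
    simp only [dif]
    rw [e1, e2, clip_of_mem (hs' _ m1).1, clip_of_mem (ht' _ m2).1]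
    simp only [hU', hW', clip_one, Complex.ofReal_one, one_mul, sub_self, Complex.ofReal_zero,
      zero_mul, add_zero, sub_zero, hA, hB]
    rw [h.left_inv (hs' _ m1).2.1, h.left_inv (ht' _ m2).2.1]
  rw [hlast]
  exact hfin

end Pool.Agent.Run7.h13
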