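import Pool.Agent.Run7.h13.Rank2

/-!
# Tight orders of graphs whose branch vertices lie in separated triangles
-/

namespace Pool.Agent.Run7.h13

/-- The vertices of `T` lie in disjoint triangles (the classes of `b`), and two triangles are
joined by at most one edge. -/
structure TriStruct {V β : Type} (H : SimpleGraph V) (T : Set V) (b : V → β) : Prop where
  partners : ∀ v ∈ T, ∃ v₁ ∈ T, ∃ v₂ ∈ T, v₁ ≠ v ∧ v₂ ≠ v ∧ v₁ ≠ v₂ ∧ b v₁ = b v ∧ b v₂ = b v
  adj : ∀ v ∈ T, ∀ w ∈ T, v ≠ w → b v = b w → H.Adj v w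
  three : ∀ v ∈ T, ∀ v₁ ∈ T, ∀ v₂ ∈ T, ∀ w ∈ T, v₁ ≠ v → v₂ ≠ v → v₁ ≠ v₂ → b v₁ = b v →
    b v₂ = b v → b w = b v → w = v ∨ w = v₁ ∨ w = v₂
  sep : ∀ v ∈ T, ∀ v' ∈ T, ∀ w ∈ T, ∀ w' ∈ T, b v = b v' → b w = b w' → b v ≠ b w →
    H.Adj v w → H.Adj v' w' → v = v'

variable {V β : Type} {H : SimpleGraph V} {n : ℕ} {p : V ≃ Fin n} {T : Set V} {b : V → β}

theorem pos_inj {v w : V} (h : (p v : ℕ) = p w) : v = w := p.injective (Fin.ext h)

/-- The triangles are placed at three consecutive positions. -/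
theorem tri_consec (ht : Tight H p T) (hs : TriStruct H T b) (hT : ∀ v ∈ T, IsR H p v ∨ IsL H p v)
    {x y z : V} (hx : x ∈ T) (hy : y ∈ T) (hz : z ∈ T) (hxy : b x = b y) (hyz : b y = b z)
    (h1 : (p x : ℕ) < p y) (h2 : (p y : ℕ) < p z) : (p y : ℕ) = p x + 1 ∧ (p z : ℕ) = p y + 1 := by
  have nxy : x ≠ y := by rintro rfl; omega
  have nyz : y ≠ z := by rintro rfl; omega
  have nxz : x ≠ z := by rintro rfl; omega
  have axy := hs.adj x hx y hy nxy hxy
  have ayz := hs.adj y hy z hz nyz hyz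
  have axz := hs.adj x hx z hz nxz (hxy.trans hyz)
  have hblock : ∀ w ∈ T, b w = b x → w = x ∨ w = y ∨ w = z := fun w hw h =>
    hs.three x hx y hy z hz w hw nxy.symm nxz.symm nyz hxy.symm (hxy.trans hyz).symm h
  have Rx : IsR H p x := ⟨z, axz, by omega⟩
  have Lz : IsL H p z := ⟨x, axz.symm, by omega⟩
  rcases hT y hy with Ry | Ly
  · have nLy := ht.excl y Ry
    have e1 : (p y : ℕ) = p x + 1 := by
      by_contra hc
      exact nLy ⟨x, axy.symm, by omega⟩
    refine ⟨e1, ?_⟩
    by_contra hc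
    have hmin := ht.minR x Rx (fun w hw hpw => by
      have : w = y := pos_inj (p := p) (by omega)
      exact nLy (this ▸ hw))
    have g1 : GapEq H p (p x + 1) (p z) := GapEq.of_adj axz (by omega)
    have g2 : GapEq H p (p y + 1) (p z) := GapEq.of_adj ayz (by omega)
    have g3 : GapEq H p (p x + 1) (p y + 1) := g1.trans g2.symm
    obtain ⟨w, Lw, hpw⟩ : ∃ w, IsL H p w ∧ (p w : ℕ) = p y + 1 := by
      by_contra hc'
      push Not at hc'
      have := ht.minR y Ry hc' _ g3.symm
      omega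
    have key : ∀ w', H.Adj w w' → (p w' : ℕ) + 2 ≤ p w → w' = x := by
      intro w' hw' hlt
      have g4 : GapEq H p (p w' + 1) (p w) := GapEq.of_adj hw'.symm hlt
      rw [hpw] at g4
      have := hmin _ (g3.trans g4.symm)
      exact pos_inj (p := p) (by omega)
    have wT := ht.memL w Lw
    have hbw : b w ≠ b x := by
      intro h
      rcases hblock w wT h with rfl | rfl | rfl <;> omega
    obtain ⟨w₁, hw₁, w₂, hw₂, n1, n2, n12, b1, b2⟩ := hs.partners w wT
    have hpart : ∀ w' ∈ T, w' ≠ w → b w' = b w → (p w' : ℕ) = p w + 1 := by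
      intro w' hw' hne hb
      have ha := hs.adj w wT w' hw' hne.symm hb.symm
      rcases Nat.lt_trichotomy (p w') (p w) with h | h | h
      · exfalso
        by_cases h3 : (p w' : ℕ) + 2 ≤ p w
        · have := key w' ha h3
          rw [this] at hb
          exact hbw hb.symm
        · have : w' = y := pos_inj (p := p) (by omega)
          rw [this] at hb
          exact hbw (hb.symm.trans hxy.symm)
      · exact (hne (pos_inj (p := p) h)).elim
      · by_contra h3
        exact ht.excl w ⟨w', ha, by omega⟩ Lw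
    exact n12 (pos_inj (p := p) ((hpart w₁ hw₁ n1 b1).trans (hpart w₂ hw₂ n2 b2).symm))
  · have nRy : ¬ IsR H p y := fun h => ht.excl y h Ly
    have e1 : (p z : ℕ) = p y + 1 := by
      by_contra hc
      exact nRy ⟨z, ayz, by omega⟩
    refine ⟨?_, e1⟩
    by_contra hc
    have hmax := ht.maxL z Lz (fun w hw hpw => by
      have : w = y := pos_inj (p := p) (by omega)
      exact nRy (this ▸ hw))
    have g1 : GapEq H p (p x + 1) (p z) := GapEq.of_adj axz (by omega)
    have g2 : GapEq H p (p x + 1) (p y) := GapEq.of_adj axy (by omega)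
    have g3 : GapEq H p (p z) (p y) := g1.symm.trans g2
    obtain ⟨w, Rw, hpw⟩ : ∃ w, IsR H p w ∧ (p w : ℕ) + 1 = p y := by
      by_contra hc'
      push Not at hc'
      have := ht.maxL y Ly hc' _ g3.symm
      omega
    have key : ∀ w', H.Adj w w' → (p w : ℕ) + 2 ≤ p w' → w' = z := by
      intro w' hw' hlt
      have g4 : GapEq H p (p w + 1) (p w') := GapEq.of_adj hw' hlt
      rw [hpw] at g4
      have := hmax _ (g3.trans g4)
      exact pos_inj (p := p) (by omega)
    have wT := ht.memR w Rw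
    have hbw : b w ≠ b x := by
      intro h
      rcases hblock w wT h with rfl | rfl | rfl <;> omega
    obtain ⟨w₁, hw₁, w₂, hw₂, n1, n2, n12, b1, b2⟩ := hs.partners w wT
    have hpart : ∀ w' ∈ T, w' ≠ w → b w' = b w → (p w' : ℕ) + 1 = p w := by
      intro w' hw' hne hb
      have ha := hs.adj w wT w' hw' hne.symm hb.symm
      rcases Nat.lt_trichotomy (p w') (p w) with h | h | h
      · by_contra h3
        exact ht.excl w Rw ⟨w', ha, by omega⟩
      · exact (hne (pos_inj (p := p) h)).elim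
      · exfalso
        by_cases h3 : (p w : ℕ) + 2 ≤ p w'
        · have := key w' ha h3
          rw [this] at hb
          exact hbw (hb.symm.trans (hxy.trans hyz).symm)
        · have : w' = y := pos_inj (p := p) (by omega)
          rw [this] at hb
          exact hbw (hb.symm.trans hxy.symm)
    have := hpart w₁ hw₁ n1 b1
    have := hpart w₂ hw₂ n2 b2
    exact n12 (pos_inj (p := p) (by omega))

/-- The sorted triangle of a vertex. -/
theorem exists_sorted (hs : TriStruct H T b) {v : V} (hv : v ∈ T) :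
    ∃ x ∈ T, ∃ y ∈ T, ∃ z ∈ T, b x = b v ∧ b y = b v ∧ b z = b v ∧ (p x : ℕ) < p y ∧
      (p y : ℕ) < p z ∧ (v = x ∨ v = y ∨ v = z) := by
  obtain ⟨v₁, hv₁, v₂, hv₂, n1, n2, n12, b1, b2⟩ := hs.partners v hv
  have e1 : (p v₁ : ℕ) ≠ p v := fun h => n1 (pos_inj (p := p) h)
  have e2 : (p v₂ : ℕ) ≠ p v := fun h => n2 (pos_inj (p := p) h)
  have e12 : (p v₁ : ℕ) ≠ p v₂ := fun h => n12 (pos_inj (p := p) h)
  rcases Nat.lt_or_gt_of_ne e1 with h1 | h1 <;> rcases Nat.lt_or_gt_of_ne e2 with h2 | h2 <;>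
    rcases Nat.lt_or_gt_of_ne e12 with h3 | h3
  · exact ⟨v₁, hv₁, v₂, hv₂, v, hv, b1, b2, rfl, h3, h2, Or.inr (Or.inr rfl)⟩
  · exact ⟨v₂, hv₂, v₁, hv₁, v, hv, b2, b1, rfl, h3, h1, Or.inr (Or.inr rfl)⟩
  · exact ⟨v₁, hv₁, v, hv, v₂, hv₂, b1, rfl, b2, h1, h2, Or.inr (Or.inl rfl)⟩
  · omega
  · omega
  · exact ⟨v₂, hv₂, v, hv, v₁, hv₁, b2, rfl, b1, h2, h1, Or.inr (Or.inl rfl)⟩
  · exact ⟨v, hv, v₁, hv₁, v₂, hv₂, rfl, b1, b2, h1, h3, Or.inl rfl⟩
  · exact ⟨v, hv, v₂, hv₂, v₁, hv₁, rfl, b2, b1, h2, h3, Or.inl rfl⟩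

/-- The last vertex of the triangle of a vertex with long edges to the left, in a class of gaps
whose smallest element belongs to a different triangle. -/
theorem exists_top (ht : Tight H p T) (hs : TriStruct H T b) (hT : ∀ v ∈ T, IsR H p v ∨ IsL H p v)
    {w : V} (Lw : IsL H p w) {x₀ : V} (hb : b x₀ ≠ b w) (hg : GapEq H p (p x₀ + 1) (p w))
    (hmin : ∀ g, GapEq H p (p x₀ + 1) g → (p x₀ : ℕ) + 1 ≤ g) :
    ∃ z' ∈ T, b z' = b w ∧ GapEq H p (p w) (p z') ∧ ∀ g, GapEq H p (p w) g → g ≤ p z' := by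
  have wT := ht.memL w Lw
  obtain ⟨x, hx, y, hy, z, hz, bx, by', bz, h1, h2, hw⟩ := exists_sorted (p := p) hs wT
  obtain ⟨e1, e2⟩ := tri_consec ht hs hT hx hy hz (bx.trans by'.symm) (by'.trans bz.symm) h1 h2
  have axz := hs.adj x hx z hz (by rintro rfl; omega) (bx.trans bz.symm)
  have Rx : IsR H p x := ⟨z, axz, by omega⟩
  have Lz : IsL H p z := ⟨x, axz.symm, by omega⟩
  have g1 : GapEq H p (p x + 1) (p z) := GapEq.of_adj axz (by omega)
  have g2 : GapEq H p (p w) (p z) := by
    rcases hw with rfl | rfl | rfl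
    · exact (ht.excl w Rx Lw).elim
    · rw [e1]; exact g1
    · exact GapEq.refl _
  have Ly : IsL H p y := by
    rcases hT y hy with Ry | Ly
    · exfalso
      have hm := ht.minR x Rx (fun v hv hpv => by
        have : v = y := pos_inj (p := p) (by omega)
        exact ht.excl y Ry (this ▸ hv))
      have g3 : GapEq H p (p x₀ + 1) (p x + 1) := hg.trans (g2.trans g1.symm)
      have h3 := hm _ g3.symm
      have h4 := hmin _ g3
      have : x₀ = x := pos_inj (p := p) (by omega)
      exact hb (this ▸ bx)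
    · exact Ly
  have hm := ht.maxL z Lz (fun v hv hpv => by
    have : v = y := pos_inj (p := p) (by omega)
    exact ht.excl y (this ▸ hv) Ly)
  exact ⟨z, hz, bz, g2, fun g hg' => hm g (g2.symm.trans hg')⟩

/-- The first vertex of the triangle of a vertex with long edges to the right, in a class of gaps
whose largest element belongs to a different triangle. -/
theorem exists_bot (ht : Tight H p T) (hs : TriStruct H T b) (hT : ∀ v ∈ T, IsR H p v ∨ IsL H p v)
    {w : V} (Rw : IsR H p w) {z₀ : V} (hb : b z₀ ≠ b w) (hg : GapEq H p (p z₀) (p w + 1))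
    (hmax : ∀ g, GapEq H p (p z₀) g → g ≤ (p z₀ : ℕ)) :
    ∃ x' ∈ T, b x' = b w ∧ GapEq H p (p w + 1) (p x' + 1) ∧
      ∀ g, GapEq H p (p w + 1) g → (p x' : ℕ) + 1 ≤ g := by
  have wT := ht.memR w Rw
  obtain ⟨x, hx, y, hy, z, hz, bx, by', bz, h1, h2, hw⟩ := exists_sorted (p := p) hs wT
  obtain ⟨e1, e2⟩ := tri_consec ht hs hT hx hy hz (bx.trans by'.symm) (by'.trans bz.symm) h1 h2
  have axz := hs.adj x hx z hz (by rintro rfl; omega) (bx.trans bz.symm)
  have Rx : IsR H p x := ⟨z, axz, by omega⟩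
  have Lz : IsL H p z := ⟨x, axz.symm, by omega⟩
  have g1 : GapEq H p (p x + 1) (p z) := GapEq.of_adj axz (by omega)
  have g2 : GapEq H p (p w + 1) (p x + 1) := by
    rcases hw with rfl | rfl | rfl
    · exact GapEq.refl _
    · rw [← e2]; exact g1.symm
    · exact (ht.excl w Rw Lz).elim
  have Ry : IsR H p y := by
    rcases hT y hy with Ry | Ly
    · exact Ry
    · exfalso
      have hm := ht.maxL z Lz (fun v hv hpv => by
        have : v = y := pos_inj (p := p) (by omega)
        exact ht.excl y (this ▸ hv) Ly)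
      have g3 : GapEq H p (p z₀) (p z) := hg.trans (g2.trans g1)
      have h3 := hm _ g3.symm
      have h4 := hmax _ g3
      have : z₀ = z := pos_inj (p := p) (by omega)
      exact hb (this ▸ bz)
  have hm := ht.minR x Rx (fun v hv hpv => by
    have : v = y := pos_inj (p := p) (by omega)
    exact ht.excl y Ry (this ▸ hv))
  exact ⟨x, hx, bx, g2, fun g hg' => hm g (g2.symm.trans hg')⟩

/-- The first and the last vertex of a triangle have no long edges to other triangles. -/
theorem tri_outer (ht : Tight H p T) (hs : TriStruct H T b) (hT : ∀ v ∈ T, IsR H p v ∨ IsL H p v)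
    {x y z : V} (hx : x ∈ T) (hy : y ∈ T) (hz : z ∈ T) (hxy : b x = b y) (hyz : b y = b z)
    (h1 : (p x : ℕ) < p y) (h2 : (p y : ℕ) < p z) :
    (∀ w, H.Adj x w → (p x : ℕ) + 2 ≤ p w → w = z) ∧
      ∀ w, H.Adj z w → (p w : ℕ) + 2 ≤ p z → w = x := by
  obtain ⟨e1, e2⟩ := tri_consec ht hs hT hx hy hz hxy hyz h1 h2
  have nxy : x ≠ y := by rintro rfl; omega
  have nyz : y ≠ z := by rintro rfl; omega
  have nxz : x ≠ z := by rintro rfl; omega
  have axz := hs.adj x hx z hz nxz (hxy.trans hyz)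
  have hblock : ∀ w ∈ T, b w = b x → w = x ∨ w = y ∨ w = z := fun w hw h =>
    hs.three x hx y hy z hz w hw nxy.symm nxz.symm nyz hxy.symm (hxy.trans hyz).symm h
  have Rx : IsR H p x := ⟨z, axz, by omega⟩
  have Lz : IsL H p z := ⟨x, axz.symm, by omega⟩
  have g1 : GapEq H p (p x + 1) (p z) := GapEq.of_adj axz (by omega)
  rcases hT y hy with Ry | Ly
  · have hmin := ht.minR x Rx (fun w hw hpw => by
      have : w = y := pos_inj (p := p) (by omega)
      exact ht.excl y Ry (this ▸ hw))
    constructor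
    · intro w' hw' hlt'
      by_contra hne
      obtain ⟨w, hw, hlt⟩ := Ry
      have Lw : IsL H p w := ⟨y, hw.symm, hlt⟩
      have Lw' : IsL H p w' := ⟨x, hw'.symm, hlt'⟩
      have wT := ht.memL w Lw
      have wT' := ht.memL w' Lw'
      have bw : b x ≠ b w := by
        intro h
        rcases hblock w wT h.symm with rfl | rfl | rfl <;> omega
      have bw' : b x ≠ b w' := by
        intro h
        rcases hblock w' wT' h.symm with rfl | rfl | rfl
        · omega
        · omega
        · exact hne rfl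
      have g2 : GapEq H p (p y + 1) (p w) := GapEq.of_adj hw hlt
      rw [← e2] at g2
      have g3 : GapEq H p (p x + 1) (p w) := g1.trans g2
      have g3' : GapEq H p (p x + 1) (p w') := GapEq.of_adj hw' hlt'
      obtain ⟨a, ha, ba, ga, ma⟩ := exists_top ht hs hT Lw bw g3 hmin
      obtain ⟨a', ha', ba', ga', ma'⟩ := exists_top ht hs hT Lw' bw' g3' hmin
      have h3 := ma _ (g3.symm.trans (g3'.trans ga'))
      have h4 := ma' _ (g3'.symm.trans (g3.trans ga))
      have haa : a = a' := pos_inj (p := p) (by omega)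
      have hbb : b w = b w' := by rw [← ba, ← ba', haa]
      have := hs.sep y hy x hx w wT w' wT' hxy.symm hbb (by rw [← hxy]; exact bw) hw hw'
      exact nxy this.symm
    · intro v hv hlt
      have g2 : GapEq H p (p v + 1) (p z) := GapEq.of_adj hv.symm hlt
      have := hmin _ (g1.trans g2.symm)
      exact pos_inj (p := p) (by omega)
  · have hmax := ht.maxL z Lz (fun w hw hpw => by
      have : w = y := pos_inj (p := p) (by omega)
      exact ht.excl y (this ▸ hw) Ly)
    constructor
    · intro v hv hlt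
      have g2 : GapEq H p (p x + 1) (p v) := GapEq.of_adj hv hlt
      have := hmax _ (g1.symm.trans g2)
      exact pos_inj (p := p) (by omega)
    · intro w' hw' hlt'
      by_contra hne
      obtain ⟨w, hw, hlt⟩ := Ly
      have Rw : IsR H p w := ⟨y, hw.symm, hlt⟩
      have Rw' : IsR H p w' := ⟨z, hw'.symm, hlt'⟩
      have wT := ht.memR w Rw
      have wT' := ht.memR w' Rw'
      have bw : b z ≠ b w := by
        intro h
        rcases hblock w wT (h.symm.trans (hxy.trans hyz).symm) with rfl | rfl | rfl <;> omega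
      have bw' : b z ≠ b w' := by
        intro h
        rcases hblock w' wT' (h.symm.trans (hxy.trans hyz).symm) with rfl | rfl | rfl
        · exact hne rfl
        · omega
        · omega
      have g2 : GapEq H p (p w + 1) (p y) := GapEq.of_adj hw.symm hlt
      rw [e1] at g2
      have g3 : GapEq H p (p z) (p w + 1) := g1.symm.trans g2.symm
      have g3' : GapEq H p (p z) (p w' + 1) := (GapEq.of_adj hw'.symm hlt').symm
      obtain ⟨a, ha, ba, ga, ma⟩ := exists_bot ht hs hT Rw bw g3 hmax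
      obtain ⟨a', ha', ba', ga', ma'⟩ := exists_bot ht hs hT Rw' bw' g3' hmax
      have h3 := ma _ (g3.symm.trans (g3'.trans ga'))
      have h4 := ma' _ (g3'.symm.trans (g3.trans ga))
      have haa : a = a' := pos_inj (p := p) (by omega)
      have hbb : b w = b w' := by rw [← ba, ← ba', haa]
      have := hs.sep y hy z hz w wT w' wT' hyz hbb (by rw [hyz]; exact bw) hw hw'
      exact nyz this

end Pool.Agent.Run7.h13
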