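import Pool.Agent.Run7.h13.Inst
import Pool.Agent.H679R2.Oct.Pol
import Pool.Agent.NPC.Hard

/-!
# The reduction is computable in polynomial time
-/

namespace Pool.Agent.NPC.H13BC

open Pool.Agent.Run7.h13 Pool.Agent.H679R2 Pool.Agent.NPC.H679

theorem EE_poly : Poly EE := by
  refine Poly.flatMap (F := fun (o : List (ℕ × Bool × ℕ)) (k : ℕ) =>
    (List.range 12).flatMap (fun t => locE.map (fun q => ((k, t, q.1), (k, t, q.2)))) ++
    clE.map (fun q => ((k, q.1, 1), (k, q.2, 2))) ++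
    ((lnE o k).filter (fun q => !decide (q.1 = (0, 2)))).map
      (fun q => ((q.1.1, q.1.2, 3), (q.2.1, q.2.2, 3)))) (Poly.range_length Poly.id) ?_
  refine Poly.append (Poly.append ?_ ?_) ?_
  · refine Poly.flatMap (F := fun (p : List (ℕ × Bool × ℕ) × ℕ) (t : ℕ) =>
      locE.map (fun q => ((p.2, t, q.1), (p.2, t, q.2)))) (Poly.const _) ?_
    refine Poly.map (F := fun (p : (List (ℕ × Bool × ℕ) × ℕ) × ℕ) (q : ℕ × ℕ) =>
      ((p.1.2, p.2, q.1), (p.1.2, p.2, q.2))) (Poly.const _) ?_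
    have h1 : Poly (fun p : ((List (ℕ × Bool × ℕ) × ℕ) × ℕ) × (ℕ × ℕ) => p.1.1.2) :=
      Poly.snd (Poly.fst (Poly.fst Poly.id))
    have h2 : Poly (fun p : ((List (ℕ × Bool × ℕ) × ℕ) × ℕ) × (ℕ × ℕ) => p.1.2) :=
      Poly.snd (Poly.fst Poly.id)
    have h3 : Poly (fun p : ((List (ℕ × Bool × ℕ) × ℕ) × ℕ) × (ℕ × ℕ) => p.2) := Poly.snd Poly.id
    exact Poly.pair (Poly.pair h1 (Poly.pair h2 (Poly.fst h3)))
      (Poly.pair h1 (Poly.pair h2 (Poly.snd h3)))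
  · refine Poly.map (F := fun (p : List (ℕ × Bool × ℕ) × ℕ) (q : ℕ × ℕ) =>
      ((p.2, q.1, 1), (p.2, q.2, 2))) (Poly.const _) ?_
    have h1 : Poly (fun p : (List (ℕ × Bool × ℕ) × ℕ) × ℕ × ℕ => p.1.2) :=
      Poly.snd (Poly.fst Poly.id)
    exact Poly.pair (Poly.pair h1 (Poly.pair (Poly.fst (Poly.snd Poly.id)) (Poly.const 1)))
      (Poly.pair h1 (Poly.pair (Poly.snd (Poly.snd Poly.id)) (Poly.const 2)))
  · refine Poly.map (F := fun (_ : List (ℕ × Bool × ℕ) × ℕ) (q : (ℕ × ℕ) × (ℕ × ℕ)) =>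
      ((q.1.1, q.1.2, 3), (q.2.1, q.2.2, 3)))
      (Poly.filter (p := fun (_ : List (ℕ × Bool × ℕ) × ℕ) (q : (ℕ × ℕ) × (ℕ × ℕ)) =>
        !decide (q.1 = (0, 2))) lnE_poly
        (Poly.not (Poly.decide_eq (Poly.fst (Poly.snd Poly.id)) (Poly.const (0, 2))))) ?_
    have h1 : Poly (fun p : (List (ℕ × Bool × ℕ) × ℕ) × ((ℕ × ℕ) × (ℕ × ℕ)) => p.2) :=
      Poly.snd Poly.id
    exact Poly.pair (Poly.pair (Poly.fst (Poly.fst h1)) (Poly.pair (Poly.snd (Poly.fst h1))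
      (Poly.const 3))) (Poly.pair (Poly.fst (Poly.snd h1)) (Poly.pair (Poly.snd (Poly.snd h1))
      (Poly.const 3)))

theorem inst_poly : Poly inst := by
  have hN : UPoly (fun o : List (ℕ × Bool × ℕ) => o.length * 12 * 4) :=
    UPoly.mul (UPoly.mul (UPoly.length Poly.id) (UPoly.const 12)) (UPoly.const 4)
  refine Poly.pair (Poly.pair ?_ (Poly.append ?_ ?_)) ?_
  · exact (UPoly.add hN (UPoly.const 1)).range
  · exact Poly.map (F := fun (_ : List (ℕ × Bool × ℕ)) (q : (ℕ × ℕ × ℕ) × (ℕ × ℕ × ℕ)) =>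
      (cd 3 q.1, cd 3 q.2)) EE_poly (Poly.pair ((cd_poly 3).comp (Poly.fst (Poly.snd Poly.id)))
      ((cd_poly 3).comp (Poly.snd (Poly.snd Poly.id))))
  · exact Poly.map (F := fun (o : List (ℕ × Bool × ℕ)) (v : ℕ) => (v, o.length * 12 * 4))
      hN.range (Poly.pair (Poly.snd Poly.id) ((hN.toPoly).comp (Poly.fst Poly.id)))
  · exact Poly.mul (Poly.const 18) (Poly.length Poly.id)

/-- The reduction. -/
def redBC (φ : List (Lit ℕ × Lit ℕ × Lit ℕ)) : (List ℕ × List (ℕ × ℕ)) × ℕ :=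
  if φ.isEmpty then (([0], []), 0) else inst (occ φ)

theorem redBC_poly : Poly redBC := by
  refine (Poly.cond (Poly.isEmpty Poly.id) (Poly.const (([0], []), 0))
    (inst_poly.comp occ_poly)).congr fun φ => ?_
  unfold redBC
  cases φ.isEmpty <;> rfl

theorem upper_of {V : Type} [Fintype V] (G : SimpleGraph V) (u : V) (r : V → ℕ)
    (hr : ∀ a b, a ≠ u → b ≠ u → r a = r b → a = b) (k : ℕ)
    (h : ∀ L : Finset (V × V), (∀ z ∈ L, z.1 ≠ u ∧ z.2 ≠ u ∧ G.Adj z.1 z.2 ∧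
      r z.1 + 2 ≤ r z.2) → L.card ≤ k) : bundledCrossingNumber G ≤ k := by
  classical
  refine (upper G u r hr).trans ?_
  have h1 := h (Finset.univ.filter fun z : V × V => z.1 ≠ u ∧ z.2 ≠ u ∧
      G.Adj z.1 z.2 ∧ r z.1 + 2 ≤ r z.2) (fun z hz => (Finset.mem_filter.1 hz).2)
  exact_mod_cast h1

theorem bc_single : BC (([0], []), 0) := by
  refine upper_of (toGraph ([0], [])) ⟨0, by simp⟩ (fun _ => 0) (fun a b ha _ _ => by
    exfalso
    apply ha
    apply Subtype.ext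
    have := a.2
    simpa using this) 0 fun L hL => ?_
  rw [Finset.eq_empty_of_forall_notMem (s := L) fun z hz => ?_]
  · rfl
  · have h1 := (hL z hz).2.2.2
    omega

theorem redBC_iff (φ : List (Lit ℕ × Lit ℕ × Lit ℕ)) : SAT3 φ ↔ BC (redBC φ) := by
  unfold redBC
  by_cases hφ : φ = []
  · subst hφ
    simp only [List.isEmpty_nil, if_true]
    exact iff_of_true ⟨fun _ => true, by simp⟩ bc_single
  · rw [if_neg (by simpa using hφ), sat3_iff, inst_iff (occ φ) (List.length_pos_of_ne_nil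
      (fun h => hφ ((occ_eq_nil φ).1 h)))]

/-- Problem BC is NP-hard. -/
theorem npHardP_BC : NPHardP BC := (hardI_SAT3.trans redBC_poly redBC_iff).toNPHardP

end Pool.Agent.NPC.H13BC
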