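import Pool.Agent.Run7.h13.Rank

/-!
# The rank bound: the case of equality
-/

namespace Pool.Agent.Run7.h13

open Finset

variable {V : Type} (H : SimpleGraph V) {n : ℕ} (p : V ≃ Fin n)

/-- The gaps at which no long edge ends from the left are related to no smaller ones, etc.:
the structure of an order of the vertices attaining the rank bound. -/
structure Tight (T : Set V) : Prop where
  memR : ∀ v, IsR H p v → v ∈ T
  memL : ∀ v, IsL H p v → v ∈ T
  excl : ∀ v, IsR H p v → ¬ IsL H p v
  minR : ∀ v, IsR H p v → (∀ w, IsL H p w → (p w : ℕ) ≠ p v + 1) →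
    ∀ g, GapEq H p (p v + 1) g → (p v : ℕ) + 1 ≤ g
  maxL : ∀ v, IsL H p v → (∀ w, IsR H p w → (p w : ℕ) + 1 ≠ p v) →
    ∀ g, GapEq H p (p v) g → g ≤ p v

open Classical in
theorem exists_min (g : Fin (n + 1)) : ∃ m : Fin (n + 1), GapEq H p g m ∧
    (∀ g', GapEq H p g g' → (m : ℕ) ≤ g') ∧ ∀ v, IsL H p v → (p v : ℕ) ≠ m := by
  set F : Finset (Fin (n + 1)) := Finset.univ.filter (fun x => GapEq H p g x) with hF
  have hne : F.Nonempty := ⟨g, by simp [hF, GapEq.refl]⟩
  have hm := F.min'_mem hne
  have h1 : GapEq H p g (F.min' hne) := by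
    exact (Finset.mem_filter.1 hm).2
  have h2 : ∀ g', GapEq H p g g' → (F.min' hne : ℕ) ≤ g' := by
    intro g' hg'
    rcases hg'.le with h | h
    · rw [← h]
      exact F.min'_le g (by simp [hF, GapEq.refl])
    · have : (⟨g', by omega⟩ : Fin (n + 1)) ∈ F := by simp [hF, hg']
      exact F.min'_le _ this
  refine ⟨_, h1, h2, ?_⟩
  rintro v ⟨b, hb, hlt⟩ heq
  have h3 : GapEq H p (p b + 1) (p v) := GapEq.of_adj hb.symm hlt
  rw [heq] at h3
  have h4 := h2 _ (h1.trans h3.symm)
  omega

open Classical in
theorem exists_max (g : Fin (n + 1)) : ∃ m : Fin (n + 1), GapEq H p g m ∧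
    (∀ g', GapEq H p g g' → g' ≤ (m : ℕ)) ∧ ∀ v, IsR H p v → (p v : ℕ) + 1 ≠ m := by
  set F : Finset (Fin (n + 1)) := Finset.univ.filter (fun x => GapEq H p g x) with hF
  have hne : F.Nonempty := ⟨g, by simp [hF, GapEq.refl]⟩
  have hm := F.max'_mem hne
  have h1 : GapEq H p g (F.max' hne) := by
    exact (Finset.mem_filter.1 hm).2
  have h2 : ∀ g', GapEq H p g g' → g' ≤ (F.max' hne : ℕ) := by
    intro g' hg'
    rcases hg'.le with h | h
    · rw [← h]
      exact F.le_max' g (by simp [hF, GapEq.refl])
    · have : (⟨g', by omega⟩ : Fin (n + 1)) ∈ F := by simp [hF, hg']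
      exact F.le_max' _ this
  refine ⟨_, h1, h2, ?_⟩
  rintro v ⟨b, hb, hlt⟩ heq
  have h3 : GapEq H p (p v + 1) (p b) := GapEq.of_adj hb hlt
  rw [heq] at h3
  have h4 := h2 _ (h1.trans h3)
  omega

open Classical in
/-- An order of the vertices attaining the rank bound is tight. -/
theorem tight_of_classes [Fintype V] {k : ℕ}
    (hk : n + 1 ≤ k + Fintype.card (Quotient (gapSetoid H p)))
    (T : Finset V) (hT : ∀ v ∈ T, IsR H p v ∨ IsL H p v) (h2k : 2 * k ≤ T.card) :
    Tight H p (T : Set V) := by
  -- the gaps without incidence from the right, from the left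
  set DR : Finset V := Finset.univ.filter (fun v => IsR H p v) with hDR
  set DL : Finset V := Finset.univ.filter (fun v => IsL H p v) with hDL
  set BR : Finset (Fin (n + 1)) := Finset.univ.filter (fun g => ∀ v, IsR H p v → (p v : ℕ) + 1 ≠ g)
    with hBR
  set BL : Finset (Fin (n + 1)) := Finset.univ.filter (fun g => ∀ v, IsL H p v → (p v : ℕ) ≠ g)
    with hBL
  have cR : BR.card + DR.card = n + 1 := by
    have h1 : (Finset.univ.filter (fun g : Fin (n + 1) => ¬ ∀ v, IsR H p v → (p v : ℕ) + 1 ≠ g)).card
        = DR.card := by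
      symm
      refine Finset.card_bij (fun v _ => (p v).succ) ?_ ?_ ?_
      · intro v hv
        simp only [hDR, Finset.mem_filter, Finset.mem_univ, true_and] at hv
        simp only [Finset.mem_filter, Finset.mem_univ, true_and]
        push Not
        exact ⟨v, hv, by simp⟩
      · intro v _ w _ h
        exact p.injective (Fin.succ_injective _ h)
      · intro g hg
        simp only [Finset.mem_filter, Finset.mem_univ, true_and] at hg
        push Not at hg
        obtain ⟨v, hv, hvg⟩ := hg
        exact ⟨v, by simpa [hDR] using hv, Fin.ext (by simpa using hvg)⟩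
    rw [← h1, hBR, Finset.card_filter_add_card_filter_not, Finset.card_univ, Fintype.card_fin]
  have cL : BL.card + DL.card = n + 1 := by
    have h1 : (Finset.univ.filter (fun g : Fin (n + 1) => ¬ ∀ v, IsL H p v → (p v : ℕ) ≠ g)).card
        = DL.card := by
      symm
      refine Finset.card_bij (fun v _ => (p v).castSucc) ?_ ?_ ?_
      · intro v hv
        simp only [hDL, Finset.mem_filter, Finset.mem_univ, true_and] at hv
        simp only [Finset.mem_filter, Finset.mem_univ, true_and]
        push Not
        exact ⟨v, hv, by simp⟩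
      · intro v _ w _ h
        exact p.injective (Fin.castSucc_injective _ h)
      · intro g hg
        simp only [Finset.mem_filter, Finset.mem_univ, true_and] at hg
        push Not at hg
        obtain ⟨v, hv, hvg⟩ := hg
        exact ⟨v, by simpa [hDL] using hv, Fin.ext (by simpa using hvg)⟩
    rw [← h1, hBL, Finset.card_filter_add_card_filter_not, Finset.card_univ, Fintype.card_fin]
  have sR : Finset.image (Quotient.mk (gapSetoid H p)) BR = Finset.univ := by
    ext c
    simp only [Finset.mem_image, Finset.mem_univ, iff_true]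
    obtain ⟨g, rfl⟩ := Quotient.exists_rep c
    obtain ⟨m, h1, -, h3⟩ := exists_max H p g
    exact ⟨m, by simpa [hBR] using h3, Quotient.sound h1.symm⟩
  have sL : Finset.image (Quotient.mk (gapSetoid H p)) BL = Finset.univ := by
    ext c
    simp only [Finset.mem_image, Finset.mem_univ, iff_true]
    obtain ⟨g, rfl⟩ := Quotient.exists_rep c
    obtain ⟨m, h1, -, h3⟩ := exists_min H p g
    exact ⟨m, by simpa [hBL] using h3, Quotient.sound h1.symm⟩
  have qR : Fintype.card (Quotient (gapSetoid H p)) ≤ BR.card := by
    rw [← Finset.card_univ, ← sR]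
    exact Finset.card_image_le
  have qL : Fintype.card (Quotient (gapSetoid H p)) ≤ BL.card := by
    rw [← Finset.card_univ, ← sL]
    exact Finset.card_image_le
  have hsub : T ⊆ DR ∪ DL := by
    intro v hv
    rw [Finset.mem_union]
    rcases hT v hv with h | h
    · exact Or.inl (by simpa [hDR] using h)
    · exact Or.inr (by simpa [hDL] using h)
  have h1 := Finset.card_le_card hsub
  have h2 := Finset.card_union_add_card_inter DR DL
  have h3 : (DR ∩ DL).card = 0 := by omega
  have h4 : T = DR ∪ DL := Finset.eq_of_subset_of_card_le hsub (by omega)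
  have iR : Set.InjOn (Quotient.mk (gapSetoid H p)) BR := by
    apply Finset.card_image_iff.1
    rw [sR, Finset.card_univ]
    omega
  have iL : Set.InjOn (Quotient.mk (gapSetoid H p)) BL := by
    apply Finset.card_image_iff.1
    rw [sL, Finset.card_univ]
    omega
  refine ⟨?_, ?_, ?_, ?_, ?_⟩
  · intro v hv
    rw [h4, Finset.coe_union]
    exact Or.inl (by simpa [hDR] using hv)
  · intro v hv
    rw [h4, Finset.coe_union]
    exact Or.inr (by simpa [hDL] using hv)
  · intro v hv hv'
    rw [Finset.card_eq_zero] at h3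
    have : v ∈ DR ∩ DL := by
      rw [Finset.mem_inter]
      exact ⟨by simpa [hDR] using hv, by simpa [hDL] using hv'⟩
    rw [h3] at this
    exact absurd this (Finset.notMem_empty v)
  · intro v hv hw g hg
    obtain ⟨m, h5, h6, h7⟩ := exists_min H p ((p v).succ)
    have h8 : (p v).succ ∈ BL := by
      simp only [hBL, Finset.mem_filter, Finset.mem_univ, true_and, Fin.val_succ]
      exact hw
    have h9 : m ∈ BL := by simpa [hBL] using h7
    have h10 := iL (by exact_mod_cast h8) (by exact_mod_cast h9) (Quotient.sound h5)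
    have h11 := h6 g (by simpa using hg)
    rw [← h10] at h11
    simpa using h11
  · intro v hv hw g hg
    obtain ⟨m, h5, h6, h7⟩ := exists_max H p ((p v).castSucc)
    have h8 : (p v).castSucc ∈ BR := by
      simp only [hBR, Finset.mem_filter, Finset.mem_univ, true_and, Fin.val_castSucc]
      exact hw
    have h9 : m ∈ BR := by simpa [hBR] using h7
    have h10 := iR (by exact_mod_cast h8) (by exact_mod_cast h9) (Quotient.sound h5)
    have h11 := h6 g (by simpa using hg)
    rw [← h10] at h11
    simpa using h11

end Pool.Agent.Run7.h13
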