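import Mathlib

/-!
# Parity of winding numbers through continuous square roots
-/

namespace Pool.Agent.Run7.h13

open Set Complex

/-- The closed curve `f` (a function of period one) has winding number of parity `b` around `0`:
some continuous square root of `f` is multiplied by `-1` (for `b = true`) or by `1` (for
`b = false`) when the argument grows by one. -/
def Par (f : ℝ → ℂ) (b : Bool) : Prop :=
  ∃ g : ℝ → ℂ, Continuous g ∧ (∀ θ, g θ ^ 2 = f θ) ∧ ∀ θ, g (θ + 1) = (bif b then -1 else 1) * g θ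

theorem exists_sqrt {X : Type*} [TopologicalSpace X] [LocallyPathConnectedSpace X]
    [SimplyConnectedSpace X] (f : X → ℂ) (hf : Continuous f) (h0 : ∀ x, f x ≠ 0) :
    ∃ g : X → ℂ, Continuous g ∧ ∀ x, g x ^ 2 = f x := by
  have hne : Nonempty X := inferInstance
  obtain ⟨x₀⟩ := hne
  rcases isCoveringMapOn_exp.existsUnique_continuousMap_lifts (a₀ := x₀)
    (⟨f, hf⟩ : C(X, ℂ)) (exp_log (h0 x₀)) (fun x ↦ h0 x) with ⟨L, ⟨-, hL⟩, -⟩
  refine ⟨fun x => Complex.exp (L x / 2), by fun_prop, fun x => ?_⟩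
  rw [← Complex.exp_nat_mul]
  have h1 : ((2 : ℕ) : ℂ) * (L x / 2) = L x := by push_cast; ring
  rw [h1]
  exact congrFun hL x

theorem eq_or_neg {X : Type*} [TopologicalSpace X] [PreconnectedSpace X] {f g : X → ℂ}
    (hf : Continuous f) (hg : Continuous g) (hsq : ∀ x, f x ^ 2 = g x ^ 2) (h0 : ∀ x, g x ≠ 0) :
    (∀ x, f x = g x) ∨ ∀ x, f x = - g x := by
  rcases (isPreconnected_univ (α := X)).eq_or_eq_neg_of_sq_eq hf.continuousOn hg.continuousOn
    (fun x _ => hsq x) (fun {x} _ => h0 x) with h | h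
  · exact Or.inl fun x => h (mem_univ x)
  · exact Or.inr fun x => h (mem_univ x)

theorem par_unique {f : ℝ → ℂ} (h0 : ∀ θ, f θ ≠ 0) {b b' : Bool} (h : Par f b) (h' : Par f b') :
    b = b' := by
  obtain ⟨g, hg, hg2, hg1⟩ := h
  obtain ⟨g', hg', hg2', hg1'⟩ := h'
  have hg0 : ∀ θ, g θ ≠ 0 := fun θ h => h0 θ (by rw [← hg2, h]; norm_num)
  have hg0' : ∀ θ, g' θ ≠ 0 := fun θ h => h0 θ (by rw [← hg2', h]; norm_num)
  have key : ∀ c : ℂ, (∀ x, g x = c * g' x) → b = b' := by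
    intro c hc
    have h1 := hc (0 + 1)
    rw [hg1, hg1', hc 0] at h1
    have hc0 : c ≠ 0 := by
      rintro rfl
      exact hg0 0 (by rw [hc 0, zero_mul])
    have h2 : (bif b then (-1 : ℂ) else 1) = (bif b' then (-1 : ℂ) else 1) := by
      have h3 : (bif b then (-1 : ℂ) else 1) * (c * g' 0) =
        (bif b' then (-1 : ℂ) else 1) * (c * g' 0) := by rw [h1]; ring
      exact mul_right_cancel₀ (mul_ne_zero hc0 (hg0' 0)) h3
    cases b <;> cases b' <;> first | rfl | (exfalso; norm_num at h2)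
  rcases eq_or_neg hg hg' (fun x => by rw [hg2, hg2']) hg0' with h | h
  · exact key 1 fun x => by rw [h x, one_mul]
  · exact key (-1) fun x => by rw [h x, neg_one_mul]

theorem par_homotopy {F : ℝ × ℝ → ℂ} (hF : Continuous F) (h0 : ∀ x, F x ≠ 0)
    (hp : ∀ τ θ, F (τ, θ + 1) = F (τ, θ)) {b : Bool} (h : Par (fun θ => F (0, θ)) b) :
    Par (fun θ => F (1, θ)) b := by
  obtain ⟨g, hg, hg2⟩ := exists_sqrt F hF h0
  have hg0 : ∀ x, g x ≠ 0 := fun x h => h0 x (by rw [← hg2, h]; norm_num)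
  have hG : Continuous fun x : ℝ × ℝ => g (x.1, x.2 + 1) := by fun_prop
  obtain ⟨b', hb'⟩ : ∃ b' : Bool, ∀ x : ℝ × ℝ, g (x.1, x.2 + 1) = (bif b' then -1 else 1) * g x := by
    rcases eq_or_neg hG hg (fun x => by rw [hg2, hg2, hp]) hg0 with h | h
    · exact ⟨false, fun x => by rw [h x]; simp⟩
    · exact ⟨true, fun x => by rw [h x]; simp⟩
  have hpar : ∀ τ, Par (fun θ => F (τ, θ)) b' := fun τ =>
    ⟨fun θ => g (τ, θ), by fun_prop, fun θ => hg2 _, fun θ => hb' (τ, θ)⟩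
  have : b = b' := par_unique (fun θ => h0 _) h (hpar 0)
  rw [this]
  exact hpar 1

theorem par_const {c : ℂ} : Par (fun _ => c) false := by
  obtain ⟨d, hd⟩ : ∃ d : ℂ, d ^ 2 = c := IsAlgClosed.exists_pow_nat_eq c (by norm_num)
  exact ⟨fun _ => d, continuous_const, fun _ => hd, fun _ => by simp⟩

theorem par_odd {f : ℝ → ℂ} (hf : Continuous f) (h0 : ∀ θ, f θ ≠ 0)
    (hodd : ∀ θ, f (θ + 1 / 2) = - f θ) : Par f true := by
  obtain ⟨g, hg, hg2⟩ := exists_sqrt f hf h0
  have hg0 : ∀ x, g x ≠ 0 := fun x h => h0 x (by rw [← hg2, h]; norm_num)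
  obtain ⟨r, hr, hr2⟩ : ∃ r : ℂ, r ^ 2 = -1 ∧ ∀ θ, g (θ + 1 / 2) = r * g θ := by
    rcases eq_or_neg (f := fun θ => g (θ + 1 / 2)) (g := fun θ => I * g θ) (by fun_prop)
      (by fun_prop) (fun x => by rw [hg2, hodd, mul_pow, hg2, I_sq]; ring)
      (fun x => mul_ne_zero I_ne_zero (hg0 x)) with h | h
    · exact ⟨I, I_sq, h⟩
    · exact ⟨-I, by rw [neg_sq, I_sq], fun θ => by rw [h θ]; ring⟩
  refine ⟨g, hg, hg2, fun θ => ?_⟩
  have h1 : θ + 1 = θ + 1 / 2 + 1 / 2 := by ring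
  rw [h1, hr2, hr2, ← mul_assoc, ← sq, hr]
  simp

/-! ### Circles in the parameter plane -/

/-- The unit circle as a loop of period one. -/
noncomputable def ex (θ : ℝ) : ℂ := Complex.exp (2 * Real.pi * θ * I)

theorem ex_continuous : Continuous ex := by
  unfold ex
  fun_prop

theorem norm_ex (θ : ℝ) : ‖ex θ‖ = 1 := by
  unfold ex
  have : (2 * Real.pi * θ * I : ℂ) = ((2 * Real.pi * θ : ℝ) : ℂ) * I := by push_cast; ring
  rw [this, Complex.norm_exp_ofReal_mul_I]

theorem ex_add_one (θ : ℝ) : ex (θ + 1) = ex θ := by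
  unfold ex
  have : (2 * Real.pi * ((θ + 1 : ℝ) : ℂ) * I : ℂ) = 2 * Real.pi * θ * I + 2 * Real.pi * I := by
    push_cast; ring
  rw [this, Complex.exp_add, Complex.exp_two_pi_mul_I, mul_one]

theorem ex_add_half (θ : ℝ) : ex (θ + 1 / 2) = - ex θ := by
  unfold ex
  have : (2 * Real.pi * ((θ + 1 / 2 : ℝ) : ℂ) * I : ℂ) = 2 * Real.pi * θ * I + Real.pi * I := by
    push_cast; ring
  rw [this, Complex.exp_add, Complex.exp_pi_mul_I, mul_neg, mul_one]

/-- clipping to the unit interval -/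
def clip (t : ℝ) : ℝ := max 0 (min t 1)

theorem clip_continuous : Continuous clip := by
  unfold clip
  fun_prop

theorem clip_mem (t : ℝ) : clip t ∈ Icc (0 : ℝ) 1 := by
  unfold clip
  constructor
  · exact le_max_left _ _
  · exact max_le zero_le_one (min_le_right _ _)

theorem clip_of_mem {t : ℝ} (h : t ∈ Icc (0 : ℝ) 1) : clip t = t := by
  unfold clip
  rw [min_eq_left h.2, max_eq_right h.1]

theorem clip_of_nonpos {t : ℝ} (h : t ≤ 0) : clip t = 0 := by
  unfold clip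
  rw [min_eq_left (by linarith), max_eq_left h]

theorem clip_of_one_le {t : ℝ} (h : 1 ≤ t) : clip t = 1 := by
  unfold clip
  rw [min_eq_right h]
  simp

@[simp] theorem clip_zero : clip 0 = 0 := clip_of_nonpos le_rfl
@[simp] theorem clip_one : clip 1 = 1 := clip_of_one_le le_rfl

/-- Contracting a circle. -/
theorem par_contract {Φ : ℂ → ℂ} (hΦ : Continuous Φ) (h0 : ∀ z, Φ z ≠ 0) (c : ℂ) (R : ℝ) :
    Par (fun θ => Φ (c + R * ex θ)) false := by
  have h := par_homotopy (F := fun x => Φ (c + (clip x.1 * R : ℝ) * ex x.2))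
    (by have := clip_continuous; have := ex_continuous; fun_prop) (fun x => h0 _)
    (fun τ θ => by rw [ex_add_one]) (b := false)
    (by
      have : (fun θ : ℝ => Φ (c + (clip (0, θ).1 * R : ℝ) * ex (0, θ).2)) = fun _ => Φ c := by
        funext θ; simp
      rw [this]; exact par_const)
  simpa using h

/-- Shrinking a circle to a small circle around the only zero. -/
theorem par_shrink {Φ : ℂ → ℂ} (hΦ : Continuous Φ) {z₀ : ℂ} (h0 : ∀ z, z ≠ z₀ → Φ z ≠ 0) {c : ℂ}
    {R ρ : ℝ} (hR : ‖c - z₀‖ < R) (hρ : 0 < ρ) {b : Bool}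
    (h : Par (fun θ => Φ (z₀ + ρ * ex θ)) b) : Par (fun θ => Φ (c + R * ex θ)) b := by
  have h1 := par_homotopy (F := fun x => Φ (((1 - clip x.1 : ℝ) : ℂ) * z₀ + (clip x.1 : ℝ) * c +
    ((1 - clip x.1) * ρ + clip x.1 * R : ℝ) * ex x.2))
    (by have := clip_continuous; have := ex_continuous; fun_prop) (fun x => ?_)
    (fun τ θ => by rw [ex_add_one]) (b := b) (by simpa using h)
  · simpa using h1
  · apply h0
    intro heq
    obtain ⟨h2, h3⟩ := clip_mem x.1
    set u := clip x.1 with hu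
    have h4 : ((1 - u) * ρ + u * R : ℝ) * ex x.2 = u * (z₀ - c) := by
      have : ((1 - u : ℝ) : ℂ) * z₀ + (u : ℝ) * c + ((1 - u) * ρ + u * R : ℝ) * ex x.2 -
        (((1 - u : ℝ) : ℂ) * z₀ + (u : ℝ) * c) = z₀ - (((1 - u : ℝ) : ℂ) * z₀ + (u : ℝ) * c) := by
        rw [heq]
      rw [add_sub_cancel_left] at this
      rw [this]
      push_cast
      ring
    have hR0 : 0 < R := lt_of_le_of_lt (norm_nonneg _) hR
    have h5 : (1 - u) * ρ + u * R = u * ‖c - z₀‖ := by
      have := congrArg norm h4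
      rw [norm_mul, norm_ex, mul_one, norm_mul, Complex.norm_real, Complex.norm_real,
        Real.norm_eq_abs, Real.norm_eq_abs, abs_of_nonneg h2, abs_of_nonneg (add_nonneg (mul_nonneg (sub_nonneg.2 h3) hρ.le) (mul_nonneg h2 hR0.le)),
        norm_sub_rev] at this
      exact this
    by_cases hu0 : u = 0
    · rw [hu0] at h5; simp at h5; linarith
    · have hupos : 0 < u := lt_of_le_of_ne h2 (Ne.symm hu0)
      nlinarith [mul_nonneg (sub_nonneg.2 h3) hρ.le, mul_lt_mul_of_pos_left hR hupos]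

end Pool.Agent.Run7.h13
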